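import Pool.Agent.H20.TM

set_option autoImplicit false

open scoped Classical
open Finset

namespace Pool.Agent.H20

variable {r n : ℕ}

lemma card_fiber_weight {α β : Type*} [DecidableEq β] (s : Finset α) (f : α → β) (t : Finset β)
    (hf : ∀ x ∈ s, f x ∈ t) (w N : ℝ)
    (h : ∀ b ∈ t, ((s.filter (fun x => f x = b)).card : ℝ) * w ≤ N) :
    (s.card : ℝ) * w ≤ t.card * N := by
  have h1 := Finset.card_eq_sum_card_fiberwise (f := f) (s := s) (t := t) hf
  rw [h1]
  push_cast
  rw [Finset.sum_mul]
  calc (∑ b ∈ t, ((s.filter (fun x => f x = b)).card : ℝ) * w) ≤ ∑ b ∈ t, N :=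
        Finset.sum_le_sum h
    _ = t.card * N := by rw [Finset.sum_const, nsmul_eq_mul]

def CTprop (r : ℕ) (C0 C1 : ℝ) (M : ℕ) (K : ℝ) : Prop :=
  ∀ (n : ℕ) (x : ℝ) (a : ℕ → ℕ), Par r n x C0 a → ∀ Hi : Fin r → Finset (Fin n),
    (∀ i, ((Hi i).card : ℝ) ≤ C1 * (P a r : ℝ)) → ∀ (R : Finset (Fin r))
    (L : Finset (Fin r → Fin n)), R.card = M → Det R L → (∀ f ∈ L, ∃ i ∈ R, f i ∉ Hi i) →
    (∀ π U, Ord R π → One a π L U → ¬ Av Hi π (fun _ => ∅) U) →
    (L.card : ℝ) * (P a r : ℝ) ^ (r - M) ≤ K * x * (n : ℝ) ^ (r-1)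

def INprop (r : ℕ) (C0 C1 : ℝ) (T m c : ℕ) (K : ℝ) : Prop :=
  ∀ (n : ℕ) (x : ℝ) (a : ℕ → ℕ), Par r n x C0 a → ∀ Hi : Fin r → Finset (Fin n),
    (∀ i, ((Hi i).card : ℝ) ≤ C1 * (P a r : ℝ)) → ∀ (R : Finset (Fin r))
    (L : Finset (Fin r → Fin n)), R.card = m → Det R L → NR a T c Hi R L →
    (L.card : ℝ) * ((P a r : ℝ) ^ (r - T) * (P a T : ℝ) ^ (T - m)) ≤ K * x * (n : ℝ) ^ (r-1)

theorem inner (r : ℕ) (C0 C1 : ℝ) (hC1 : 0 ≤ C1) (T : ℕ) (hT : T + 1 ≤ r) (KC : ℝ)
    (hKC0 : 0 ≤ KC) (hKC : ∀ m, 1 ≤ m → m ≤ T → CTprop r C0 C1 m KC) :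
    ∀ m, 1 ≤ m → m ≤ T → ∀ c, ∃ K, 0 ≤ K ∧ INprop r C0 C1 T m c K := by
  intro m
  induction m with
  | zero => intro h; omega
  | succ m ih =>
    intro _ hmT c
    by_cases hC0 : 0 ≤ C0
    swap
    · refine ⟨0, le_rfl, ?_⟩
      intro n x a hp
      exfalso
      have := hp.C1
      linarith
    obtain ⟨K', hK'0, hK'⟩ : ∃ K', 0 ≤ K' ∧ (1 ≤ m → INprop r C0 C1 T m (c+1) K') := by
      by_cases hm : 1 ≤ m
      · obtain ⟨K', h1, h2⟩ := ih hm (by omega) (c+1)
        exact ⟨K', h1, fun _ => h2⟩
      · exact ⟨0, le_rfl, fun h => absurd h hm⟩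
    set Q : ℝ := ((r ^ r * (c + 1) : ℕ) : ℝ) with hQ
    have hQ0 : 0 ≤ Q := Nat.cast_nonneg _
    refine ⟨C1 ^ (m+1) * C0 + KC + r * (Q * K' + Q * C0), by positivity, ?_⟩
    intro n x a hp Hi hHi R L hRm hDet hNR
    have hx0 : 0 ≤ x := by linarith [hp.x1]
    have hn0 : (0 : ℝ) ≤ n := Nat.cast_nonneg _
    have ha : ∀ j < T, 1 ≤ a j := fun j hj => hp.a1 j (by omega)
    have hRne : R.Nonempty := Finset.card_pos.mp (by omega)
    set W : ℝ := (P a r : ℝ) with hW
    set PT : ℝ := (P a T : ℝ) with hPT
    have hPT1 : 1 ≤ PT := by rw [hPT]; exact_mod_cast P_pos ha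
    have hPTW : PT ≤ W := by
      rw [hPT, hW]; exact_mod_cast P_mono hp.a1 (by omega)
    have hW1 : 1 ≤ W := hPT1.trans hPTW
    have hW0 : 0 ≤ W := by linarith
    have hPT0 : 0 ≤ PT := by linarith
    set B : ℝ := x * (n : ℝ) ^ (r-1) with hB
    have hB0 : 0 ≤ B := by positivity
    have hWr : W ^ r ≤ C0 * B := by
      have := hp.p5
      rw [hB, ← mul_assoc]; exact this
    set w0 : ℝ := W ^ (r - T) * PT ^ (T - (m+1)) with hw0
    have hw00 : 0 ≤ w0 := by positivity
    -- PT powers into W powers
    have hpow : ∀ k, k ≤ T → W ^ (r - T) * PT ^ k ≤ W ^ (r - T + k) := by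
      intro k _
      rw [pow_add]
      gcongr
    obtain ⟨U, hU1, hU2⟩ := cover ha hRne (by omega) hNR
    set L2 := L.filter (fun f => ∀ i ∈ R, f i ∉ U i) with hL2
    set St := L2.filter (fun f => ∀ i ∈ R, f i ∈ Hi i) with hSt
    set Lf := L2.filter (fun f => ¬ ∀ i ∈ R, f i ∈ Hi i) with hLf
    -- stuck
    have hstuck : (St.card : ℝ) * w0 ≤ C1 ^ (m+1) * (C0 * B) := by
      have h1 : St.card ≤ ∏ i ∈ R, (Hi i).card := by
        apply Det.card_le_prod (hDet.sub ((Finset.filter_subset _ _).trans
          (Finset.filter_subset _ _)))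
        intro f hf i hi
        exact (Finset.mem_filter.mp hf).2 i hi
      have h2 : (St.card : ℝ) ≤ (C1 * W) ^ (m+1) := by
        calc (St.card : ℝ) ≤ ∏ i ∈ R, ((Hi i).card : ℝ) := by exact_mod_cast h1
          _ ≤ ∏ i ∈ R, (C1 * W) := by
              apply Finset.prod_le_prod
              · intro i _; positivity
              · intro i _; exact hHi i
          _ = (C1 * W) ^ (m+1) := by rw [Finset.prod_const, hRm]
      calc (St.card : ℝ) * w0 ≤ (C1 * W) ^ (m+1) * (W ^ (r - T) * PT ^ (T - (m+1))) := by
            rw [hw0]; gcongr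
        _ ≤ (C1 * W) ^ (m+1) * (W ^ (r - T + (T - (m+1)))) := by
            gcongr
            exact hpow _ (by omega)
        _ = C1 ^ (m+1) * W ^ ((m+1) + (r - T + (T - (m+1)))) := by
            rw [mul_pow, pow_add W (m+1)]; ring
        _ = C1 ^ (m+1) * W ^ r := by
            congr 2
            omega
        _ ≤ _ := by gcongr
    -- leftover
    have hleft : (Lf.card : ℝ) * w0 ≤ KC * B := by
      have h1 := hKC (m+1) (by omega) hmT n x a hp Hi hHi R Lf hRm
        (hDet.sub ((Finset.filter_subset _ _).trans (Finset.filter_subset _ _)))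
        (by
          intro f hf
          rw [hLf, Finset.mem_filter] at hf
          have := hf.2
          push Not at this
          exact this)
        (by
          intro π V hπ hV
          exact hU2 π V hπ (hV.mono (Finset.filter_subset _ _)))
      calc (Lf.card : ℝ) * w0 ≤ (Lf.card : ℝ) * (W ^ (r - T + (T - (m+1)))) := by
            rw [hw0]
            gcongr
            exact hpow _ (by omega)
        _ = (Lf.card : ℝ) * (W ^ (r - (m+1))) := by
            congr 2
            omega
        _ ≤ KC * x * (n : ℝ) ^ (r-1) := h1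
        _ = _ := by rw [hB]; ring
    -- touched
    have htouch : ∀ i ∈ R, ((L.filter (fun f => f i ∈ U i)).card : ℝ) * w0 ≤
        Q * K' * B + Q * (C0 * B) := by
      intro i hi
      have hUi : ((U i).card : ℝ) ≤ Q * PT := by
        have := hU1 i hi
        rw [hQ, hPT]
        rw [← mul_assoc] at this
        exact_mod_cast this
      rcases Nat.eq_zero_or_pos m with hm0 | hm1
      · -- m + 1 = 1
        have hR1 : R = {i} := by
          obtain ⟨i', hi'⟩ := Finset.card_eq_one.mp (show R.card = 1 by omega)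
          rw [hi'] at hi ⊢
          rw [Finset.mem_singleton.mp hi]
        have h1 : (L.filter (fun f => f i ∈ U i)).card ≤ (U i).card := by
          apply Finset.card_le_card_of_injOn (fun f => f i)
          · intro f hf
            exact (Finset.mem_filter.mp hf).2
          · intro f hf g hg hfg
            apply hDet f (Finset.mem_filter.mp hf).1 g (Finset.mem_filter.mp hg).1
            intro j hj
            rw [hR1, Finset.mem_singleton] at hj
            subst hj
            exact hfg
        have h2 : ((L.filter (fun f => f i ∈ U i)).card : ℝ) ≤ Q * PT :=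
          le_trans (by exact_mod_cast h1) hUi
        calc ((L.filter (fun f => f i ∈ U i)).card : ℝ) * w0 ≤ (Q * PT) * w0 := by gcongr
          _ = Q * (W ^ (r - T) * PT ^ (T - (m+1) + 1)) := by
              rw [hw0, pow_succ]; ring
          _ ≤ Q * (W ^ (r - T + (T - (m+1) + 1))) := by
              gcongr
              exact hpow _ (by omega)
          _ = Q * W ^ r := by
              congr 2
              omega
          _ ≤ Q * (C0 * B) := by gcongr
          _ ≤ _ := by
              have : 0 ≤ Q * K' * B := by positivity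
              linarith
      · have hcard : (R.erase i).card = m := by
          rw [Finset.card_erase_of_mem hi]; omega
        have hne : R.erase i ≠ ∅ := by
          intro h
          rw [h] at hcard
          simp at hcard
          omega
        set Ri := Rich a T c Hi R L i with hRi
        have hRic : (Ri.card : ℝ) ≤ Q * (E a T m : ℝ) := by
          have h1 := Rich_card ha hi (by omega) hNR
          rw [hRm, Nat.add_sub_cancel, ← mul_assoc] at h1
          rw [hQ]
          exact_mod_cast h1
        have hsub : L.filter (fun f => f i ∈ U i) ⊆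
            L.filter (fun f => f i ∈ U i \ Ri) ∪ L.filter (fun f => f i ∈ Ri) := by
          intro f hf
          rw [Finset.mem_filter] at hf
          rw [Finset.mem_union, Finset.mem_filter, Finset.mem_filter, Finset.mem_sdiff]
          tauto
        -- non-rich
        have h1 : ((L.filter (fun f => f i ∈ U i \ Ri)).card : ℝ) * w0 ≤ Q * K' * B := by
          have h2 := card_fiber_weight (L.filter (fun f => f i ∈ U i \ Ri)) (fun f => f i)
            (U i \ Ri) (fun f hf => (Finset.mem_filter.mp hf).2)
            (W ^ (r - T) * PT ^ (T - m)) (K' * x * (n : ℝ) ^ (r-1)) (by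
              intro w hw
              rw [Finset.mem_sdiff] at hw
              have hNRw : NR a T (c+1) Hi (R.erase i) (lk L i w) := by
                by_contra hcon
                apply hw.2
                rw [hRi]
                unfold Rich
                rw [Finset.mem_filter]
                exact ⟨Finset.mem_univ _, fun h => absurd h hne, hcon⟩
              have h3 := hK' hm1 n x a hp Hi hHi (R.erase i) (lk L i w) hcard (hDet.lk i w) hNRw
              refine le_trans ?_ h3
              gcongr
              intro f hf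
              rw [Finset.mem_filter, Finset.mem_filter] at hf
              rw [mem_lk]
              exact ⟨hf.1.1, hf.2⟩)
          have h3 : T - m = T - (m+1) + 1 := by omega
          rw [h3, pow_succ] at h2
          have h4 : ((L.filter (fun f => f i ∈ U i \ Ri)).card : ℝ) * w0 * PT ≤
              (Q * K' * B) * PT := by
            calc ((L.filter (fun f => f i ∈ U i \ Ri)).card : ℝ) * w0 * PT
                = ((L.filter (fun f => f i ∈ U i \ Ri)).card : ℝ) *
                  (W ^ (r - T) * (PT ^ (T - (m+1)) * PT)) := by rw [hw0]; ring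
              _ ≤ ((U i \ Ri).card : ℝ) * (K' * x * (n : ℝ) ^ (r-1)) := h2
              _ ≤ (Q * PT) * (K' * x * (n : ℝ) ^ (r-1)) := by
                  gcongr
                  refine le_trans ?_ hUi
                  exact_mod_cast Finset.card_le_card Finset.sdiff_subset
              _ = _ := by rw [hB]; ring
          exact le_of_mul_le_mul_right h4 (by linarith)
        have h2 : ((L.filter (fun f => f i ∈ Ri)).card : ℝ) * w0 ≤ Q * (C0 * B) := by
          have h3 := card_fiber_real (L.filter (fun f => f i ∈ Ri)) (fun f => f i)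
            Ri (fun f hf => (Finset.mem_filter.mp hf).2) ((n : ℝ) ^ m) (by
              intro w _
              have h4 := (hDet.lk i w).card_le
              rw [hcard] at h4
              have h5 : ((L.filter (fun f => f i ∈ Ri)).filter (fun f => f i = w)).card ≤
                  (lk L i w).card := by
                apply Finset.card_le_card
                intro f hf
                rw [Finset.mem_filter, Finset.mem_filter] at hf
                rw [mem_lk]
                exact ⟨hf.1.1, hf.2⟩
              exact_mod_cast h5.trans h4)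
          have h6 := hp.p6 T m hm1 (by omega) hT
          have h7 : T - m - 1 = T - (m+1) := by omega
          rw [h7] at h6
          calc ((L.filter (fun f => f i ∈ Ri)).card : ℝ) * w0
              ≤ (Ri.card * (n : ℝ) ^ m) * w0 := by gcongr
            _ ≤ (Q * (E a T m : ℝ) * (n : ℝ) ^ m) * w0 := by gcongr
            _ = Q * ((E a T m : ℝ) * (n : ℝ) ^ m * W ^ (r-T) * PT ^ (T - (m+1))) := by
                rw [hw0]; ring
            _ ≤ Q * (C0 * x * (n : ℝ) ^ (r-1)) := by gcongr
            _ = _ := by rw [hB]; ring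
        have h3 : ((L.filter (fun f => f i ∈ U i)).card : ℝ) ≤
            ((L.filter (fun f => f i ∈ U i \ Ri)).card : ℝ) +
            ((L.filter (fun f => f i ∈ Ri)).card : ℝ) := by
          exact_mod_cast (Finset.card_le_card hsub).trans (Finset.card_union_le _ _)
        calc _ ≤ (((L.filter (fun f => f i ∈ U i \ Ri)).card : ℝ) +
            ((L.filter (fun f => f i ∈ Ri)).card : ℝ)) * w0 := by gcongr
          _ ≤ _ := by rw [add_mul]; linarith
    -- assemble
    have hsub : L ⊆ (St ∪ Lf) ∪ R.biUnion (fun i => L.filter (fun f => f i ∈ U i)) := by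
      intro f hf
      rw [Finset.mem_union, Finset.mem_union, Finset.mem_biUnion]
      by_cases h1 : ∀ i ∈ R, f i ∉ U i
      · left
        have h2 : f ∈ L2 := Finset.mem_filter.mpr ⟨hf, h1⟩
        by_cases h3 : ∀ i ∈ R, f i ∈ Hi i
        · left; exact Finset.mem_filter.mpr ⟨h2, h3⟩
        · right; exact Finset.mem_filter.mpr ⟨h2, h3⟩
      · right
        push Not at h1
        obtain ⟨i, hi, hfi⟩ := h1
        exact ⟨i, hi, Finset.mem_filter.mpr ⟨hf, hfi⟩⟩
    have hcard : (L.card : ℝ) ≤ St.card + Lf.card +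
        ∑ i ∈ R, ((L.filter (fun f => f i ∈ U i)).card : ℝ) := by
      have h1 : L.card ≤ St.card + Lf.card + ∑ i ∈ R, (L.filter (fun f => f i ∈ U i)).card :=
        (Finset.card_le_card hsub).trans ((Finset.card_union_le _ _).trans
          (Nat.add_le_add (Finset.card_union_le _ _) Finset.card_biUnion_le))
      exact_mod_cast h1
    have hsum : (∑ i ∈ R, ((L.filter (fun f => f i ∈ U i)).card : ℝ)) * w0 ≤
        r * (Q * K' * B + Q * (C0 * B)) := by
      rw [Finset.sum_mul]
      calc _ ≤ ∑ i ∈ R, (Q * K' * B + Q * (C0 * B)) := Finset.sum_le_sum htouch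
        _ = R.card * (Q * K' * B + Q * (C0 * B)) := by rw [Finset.sum_const, nsmul_eq_mul]
        _ ≤ _ := by
            gcongr
            have : R.card ≤ r := by simpa using Finset.card_le_univ R
            exact this
    calc (L.card : ℝ) * w0 ≤ (St.card + Lf.card +
        ∑ i ∈ R, ((L.filter (fun f => f i ∈ U i)).card : ℝ)) * w0 := by gcongr
      _ = (St.card : ℝ) * w0 + (Lf.card : ℝ) * w0 +
        (∑ i ∈ R, ((L.filter (fun f => f i ∈ U i)).card : ℝ)) * w0 := by ring
      _ ≤ C1 ^ (m+1) * (C0 * B) + KC * B + r * (Q * K' * B + Q * (C0 * B)) := by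
          gcongr
      _ = _ := by rw [hB]; ring

theorem CT (r : ℕ) (C0 C1 : ℝ) (hC1 : 0 ≤ C1) : ∀ M, 1 ≤ M → M ≤ r →
    ∃ K, 0 ≤ K ∧ CTprop r C0 C1 M K := by
  intro M
  induction M using Nat.strong_induction_on with
  | _ M ih =>
    intro hM1 hMr
    by_cases hC0 : 0 ≤ C0
    swap
    · refine ⟨0, le_rfl, ?_⟩
      intro n x a hp
      exfalso
      have := hp.C1
      linarith
    by_cases hM : M = 1
    · refine ⟨0, le_rfl, ?_⟩
      intro n x a hp Hi hHi R L hRM hDet hLo hOne
      have hL : L = ∅ := by
        rw [Finset.eq_empty_iff_forall_notMem]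
        intro f hf
        rw [hM] at hRM
        obtain ⟨i, hi⟩ := Finset.card_eq_one.mp hRM
        obtain ⟨i', hi', hfi⟩ := hLo f hf
        rw [hi, Finset.mem_singleton] at hi'
        subst hi'
        apply hOne [i'] _ ⟨by simp, by simp [hi]⟩ (one_of_singleton hf)
        refine ⟨Finset.disjoint_empty_right _, fun _ => ?_, trivial⟩
        rw [Function.update_self, Finset.disjoint_singleton_left]
        exact hfi
      rw [hL]
      simp
    have hM2 : 2 ≤ M := by omega
    obtain ⟨KC, hKC0, hKC⟩ := unif (CTprop r C0 C1) (by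
      intro m K K' hK h n x a hp Hi hHi R L h1 h2 h3 h4
      refine (h n x a hp Hi hHi R L h1 h2 h3 h4).trans ?_
      have hx0 : 0 ≤ x := by linarith [hp.x1]
      gcongr) M (fun m h1 h2 => ih m h2 h1 (by omega))
    obtain ⟨KI, hKI0, hKI⟩ := inner r C0 C1 hC1 (M-1) (by omega) KC hKC0
      (fun m h1 h2 => hKC m h1 (by omega)) (M-1) (by omega) le_rfl 0
    obtain ⟨KT, hKT0, hKT⟩ := TM r C0 M hM1 hMr
    refine ⟨KT * C0 + r * (C1 * KI), by positivity, ?_⟩
    intro n x a hp Hi hHi R L hRM hDet hLo hOne
    have hx0 : 0 ≤ x := by linarith [hp.x1]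
    have hn0 : (0 : ℝ) ≤ n := Nat.cast_nonneg _
    set W : ℝ := (P a r : ℝ) with hW
    have hW1 : 1 ≤ W := by rw [hW]; exact_mod_cast P_pos hp.a1
    have hW0 : 0 ≤ W := by linarith
    set B : ℝ := x * (n : ℝ) ^ (r-1) with hB
    have hB0 : 0 ≤ B := by positivity
    set Lo := L.filter (fun f => ∀ i ∈ R, f i ∉ Hi i) with hLodef
    have h1 : (Lo.card : ℝ) * W ^ (r - M) ≤ KT * C0 * B := by
      have h2 := hKT n x a hp R Lo hRM (hDet.sub (Finset.filter_subset _ _)) (by
        intro π U hπ hU
        apply hOne π U hπ (hU.mono (Finset.filter_subset _ _))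
        have hval := hU.mem_val (fun j hj => hp.a1 j (by rw [hπ.length] at hj; omega))
        apply Av.of_disjoint (fun _ _ => Finset.disjoint_empty_right _)
        intro j hj
        rw [Finset.disjoint_left]
        intro v hv hv2
        obtain ⟨f, hf, hfj⟩ := hval j v hv
        rw [hLodef, Finset.mem_filter] at hf
        apply hf.2 j (by rw [← hπ.2]; simpa using hj)
        rw [hfj]; exact hv2)
      calc (Lo.card : ℝ) * W ^ (r - M) ≤ (KT * x * (n : ℝ) ^ (M-1)) * W ^ (r - M) := by gcongr
        _ = KT * x * ((n : ℝ) ^ (M-1) * W ^ (r - M)) := by ring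
        _ ≤ KT * x * (C0 * (n : ℝ) ^ (r-1)) :=
            mul_le_mul_of_nonneg_left (hp.p3 M hM1 hMr) (by positivity)
        _ = _ := by rw [hB]; ring
    have h2 : ∀ i ∈ R, ((L.filter (fun f => f i ∈ Hi i)).card : ℝ) * W ^ (r - M) ≤
        C1 * KI * B := by
      intro i hi
      have hcard : (R.erase i).card = M - 1 := by
        rw [Finset.card_erase_of_mem hi]; omega
      have hne : R.erase i ≠ ∅ := by
        intro h
        rw [h] at hcard
        simp at hcard
        omega
      have h3 := card_fiber_weight (L.filter (fun f => f i ∈ Hi i)) (fun f => f i)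
        (Hi i) (fun f hf => (Finset.mem_filter.mp hf).2)
        (W ^ (r - (M-1)) * (P a (M-1) : ℝ) ^ ((M-1) - (M-1))) (KI * x * (n : ℝ) ^ (r-1)) (by
          intro w _
          have hNR : NR a (M-1) 0 Hi (R.erase i) (lk L i w) :=
            NR_of_noOne hOne hi (fun h => absurd h hne)
          have h4 := hKI n x a hp Hi hHi (R.erase i) (lk L i w) hcard (hDet.lk i w) hNR
          refine le_trans ?_ h4
          gcongr
          intro f hf
          rw [Finset.mem_filter, Finset.mem_filter] at hf
          rw [mem_lk]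
          exact ⟨hf.1.1, hf.2⟩)
      rw [Nat.sub_self, pow_zero, mul_one] at h3
      have h5 : r - (M-1) = r - M + 1 := by omega
      rw [h5, pow_succ, ← mul_assoc] at h3
      have h6 : ((L.filter (fun f => f i ∈ Hi i)).card : ℝ) * W ^ (r - M) * W ≤
          (C1 * KI * B) * W := by
        refine h3.trans ?_
        calc ((Hi i).card : ℝ) * (KI * x * (n : ℝ) ^ (r-1))
            ≤ (C1 * W) * (KI * x * (n : ℝ) ^ (r-1)) := by
              gcongr
              exact hHi i
          _ = _ := by rw [hB]; ring
      exact le_of_mul_le_mul_right h6 (by linarith)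
    have hsub : L ⊆ Lo ∪ R.biUnion (fun i => L.filter (fun f => f i ∈ Hi i)) := by
      intro f hf
      rw [Finset.mem_union, Finset.mem_biUnion]
      by_cases h1 : ∀ i ∈ R, f i ∉ Hi i
      · left; exact Finset.mem_filter.mpr ⟨hf, h1⟩
      · right
        push Not at h1
        obtain ⟨i, hi, hfi⟩ := h1
        exact ⟨i, hi, Finset.mem_filter.mpr ⟨hf, hfi⟩⟩
    have hcard : (L.card : ℝ) ≤ Lo.card +
        ∑ i ∈ R, ((L.filter (fun f => f i ∈ Hi i)).card : ℝ) := by
      have h1 : L.card ≤ Lo.card + ∑ i ∈ R, (L.filter (fun f => f i ∈ Hi i)).card :=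
        (Finset.card_le_card hsub).trans ((Finset.card_union_le _ _).trans
          (Nat.add_le_add_left Finset.card_biUnion_le _))
      exact_mod_cast h1
    have hsum : (∑ i ∈ R, ((L.filter (fun f => f i ∈ Hi i)).card : ℝ)) * W ^ (r - M) ≤
        r * (C1 * KI * B) := by
      rw [Finset.sum_mul]
      calc _ ≤ ∑ i ∈ R, (C1 * KI * B) := Finset.sum_le_sum h2
        _ = R.card * (C1 * KI * B) := by rw [Finset.sum_const, nsmul_eq_mul]
        _ ≤ _ := by
            gcongr
            have : R.card ≤ r := by simpa using Finset.card_le_univ R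
            exact this
    calc (L.card : ℝ) * W ^ (r - M) ≤ (Lo.card +
        ∑ i ∈ R, ((L.filter (fun f => f i ∈ Hi i)).card : ℝ)) * W ^ (r - M) := by gcongr
      _ = (Lo.card : ℝ) * W ^ (r - M) +
        (∑ i ∈ R, ((L.filter (fun f => f i ∈ Hi i)).card : ℝ)) * W ^ (r - M) := by ring
      _ ≤ KT * C0 * B + r * (C1 * KI * B) := by linarith
      _ = _ := by rw [hB]; ring

end Pool.Agent.H20
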