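import Mathlib

set_option autoImplicit false

open scoped Classical
open Finset

namespace Pool.Agent.H20

/-- Abstract deduction system used in the star-free bound. -/
structure Sys {α : Type} [DecidableEq α] (R : Finset α) (NN : Finset α → Prop)
    (jj : Finset α → α) (Bnd : Finset α → ℝ → Prop) (cU n : ℝ) (cR : ℕ → ℝ) : Prop where
  hj : ∀ s, s ⊆ R → NN s → jj s ∈ R ∧ jj s ∉ s
  h1 : ∀ v ∈ R, NN {v}
  hR : ¬ NN R
  h0 : ¬ NN ∅
  cU0 : 0 ≤ cU
  n0 : 0 ≤ n
  cR0 : ∀ q, 0 ≤ cR q
  rU : ∀ s A (N : ℝ), NN s → s ⊆ A → A ⊆ R → 0 ≤ N → Bnd (insert (jj s) A) N → Bnd A (cU*N)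
  rR : ∀ s A (N : ℝ), NN s → ¬ NN (insert (jj s) s) → s ⊆ A → A ⊆ R → 0 ≤ N →
    Bnd (insert (jj s) A) N → Bnd A (cR (R.card - s.card - 1) * N)
  rF : ∀ v A (N : ℝ), v ∈ R → A ⊆ R → 0 ≤ N → Bnd (insert v A) N → Bnd A (n*N)
  r1 : Bnd R 1

namespace Sys

variable {α : Type} [DecidableEq α]

def Cld (NN : Finset α → Prop) (jj : Finset α → α) (C : Finset α) : Prop :=
  ∀ s, s ⊆ C → NN s → jj s ∈ C

noncomputable def cl (R : Finset α) (NN : Finset α → Prop) (jj : Finset α → α) (A : Finset α) :
    Finset α := R.filter (fun i => ∀ C, C ⊆ R → Cld NN jj C → A ⊆ C → i ∈ C)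

variable {R : Finset α} {NN : Finset α → Prop}
    {jj : Finset α → α} {Bnd : Finset α → ℝ → Prop} {cU n : ℝ} {cR : ℕ → ℝ}

lemma cl_sub (A : Finset α) : cl R NN jj A ⊆ R := Finset.filter_subset _ _

lemma sub_cl {A : Finset α} (hA : A ⊆ R) : A ⊆ cl R NN jj A := by
  intro i hi
  unfold cl
  rw [Finset.mem_filter]
  exact ⟨hA hi, fun C _ _ h => h hi⟩

lemma cl_min {A C : Finset α} (hC : C ⊆ R) (hcl : Cld NN jj C) (hAC : A ⊆ C) :
    cl R NN jj A ⊆ C := by
  intro i hi
  unfold cl at hi
  rw [Finset.mem_filter] at hi
  exact hi.2 C hC hcl hAC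

lemma cl_cld (S : Sys R NN jj Bnd cU n cR) (A : Finset α) : Cld NN jj (cl R NN jj A) := by
  intro s hs hN
  unfold cl
  rw [Finset.mem_filter]
  refine ⟨(S.hj s (hs.trans (cl_sub A)) hN).1, ?_⟩
  intro C hC hcl hAC
  exact hcl s (hs.trans (cl_min hC hcl hAC)) hN

lemma cl_sub_cl (S : Sys R NN jj Bnd cU n cR) {A B : Finset α} (h : A ⊆ cl R NN jj B) :
    cl R NN jj A ⊆ cl R NN jj B := cl_min (cl_sub B) (S.cl_cld B) h

lemma cl_mono (S : Sys R NN jj Bnd cU n cR) {A B : Finset α} (hB : B ⊆ R) (h : A ⊆ B) :
    cl R NN jj A ⊆ cl R NN jj B := S.cl_sub_cl (h.trans (sub_cl hB))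

lemma clos (S : Sys R NN jj Bnd cU n cR) : ∀ (d : ℕ) (A : Finset α), A ⊆ R →
    (cl R NN jj A).card - A.card = d → ∀ N : ℝ, 0 ≤ N → Bnd (cl R NN jj A) N →
    Bnd A (cU ^ d * N)
  | 0, A, hA, hd, N, hN, hB => by
      have h1 : A = cl R NN jj A := Finset.eq_of_subset_of_card_le (sub_cl hA) (by omega)
      rw [pow_zero, one_mul]
      rw [← h1] at hB
      exact hB
  | (d+1), A, hA, hd, N, hN, hB => by
      have h1 : ¬ Cld NN jj A := by
        intro hc
        have := Finset.card_le_card (cl_min hA hc subset_rfl)
        omega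
      unfold Cld at h1
      push Not at h1
      obtain ⟨s, hs, hNs, hjs⟩ := h1
      have hjR := S.hj s (hs.trans hA) hNs
      have hA' : insert (jj s) A ⊆ R := Finset.insert_subset hjR.1 hA
      have hcl : cl R NN jj (insert (jj s) A) = cl R NN jj A := by
        apply subset_antisymm
        · apply S.cl_sub_cl
          apply Finset.insert_subset _ (sub_cl hA)
          exact S.cl_cld A s (hs.trans (sub_cl hA)) hNs
        · exact S.cl_mono hA' (Finset.subset_insert _ _)
      have hcard : (insert (jj s) A).card = A.card + 1 := Finset.card_insert_of_notMem hjs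
      have := clos S d (insert (jj s) A) hA' (by rw [hcl, hcard]; omega) N hN (by rw [hcl]; exact hB)
      have h2 := S.rU s A _ hNs hs hA (mul_nonneg (pow_nonneg S.cU0 d) hN) this
      rw [pow_succ]
      convert h2 using 1
      ring

lemma gen (S : Sys R NN jj Bnd cU n cR) {A : Finset α} (hA : A ⊆ R)
    (h : cl R NN jj A = R) : Bnd A (cU ^ (R.card - A.card)) := by
  have := S.clos _ A hA rfl 1 zero_le_one (by rw [h]; exact S.r1)
  rwa [h, mul_one] at this

lemma free (S : Sys R NN jj Bnd cU n cR) (B : Finset α) : B ⊆ R → ∀ A : Finset α, A ⊆ R →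
    ∀ N : ℝ, 0 ≤ N → Bnd (A ∪ B) N → Bnd A (n ^ B.card * N) := by
  induction B using Finset.induction_on with
  | empty => intro _ A _ N _ h; simpa using h
  | insert b B hb ih =>
    intro hB A hA N hN h
    rw [Finset.card_insert_of_notMem hb]
    have hbR : b ∈ R := hB (Finset.mem_insert_self _ _)
    have hBR : B ⊆ R := (Finset.subset_insert _ _).trans hB
    have h1 : Bnd (insert b A ∪ B) N := by
      convert h using 1
      ext x; simp only [Finset.mem_union, Finset.mem_insert]; tauto
    have h2 := ih hBR (insert b A) (Finset.insert_subset hbR hA) N hN h1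
    have h3 := S.rF b A _ hbR hA (mul_nonneg (pow_nonneg S.n0 _) hN) h2
    convert h3 using 1
    ring

lemma chain (S : Sys R NN jj Bnd cU n cR) {v : α} (hv : v ∈ R) :
    ∃ s, v ∈ s ∧ NN s ∧ ¬ NN (insert (jj s) s) ∧ insert (jj s) s ⊆ cl R NN jj {v} ∧
      ∀ A, A ⊆ R → ∀ N : ℝ, 0 ≤ N → Bnd (A ∪ s) N → Bnd (insert v A) (cU ^ (s.card - 1) * N) := by
  have key : ∀ (d : ℕ) (t : Finset α), R.card - t.card = d → v ∈ t → NN t → t ⊆ cl R NN jj {v} →
      (∀ A, A ⊆ R → ∀ N : ℝ, 0 ≤ N → Bnd (A ∪ t) N → Bnd (insert v A) (cU ^ (t.card - 1) * N)) →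
      ∃ s, v ∈ s ∧ NN s ∧ ¬ NN (insert (jj s) s) ∧ insert (jj s) s ⊆ cl R NN jj {v} ∧
      ∀ A, A ⊆ R → ∀ N : ℝ, 0 ≤ N → Bnd (A ∪ s) N → Bnd (insert v A) (cU ^ (s.card - 1) * N) := by
    intro d
    induction d with
    | zero =>
      intro t hd _ hN ht _
      have h1 : t = R := Finset.eq_of_subset_of_card_le (ht.trans (cl_sub _)) (by omega)
      rw [h1] at hN
      exact absurd hN S.hR
    | succ d ih =>
      intro t hd hvt hN ht hA
      have hjt := S.cl_cld {v} t ht hN
      have hj := S.hj t (ht.trans (cl_sub _)) hN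
      have hcard : (insert (jj t) t).card = t.card + 1 := Finset.card_insert_of_notMem hj.2
      have hsub : insert (jj t) t ⊆ cl R NN jj {v} := Finset.insert_subset hjt ht
      by_cases hN' : NN (insert (jj t) t)
      · apply ih (insert (jj t) t) (by rw [hcard]; omega) (Finset.mem_insert_of_mem hvt) hN' hsub
        intro A hAR N hN0 hB
        have hu : A ∪ t ⊆ R := Finset.union_subset hAR (ht.trans (cl_sub _))
        have h1 : Bnd (insert (jj t) (A ∪ t)) N := by
          convert hB using 1
          ext x; simp only [Finset.mem_union, Finset.mem_insert]; tauto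
        have h2 := S.rU t (A ∪ t) N hN Finset.subset_union_right hu hN0 h1
        have h3 := hA A hAR _ (mul_nonneg S.cU0 hN0) h2
        have hpos : 0 < t.card := Finset.card_pos.mpr ⟨v, hvt⟩
        rw [hcard]
        convert h3 using 1
        obtain ⟨c, hc⟩ : ∃ c, t.card = c + 1 := ⟨t.card - 1, by omega⟩
        rw [hc]
        simp only [Nat.add_sub_cancel]
        ring
      · exact ⟨t, hvt, hN, hN', hsub, hA⟩
  refine key _ {v} rfl (Finset.mem_singleton_self v) (S.h1 v hv)
    (sub_cl (Finset.singleton_subset_iff.mpr hv)) ?_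
  intro A hA N hN hB
  simp only [Finset.card_singleton, Nat.sub_self, pow_zero, one_mul]
  convert hB using 1
  ext x; simp only [Finset.mem_union, Finset.mem_insert, Finset.mem_singleton]; tauto

theorem main (S : Sys R NN jj Bnd cU n cR) (hRne : R.Nonempty) :
    Bnd ∅ (n * cU ^ (R.card - 1)) ∨ ∃ τ q, 2 ≤ τ ∧ τ + 2 ≤ R.card ∧ 2 ≤ q ∧ τ - 1 ≤ q ∧
      q + 2 ≤ R.card ∧ Bnd ∅ (n ^ τ * cU ^ (R.card - τ - 1) * cR q) := by
  -- minimal generating set
  have hne : (R.powerset.filter (fun A => cl R NN jj A = R)).Nonempty := by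
    refine ⟨R, ?_⟩
    rw [Finset.mem_filter]
    exact ⟨Finset.mem_powerset.mpr subset_rfl,
      subset_antisymm (cl_sub _) (sub_cl subset_rfl)⟩
  obtain ⟨G, hG, hmin⟩ := Finset.exists_min_image _ (fun A => A.card) hne
  rw [Finset.mem_filter, Finset.mem_powerset] at hG
  obtain ⟨hGR, hGcl⟩ := hG
  have hmin' : ∀ A, A ⊆ R → cl R NN jj A = R → G.card ≤ A.card := by
    intro A hA hc
    exact hmin A (Finset.mem_filter.mpr ⟨Finset.mem_powerset.mpr hA, hc⟩)
  have hM : 0 < R.card := Finset.card_pos.mpr hRne
  rcases Nat.lt_or_ge G.card 2 with hτ | hτ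
  · -- τ ≤ 1
    left
    rcases Nat.eq_zero_or_pos G.card with h0 | h1
    · exfalso
      rw [Finset.card_eq_zero] at h0
      subst h0
      have hc : Cld NN jj ∅ := by
        intro s hs hN
        rw [Finset.subset_empty] at hs
        subst hs
        exact absurd hN S.h0
      have := cl_min (R := R) (Finset.empty_subset R) hc (subset_rfl : (∅ : Finset α) ⊆ ∅)
      rw [hGcl, Finset.subset_empty] at this
      rw [this] at hRne
      exact Finset.not_nonempty_empty hRne
    · obtain ⟨v, hv⟩ := Finset.card_eq_one.mp (show G.card = 1 by omega)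
      subst hv
      have hvR : v ∈ R := hGR (Finset.mem_singleton_self v)
      have h2 := S.gen hGR hGcl
      rw [Finset.card_singleton] at h2
      have h3 := S.rF v ∅ _ hvR (Finset.empty_subset _) (pow_nonneg S.cU0 _) h2
      exact h3
  · right
    -- (i)
    have hi : ∀ v ∈ R, G.card - 1 + (cl R NN jj {v}).card ≤ R.card := by
      intro v hv
      have hsub : insert v (R \ cl R NN jj {v}) ⊆ R :=
        Finset.insert_subset hv Finset.sdiff_subset
      have hgen : cl R NN jj (insert v (R \ cl R NN jj {v})) = R := by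
        apply subset_antisymm (cl_sub _)
        intro x hx
        by_cases hxc : x ∈ cl R NN jj {v}
        · exact S.cl_mono hsub (Finset.singleton_subset_iff.mpr (Finset.mem_insert_self _ _)) hxc
        · exact sub_cl hsub (Finset.mem_insert_of_mem (Finset.mem_sdiff.mpr ⟨hx, hxc⟩))
      have h1 := hmin' _ hsub hgen
      have h2 := Finset.card_insert_le v (R \ cl R NN jj {v})
      have h3 : (R \ cl R NN jj {v}).card = R.card - (cl R NN jj {v}).card :=
        Finset.card_sdiff_of_subset (cl_sub _)
      have h4 := Finset.card_le_card (cl_sub (R := R) (NN := NN) (jj := jj) {v})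
      omega
    -- (ii)
    have hii : ∀ v ∈ G, ∀ v' ∈ G, v' ≠ v → v' ∉ cl R NN jj {v} := by
      intro v hv v' hv' hne hmem
      have hsub : G.erase v' ⊆ R := (Finset.erase_subset _ _).trans hGR
      have hvG : v ∈ G.erase v' := Finset.mem_erase.mpr ⟨hne.symm, hv⟩
      have hgen : cl R NN jj (G.erase v') = R := by
        apply subset_antisymm (cl_sub _)
        have : cl R NN jj G ⊆ cl R NN jj (G.erase v') := by
          apply S.cl_sub_cl
          intro x hx
          by_cases hxv : x = v'
          · subst hxv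
            exact S.cl_mono hsub (Finset.singleton_subset_iff.mpr hvG) hmem
          · exact sub_cl hsub (Finset.mem_erase.mpr ⟨hxv, hx⟩)
        rw [hGcl] at this
        exact this
      have h1 := hmin' _ hsub hgen
      rw [Finset.card_erase_of_mem hv'] at h1
      omega
    -- j {v} for v ∈ G
    have hjv : ∀ v ∈ G, jj {v} ∈ R ∧ jj {v} ≠ v ∧ jj {v} ∈ cl R NN jj {v} ∧ jj {v} ∉ G := by
      intro v hv
      have h1 := S.hj {v} (Finset.singleton_subset_iff.mpr (hGR hv)) (S.h1 v (hGR hv))
      have h2 : jj {v} ≠ v := by simpa using h1.2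
      have h3 : jj {v} ∈ cl R NN jj {v} :=
        S.cl_cld {v} {v} (sub_cl (Finset.singleton_subset_iff.mpr (hGR hv))) (S.h1 v (hGR hv))
      refine ⟨h1.1, h2, h3, ?_⟩
      intro h4
      exact hii v hv _ h4 h2 h3
    obtain ⟨v0, hv0⟩ : G.Nonempty := Finset.card_pos.mp (by omega)
    have hG1 : G.card + 1 ≤ R.card := by
      have h1 := hjv v0 hv0
      have h2 : insert (jj {v0}) G ⊆ R := Finset.insert_subset h1.1 hGR
      have h3 := Finset.card_le_card h2
      rw [Finset.card_insert_of_notMem h1.2.2.2] at h3
      exact h3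
    -- (iii)
    have hG2 : G.card + 2 ≤ R.card := by
      by_contra hcon
      have hRG : R = insert (jj {v0}) G := by
        symm
        apply Finset.eq_of_subset_of_card_le (Finset.insert_subset (hjv v0 hv0).1 hGR)
        rw [Finset.card_insert_of_notMem (hjv v0 hv0).2.2.2]
        omega
      set o := jj {v0} with ho
      have hoR : o ∈ R := (hjv v0 hv0).1
      have hoG : o ∉ G := (hjv v0 hv0).2.2.2
      have hjo := S.hj {o} (Finset.singleton_subset_iff.mpr hoR) (S.h1 o hoR)
      have hjoG : jj {o} ∈ G := by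
        have h1 := hjo.1
        rw [hRG, Finset.mem_insert] at h1
        rcases h1 with h1 | h1
        · exfalso; apply hjo.2; rw [Finset.mem_singleton]; exact h1
        · exact h1
      obtain ⟨v, hvG, hvne⟩ : ∃ v ∈ G, v ≠ jj {o} := by
        by_contra hall
        push Not at hall
        have : G ⊆ {jj {o}} := by
          intro x hx
          rw [Finset.mem_singleton]
          exact hall x hx
        have := Finset.card_le_card this
        rw [Finset.card_singleton] at this
        omega
      have hjvo : jj {v} = o := by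
        have h1 := (hjv v hvG).1
        rw [hRG, Finset.mem_insert] at h1
        rcases h1 with h1 | h1
        · exact h1
        · exact absurd h1 (hjv v hvG).2.2.2
      have hocl : o ∈ cl R NN jj {v} := by
        rw [← hjvo]; exact (hjv v hvG).2.2.1
      have : jj {o} ∈ cl R NN jj {v} :=
        S.cl_cld {v} {o} (Finset.singleton_subset_iff.mpr hocl) (S.h1 o hoR)
      exact hii v hvG _ hjoG hvne.symm this
    -- process from `v ∈ G`
    have hproc : ∀ v ∈ G, ∃ q, (cl R NN jj {v}).card + q ≥ R.card ∧ q + 2 ≤ R.card ∧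
        Bnd ∅ (n ^ G.card * cU ^ (R.card - G.card - 1) * cR q) := by
      intro v hv
      have hvR := hGR hv
      obtain ⟨s, hvs, hNs, hNs', hsub, hch⟩ := S.chain hvR
      have hsR : insert (jj s) s ⊆ R := hsub.trans (cl_sub _)
      have hsR' : s ⊆ R := (Finset.subset_insert _ _).trans hsR
      have hj := S.hj s hsR' hNs
      have hcs : (insert (jj s) s).card = s.card + 1 := Finset.card_insert_of_notMem hj.2
      have hle := Finset.card_le_card hsub
      rw [hcs] at hle
      have hspos : 0 < s.card := Finset.card_pos.mpr ⟨v, hvs⟩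
      have hsne : s.card ≠ R.card := by
        intro h
        have : s = R := Finset.eq_of_subset_of_card_le hsR' (by omega)
        rw [this] at hNs
        exact S.hR hNs
      have hsle := Finset.card_le_card hsR
      rw [hcs] at hsle
      refine ⟨R.card - s.card - 1, by omega, by omega, ?_⟩
      -- generation
      have hdisj : Disjoint (insert (jj s) s) (G.erase v) := by
        rw [Finset.disjoint_left]
        intro x hx hx2
        rw [Finset.mem_erase] at hx2
        exact hii v hv x hx2.2 hx2.1 (hsub hx)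
      have hA1 : insert (jj s) s ∪ G.erase v ⊆ R :=
        Finset.union_subset hsR ((Finset.erase_subset _ _).trans hGR)
      have hGsub : G ⊆ insert (jj s) s ∪ G.erase v := by
        intro x hx
        by_cases hxv : x = v
        · subst hxv
          exact Finset.mem_union_left _ (Finset.mem_insert_of_mem hvs)
        · exact Finset.mem_union_right _ (Finset.mem_erase.mpr ⟨hxv, hx⟩)
      have hgen : cl R NN jj (insert (jj s) s ∪ G.erase v) = R := by
        apply subset_antisymm (cl_sub _)
        have := S.cl_mono hA1 hGsub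
        rwa [hGcl] at this
      have hb1 := S.gen hA1 hgen
      have hcard1 : (insert (jj s) s ∪ G.erase v).card = s.card + G.card := by
        rw [Finset.card_union_of_disjoint hdisj, hcs, Finset.card_erase_of_mem hv]
        omega
      rw [hcard1] at hb1
      have hb2 := S.free (G.erase v) ((Finset.erase_subset _ _).trans hGR) _ hsR _
        (pow_nonneg S.cU0 _) hb1
      rw [Finset.card_erase_of_mem hv] at hb2
      have hb2n : 0 ≤ n ^ (G.card - 1) * cU ^ (R.card - (s.card + G.card)) :=
        mul_nonneg (pow_nonneg S.n0 _) (pow_nonneg S.cU0 _)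
      have hb3 := S.rR s s _ hNs hNs' subset_rfl hsR' hb2n hb2
      have hb3' : Bnd (∅ ∪ s) (cR (R.card - s.card - 1) *
        (n ^ (G.card - 1) * cU ^ (R.card - (s.card + G.card)))) := by
        rwa [Finset.empty_union]
      have hb4 := hch ∅ (Finset.empty_subset _) _ (mul_nonneg (S.cR0 _) hb2n) hb3'
      have hb5 := S.rF v ∅ _ hvR (Finset.empty_subset _)
        (mul_nonneg (pow_nonneg S.cU0 _) (mul_nonneg (S.cR0 _) hb2n)) hb4
      convert hb5 using 1
      have he1 : n ^ G.card = n * n ^ (G.card - 1) := by
        rw [← pow_succ']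
        congr 1
        omega
      have hle2 : s.card + G.card ≤ R.card := by
        rw [← hcard1]; exact Finset.card_le_card hA1
      have he2 : R.card - G.card - 1 = (s.card - 1) + (R.card - (s.card + G.card)) := by omega
      rw [he2, pow_add, he1]
      ring
    by_cases h3 : 3 ≤ G.card
    · obtain ⟨q, hq1, hq2, hq3⟩ := hproc v0 hv0
      have := hi v0 (hGR hv0)
      exact ⟨G.card, q, hτ, hG2, by omega, by omega, hq2, hq3⟩
    · have hG2' : G.card = 2 := by omega
      -- either some v ∈ G has small closure, or special case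
      by_cases hex : ∃ v ∈ G, (cl R NN jj {v}).card + 2 ≤ R.card
      · obtain ⟨v, hv, hvc⟩ := hex
        obtain ⟨q, hq1, hq2, hq3⟩ := hproc v hv
        exact ⟨G.card, q, hτ, hG2, by omega, by omega, hq2, hq3⟩
      · push Not at hex
        obtain ⟨a, b, hab, hGab⟩ := Finset.card_eq_two.mp hG2'
        have haG : a ∈ G := by rw [hGab]; simp
        have hbG : b ∈ G := by rw [hGab]; simp
        have hclb : cl R NN jj {b} = R.erase a := by
          apply Finset.eq_of_subset_of_card_le
          · intro x hx
            rw [Finset.mem_erase]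
            refine ⟨?_, cl_sub _ hx⟩
            rintro rfl
            exact hii b hbG x haG hab hx
          · rw [Finset.card_erase_of_mem (hGR haG)]
            have := hex b hbG
            omega
        set v := jj {a} with hv
        obtain ⟨hvR, hva, hvcl, hvG⟩ := hjv a haG
        rw [← hv] at hvR hva hvcl hvG
        have hcla : cl R NN jj {v} ⊆ cl R NN jj {a} :=
          S.cl_sub_cl (Finset.singleton_subset_iff.mpr hvcl)
        have hclb' : cl R NN jj {v} ⊆ cl R NN jj {b} := by
          apply S.cl_sub_cl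
          rw [Finset.singleton_subset_iff, hclb, Finset.mem_erase]
          exact ⟨hva, hvR⟩
        have hbn : b ∉ cl R NN jj {v} := fun h => hii a haG b hbG hab.symm (hcla h)
        have han : a ∉ cl R NN jj {v} := fun h => hii b hbG a haG hab (hclb' h)
        obtain ⟨s, hvs, hNs, hNs', hsub, hch⟩ := S.chain hvR
        have hsR : insert (jj s) s ⊆ R := hsub.trans (cl_sub _)
        have hsR' : s ⊆ R := (Finset.subset_insert _ _).trans hsR
        have hj := S.hj s hsR' hNs
        have hcs : (insert (jj s) s).card = s.card + 1 := Finset.card_insert_of_notMem hj.2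
        have hspos : 0 < s.card := Finset.card_pos.mpr ⟨v, hvs⟩
        have hdisj : Disjoint (insert (jj s) s) {a, b} := by
          rw [Finset.disjoint_left]
          intro x hx hx2
          rw [Finset.mem_insert, Finset.mem_singleton] at hx2
          rcases hx2 with rfl | rfl
          · exact han (hsub hx)
          · exact hbn (hsub hx)
        have hA1 : insert (jj s) s ∪ {a, b} ⊆ R := by
          apply Finset.union_subset hsR
          rw [← hGab]; exact hGR
        have hcard1 : (insert (jj s) s ∪ {a, b}).card = s.card + 3 := by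
          rw [Finset.card_union_of_disjoint hdisj, hcs, Finset.card_pair hab]
        have hle2 := Finset.card_le_card hA1
        rw [hcard1] at hle2
        have hgen : cl R NN jj (insert (jj s) s ∪ {a, b}) = R := by
          apply subset_antisymm (cl_sub _)
          have := S.cl_mono hA1 (show G ⊆ insert (jj s) s ∪ {a, b} by
            rw [← hGab]; exact Finset.subset_union_right)
          rwa [hGcl] at this
        have hb1 := S.gen hA1 hgen
        rw [hcard1] at hb1
        have hset1 : insert (jj s) s ∪ {a, b} = (insert a (insert (jj s) s)) ∪ {b} := by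
          ext x
          simp only [Finset.mem_union, Finset.mem_insert, Finset.mem_singleton]; tauto
        have haR : a ∈ R := hGR haG
        have hbR : b ∈ R := hGR hbG
        rw [hset1] at hb1
        have hb2 := S.free {b} (Finset.singleton_subset_iff.mpr hbR)
          (insert a (insert (jj s) s)) (Finset.insert_subset haR hsR) _
          (pow_nonneg S.cU0 _) hb1
        rw [Finset.card_singleton, pow_one] at hb2
        have hb2n : 0 ≤ n * cU ^ (R.card - (s.card + 3)) :=
          mul_nonneg S.n0 (pow_nonneg S.cU0 _)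
        have hb2' : Bnd (insert (jj s) (insert a s)) (n * cU ^ (R.card - (s.card + 3))) := by
          rw [Finset.insert_comm]; exact hb2
        have hb3 := S.rR s (insert a s) _ hNs hNs' (Finset.subset_insert _ _)
          (Finset.insert_subset haR hsR') hb2n hb2'
        have hb3' : Bnd ({a} ∪ s) (cR (R.card - s.card - 1) *
          (n * cU ^ (R.card - (s.card + 3)))) := by
          rw [← Finset.insert_eq]; exact hb3
        have hb4 := hch {a} (Finset.singleton_subset_iff.mpr haR) _
          (mul_nonneg (S.cR0 _) hb2n) hb3'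
        have hb4n : 0 ≤ cU ^ (s.card - 1) * (cR (R.card - s.card - 1) *
          (n * cU ^ (R.card - (s.card + 3)))) :=
          mul_nonneg (pow_nonneg S.cU0 _) (mul_nonneg (S.cR0 _) hb2n)
        have hb5 := S.rU {a} {a} _ (S.h1 a haR) subset_rfl (Finset.singleton_subset_iff.mpr haR)
          hb4n hb4
        have hb6 := S.rF a ∅ _ haR (Finset.empty_subset _) (mul_nonneg S.cU0 hb4n)
          (by rw [← Finset.insert_eq_of_mem (Finset.mem_singleton_self a)] at hb5; simpa using hb5)
        refine ⟨2, R.card - s.card - 1, le_rfl, by omega, by omega, by omega, by omega, ?_⟩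
        convert hb6 using 1
        have he2 : R.card - 2 - 1 = (s.card - 1) + (R.card - (s.card + 3)) + 1 := by omega
        rw [he2, pow_add, pow_add]
        ring

end Sys

end Pool.Agent.H20
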