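import Mathlib

set_option autoImplicit false

/-!
Definitions for the unavoidable hypergraph problem MP_973f56_co.

Branching numbers `a j` (`j` = number of remaining levels), forks (disjoint generalized stars),
robustness.
-/

open scoped Classical
open Finset

namespace Pool.Agent.H20

variable {r n : ℕ}

/-- product of branching numbers of levels `t ≤ j < T` -/
def E (a : ℕ → ℕ) (T t : ℕ) : ℕ := ∏ j ∈ Finset.Ico t T, a j

/-- product of the first `m` branching numbers -/
def P (a : ℕ → ℕ) (m : ℕ) : ℕ := ∏ j ∈ Finset.range m, a j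

/-- link of the vertex `w` at coordinate `i` -/
noncomputable def lk (L : Finset (Fin r → Fin n)) (i : Fin r) (w : Fin n) :
    Finset (Fin r → Fin n) := L.filter (fun f => f i = w)

/-- A fork with level order `π` in `L` with vertex set `U`. -/
def Fork (a : ℕ → ℕ) : List (Fin r) → Finset (Fin r → Fin n) → (Fin r → Finset (Fin n)) → Prop
  | [], L, U => L.Nonempty ∧ U = fun _ => ∅
  | (i :: π), L, U => ∃ u : ℕ → Fin r → Finset (Fin n),
      (∀ k < a π.length, ∃ w U', Fork a π (lk L i w) U' ∧ u k = Function.update U' i {w}) ∧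
      (∀ k < a π.length, ∀ l < a π.length, k ≠ l → ∀ j, Disjoint (u k j) (u l j)) ∧
      U = fun j => (Finset.range (a π.length)).biUnion (fun k => u k j)

/-- A single-root star. -/
def One (a : ℕ → ℕ) : List (Fin r) → Finset (Fin r → Fin n) → (Fin r → Finset (Fin n)) → Prop
  | [], _, _ => False
  | (i :: π), L, U => ∃ w U', Fork a π (lk L i w) U' ∧ U = Function.update U' i {w}

/-- Size condition for forbidden vertex sets. -/
def SizeOK (a : ℕ → ℕ) (T C : ℕ) : List (Fin r) → (Fin r → Finset (Fin n)) → Prop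
  | [], _ => True
  | (i :: π), Z => (Z i).card ≤ C * E a T π.length ∧ SizeOK a T C π Z

/-- `U` avoids `Z` and its leaf level avoids `Hi`. -/
def Av (Hi : Fin r → Finset (Fin n)) : List (Fin r) → (Fin r → Finset (Fin n)) →
    (Fin r → Finset (Fin n)) → Prop
  | [], _, _ => True
  | (i :: π), Z, U => Disjoint (U i) (Z i) ∧ (π = [] → Disjoint (U i) (Hi i)) ∧ Av Hi π Z U

/-- `π` is an order of `R`. -/
def Ord (R : Finset (Fin r)) (π : List (Fin r)) : Prop := π.Nodup ∧ π.toFinset = R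

def Robust (a : ℕ → ℕ) (T C : ℕ) (Hi : Fin r → Finset (Fin n)) (π : List (Fin r))
    (L : Finset (Fin r → Fin n)) : Prop :=
  ∀ Z, SizeOK a T C π Z → ∃ U, Fork a π L U ∧ Av Hi π Z U

/-- not robust for every order. -/
def NR (a : ℕ → ℕ) (T C : ℕ) (Hi : Fin r → Finset (Fin n)) (R : Finset (Fin r))
    (L : Finset (Fin r → Fin n)) : Prop :=
  ∀ π, Ord R π → ¬ Robust a T C Hi π L

/-- `L` is determined by its coordinates in `R`. -/
def Det (R : Finset (Fin r)) (L : Finset (Fin r → Fin n)) : Prop :=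
  ∀ f ∈ L, ∀ g ∈ L, (∀ i ∈ R, f i = g i) → f = g

/-! ### basic facts on E and P -/

lemma P_zero (a : ℕ → ℕ) : P a 0 = 1 := by simp [P]

lemma P_succ (a : ℕ → ℕ) (m : ℕ) : P a (m+1) = P a m * a m := by
  simp [P, Finset.prod_range_succ]

lemma E_self (a : ℕ → ℕ) (T : ℕ) : E a T T = 1 := by simp [E]

lemma E_zero (a : ℕ → ℕ) (T : ℕ) : E a T 0 = P a T := by
  unfold E P
  rw [Finset.range_eq_Ico]

lemma E_succ (a : ℕ → ℕ) {T t : ℕ} (h : t ≤ T) : E a (T+1) t = E a T t * a T := by
  simp [E, Finset.prod_Ico_succ_top h]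

lemma E_mul_P (a : ℕ → ℕ) {T t : ℕ} (h : t ≤ T) : E a T t * P a t = P a T := by
  unfold E P
  rw [mul_comm]
  exact Finset.prod_range_mul_prod_Ico a h

lemma E_mul_E (a : ℕ → ℕ) {t s T : ℕ} (h1 : t ≤ s) (h2 : s ≤ T) : E a s t * E a T s = E a T t := by
  unfold E
  exact Finset.prod_Ico_consecutive a h1 h2

lemma P_pos {a : ℕ → ℕ} {m : ℕ} (ha : ∀ j < m, 1 ≤ a j) : 1 ≤ P a m := by
  unfold P
  apply Nat.one_le_iff_ne_zero.mpr
  rw [Finset.prod_ne_zero_iff]
  intro j hj
  have := ha j (Finset.mem_range.mp hj)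
  omega

lemma E_pos {a : ℕ → ℕ} {t T : ℕ} (ha : ∀ j < T, 1 ≤ a j) : 1 ≤ E a T t := by
  unfold E
  apply Nat.one_le_iff_ne_zero.mpr
  rw [Finset.prod_ne_zero_iff]
  intro j hj
  have := ha j (Finset.mem_Ico.mp hj).2
  omega

lemma E_mono_right {a : ℕ → ℕ} {t T T' : ℕ} (ha : ∀ j < T', 1 ≤ a j) (h1 : t ≤ T) (h : T ≤ T') :
    E a T t ≤ E a T' t := by
  rw [← E_mul_E a h1 h]
  exact Nat.le_mul_of_pos_right _ (E_pos ha)

lemma E_anti_left {a : ℕ → ℕ} {t t' T : ℕ} (ha : ∀ j < T, 1 ≤ a j) (h1 : t ≤ t') (h : t' ≤ T) :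
    E a T t' ≤ E a T t := by
  rw [← E_mul_E a h1 h]
  exact Nat.le_mul_of_pos_left _ (E_pos (fun j hj => ha j (by omega)))

lemma P_mono {a : ℕ → ℕ} {m m' : ℕ} (ha : ∀ j < m', 1 ≤ a j) (h : m ≤ m') : P a m ≤ P a m' := by
  rw [← E_mul_P a h]
  exact Nat.le_mul_of_pos_left _ (E_pos ha)

lemma E_le_P {a : ℕ → ℕ} {t T : ℕ} (ha : ∀ j < T, 1 ≤ a j) (h : t ≤ T) : E a T t ≤ P a T := by
  rw [← E_mul_P a h]
  exact Nat.le_mul_of_pos_right _ (P_pos (fun j hj => ha j (by omega)))

/-! ### links -/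

lemma mem_lk {L : Finset (Fin r → Fin n)} {i : Fin r} {w : Fin n} {f : Fin r → Fin n} :
    f ∈ lk L i w ↔ f ∈ L ∧ f i = w := by simp [lk]

lemma lk_sub (L : Finset (Fin r → Fin n)) (i : Fin r) (w : Fin n) : lk L i w ⊆ L :=
  Finset.filter_subset _ _

lemma lk_mono {L L' : Finset (Fin r → Fin n)} (h : L ⊆ L') (i : Fin r) (w : Fin n) :
    lk L i w ⊆ lk L' i w := Finset.filter_subset_filter _ h

/-! ### basic facts on forks -/

lemma Fork.mono {a : ℕ → ℕ} : ∀ {π : List (Fin r)} {L L' : Finset (Fin r → Fin n)}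
    {U : Fin r → Finset (Fin n)}, L ⊆ L' → Fork a π L U → Fork a π L' U
  | [], _, _, _, h, hF => ⟨hF.1.mono h, hF.2⟩
  | (i :: π), L, L', U, h, hF => by
      obtain ⟨u, h1, h2, h3⟩ := hF
      refine ⟨u, ?_, h2, h3⟩
      intro k hk
      obtain ⟨w, U', hU', hu⟩ := h1 k hk
      exact ⟨w, U', Fork.mono (lk_mono h i w) hU', hu⟩

lemma One.mono {a : ℕ → ℕ} : ∀ {π : List (Fin r)} {L L' : Finset (Fin r → Fin n)}
    {U : Fin r → Finset (Fin n)}, L ⊆ L' → One a π L U → One a π L' U
  | [], _, _, _, _, hF => hF.elim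
  | (i :: π), L, L', U, h, hF => by
      obtain ⟨w, U', hU', hu⟩ := hF
      exact ⟨w, U', Fork.mono (lk_mono h i w) hU', hu⟩

lemma fork_cons_iff {a : ℕ → ℕ} {i : Fin r} {π : List (Fin r)} {L : Finset (Fin r → Fin n)}
    {U : Fin r → Finset (Fin n)} : Fork a (i :: π) L U ↔ ∃ u : ℕ → Fin r → Finset (Fin n),
      (∀ k < a π.length, One a (i :: π) L (u k)) ∧
      (∀ k < a π.length, ∀ l < a π.length, k ≠ l → ∀ j, Disjoint (u k j) (u l j)) ∧
      U = fun j => (Finset.range (a π.length)).biUnion (fun k => u k j) := Iff.rfl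

/-- a fork only uses coordinates in π -/
lemma Fork.empty_of_notMem {a : ℕ → ℕ} : ∀ {π : List (Fin r)} {L : Finset (Fin r → Fin n)}
    {U : Fin r → Finset (Fin n)}, Fork a π L U → ∀ j, j ∉ π → U j = ∅
  | [], L, U, hF, j, _ => by rw [hF.2]
  | (i :: π), L, U, hF, j, hj => by
      obtain ⟨u, h1, h2, h3⟩ := hF
      subst h3
      simp only [List.mem_cons, not_or] at hj
      rw [Finset.eq_empty_iff_forall_notMem]
      intro v hv
      rw [Finset.mem_biUnion] at hv
      obtain ⟨k, hk, hv⟩ := hv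
      obtain ⟨w, U', hU', hu⟩ := h1 k (Finset.mem_range.mp hk)
      rw [hu, Function.update_of_ne hj.1, Fork.empty_of_notMem hU' j hj.2] at hv
      simp at hv

lemma One.empty_of_notMem {a : ℕ → ℕ} : ∀ {π : List (Fin r)} {L : Finset (Fin r → Fin n)}
    {U : Fin r → Finset (Fin n)}, One a π L U → ∀ j, j ∉ π → U j = ∅
  | [], L, U, hF, j, _ => hF.elim
  | (i :: π), L, U, hF, j, hj => by
      obtain ⟨w, U', hU', hu⟩ := hF
      simp only [List.mem_cons, not_or] at hj
      rw [hu, Function.update_of_ne hj.1]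
      exact Fork.empty_of_notMem hU' j hj.2

/-- all vertices of a fork are vertices of edges of L -/
lemma Fork.mem_val {a : ℕ → ℕ} : ∀ {π : List (Fin r)} {L : Finset (Fin r → Fin n)}
    {U : Fin r → Finset (Fin n)}, Fork a π L U → (∀ j < π.length, 1 ≤ a j) →
    L.Nonempty ∧ ∀ j, ∀ v ∈ U j, ∃ f ∈ L, f j = v
  | [], L, U, hF, ha => by
      refine ⟨hF.1, ?_⟩
      intro j v hv
      rw [hF.2] at hv
      simp at hv
  | (i :: π), L, U, hF, ha => by
      obtain ⟨u, h1, h2, h3⟩ := hF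
      subst h3
      have ha' : ∀ j < π.length, 1 ≤ a j := fun j hj => ha j (by simp; omega)
      constructor
      · obtain ⟨w, U', hU', hu⟩ := h1 0 (ha π.length (by simp))
        obtain ⟨hne, -⟩ := Fork.mem_val hU' ha'
        exact hne.mono (lk_sub _ _ _)
      · intro j v hv
        rw [Finset.mem_biUnion] at hv
        obtain ⟨k, hk, hv⟩ := hv
        obtain ⟨w, U', hU', hu⟩ := h1 k (Finset.mem_range.mp hk)
        obtain ⟨hne, hval⟩ := Fork.mem_val hU' ha'
        rw [hu] at hv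
        by_cases hji : j = i
        · subst hji
          rw [Function.update_self, Finset.mem_singleton] at hv
          obtain ⟨f, hf⟩ := hne
          rw [mem_lk] at hf
          exact ⟨f, hf.1, by rw [hf.2, hv]⟩
        · rw [Function.update_of_ne hji] at hv
          obtain ⟨f, hf, hfj⟩ := hval j v hv
          exact ⟨f, lk_sub _ _ _ hf, hfj⟩

lemma One.mem_val {a : ℕ → ℕ} : ∀ {π : List (Fin r)} {L : Finset (Fin r → Fin n)}
    {U : Fin r → Finset (Fin n)}, One a π L U → (∀ j < π.length, 1 ≤ a j) →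
    ∀ j, ∀ v ∈ U j, ∃ f ∈ L, f j = v
  | [], L, U, hF, ha => hF.elim
  | (i :: π), L, U, hF, ha => by
      obtain ⟨w, U', hU', hu⟩ := hF
      have ha' : ∀ j < π.length, 1 ≤ a j := fun j hj => ha j (by simp; omega)
      intro j v hv
      obtain ⟨hne, hval⟩ := Fork.mem_val hU' ha'
      rw [hu] at hv
      by_cases hji : j = i
      · subst hji
        rw [Function.update_self, Finset.mem_singleton] at hv
        obtain ⟨f, hf⟩ := hne
        rw [mem_lk] at hf
        exact ⟨f, hf.1, by rw [hf.2, hv]⟩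
      · rw [Function.update_of_ne hji] at hv
        obtain ⟨f, hf, hfj⟩ := hval j v hv
        exact ⟨f, lk_sub _ _ _ hf, hfj⟩

/-! ### SizeOK -/

lemma SizeOK.congr {a : ℕ → ℕ} {T C : ℕ} : ∀ {π : List (Fin r)} {Z Z' : Fin r → Finset (Fin n)},
    (∀ j ∈ π, Z j = Z' j) → SizeOK a T C π Z → SizeOK a T C π Z'
  | [], _, _, _, _ => trivial
  | (i :: π), Z, Z', h, hs => by
      refine ⟨?_, SizeOK.congr (fun j hj => h j (by simp [hj])) hs.2⟩
      rw [← h i (by simp)]
      exact hs.1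

lemma SizeOK.union {a : ℕ → ℕ} {T C C' : ℕ} : ∀ {π : List (Fin r)}
    {Z Z' : Fin r → Finset (Fin n)}, SizeOK a T C π Z → SizeOK a T C' π Z' →
    SizeOK a T (C + C') π (fun j => Z j ∪ Z' j)
  | [], _, _, _, _ => trivial
  | (i :: π), Z, Z', h, h' => by
      refine ⟨?_, SizeOK.union h.2 h'.2⟩
      calc (Z i ∪ Z' i).card ≤ (Z i).card + (Z' i).card := Finset.card_union_le _ _
        _ ≤ C * E a T π.length + C' * E a T π.length := Nat.add_le_add h.1 h'.1
        _ = (C + C') * E a T π.length := by ring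

lemma SizeOK.empty {a : ℕ → ℕ} {T C : ℕ} : ∀ {π : List (Fin r)},
    SizeOK a T C π (fun _ => (∅ : Finset (Fin n)))
  | [] => trivial
  | (i :: π) => ⟨by simp, SizeOK.empty⟩

lemma SizeOK.biUnion {a : ℕ → ℕ} {T : ℕ} {π : List (Fin r)} {u : ℕ → Fin r → Finset (Fin n)} :
    ∀ (k : ℕ), (∀ l < k, SizeOK a T 1 π (u l)) →
    SizeOK a T k π (fun j => (Finset.range k).biUnion (fun l => u l j))
  | 0, _ => by simpa using (SizeOK.empty : SizeOK a T 0 π (fun _ => (∅ : Finset (Fin n))))
  | (k+1), h => by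
      have h1 := SizeOK.biUnion k (fun l hl => h l (by omega))
      have h2 := SizeOK.union h1 (h k (by omega))
      refine SizeOK.congr ?_ h2
      intro j _
      rw [Finset.range_add_one, Finset.biUnion_insert, Finset.union_comm]

/-- change of top level -/
lemma SizeOK.top {a : ℕ → ℕ} {T T' C C' : ℕ} : ∀ {π : List (Fin r)}
    {Z : Fin r → Finset (Fin n)}, SizeOK a T C π Z →
    (∀ t < π.length, C * E a T t ≤ C' * E a T' t) → SizeOK a T' C' π Z
  | [], _, _, _ => trivial
  | (i :: π), Z, h, h' => by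
      refine ⟨h.1.trans (h' _ (by simp)), SizeOK.top h.2 (fun t ht => h' t (by simp; omega))⟩

lemma SizeOK.le_of_mem {a : ℕ → ℕ} {T C B : ℕ} : ∀ {π : List (Fin r)}
    {Z : Fin r → Finset (Fin n)}, SizeOK a T C π Z →
    (∀ t < π.length, C * E a T t ≤ B) → ∀ j ∈ π, (Z j).card ≤ B
  | [], _, _, _, j, hj => by simp at hj
  | (i :: π), Z, h, h', j, hj => by
      rcases List.mem_cons.mp hj with rfl | hj
      · exact h.1.trans (h' _ (by simp))
      · exact SizeOK.le_of_mem h.2 (fun t ht => h' t (by simp; omega)) j hj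

lemma Fork.size {a : ℕ → ℕ} : ∀ {π : List (Fin r)} {L : Finset (Fin r → Fin n)}
    {U : Fin r → Finset (Fin n)}, π.Nodup → Fork a π L U → SizeOK a π.length 1 π U
  | [], L, U, _, hF => trivial
  | (i :: π), L, U, hnd, hF => by
      obtain ⟨u, h1, h2, h3⟩ := hF
      subst h3
      rw [List.nodup_cons] at hnd
      constructor
      · rw [List.length_cons, E_succ a le_rfl, E_self, one_mul, one_mul]
        calc ((Finset.range (a π.length)).biUnion (fun k => u k i)).card
            ≤ ∑ k ∈ Finset.range (a π.length), (u k i).card := Finset.card_biUnion_le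
          _ ≤ ∑ k ∈ Finset.range (a π.length), 1 := by
              apply Finset.sum_le_sum
              intro k hk
              obtain ⟨w, U', hU', hu⟩ := h1 k (Finset.mem_range.mp hk)
              rw [hu, Function.update_self, Finset.card_singleton]
          _ = a π.length := by simp
      · have key : ∀ l < a π.length, SizeOK a π.length 1 π (u l) := by
          intro l hl
          obtain ⟨w, U', hU', hu⟩ := h1 l hl
          refine SizeOK.congr ?_ (Fork.size hnd.2 hU')
          intro j hj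
          rw [hu, Function.update_of_ne]
          rintro rfl
          exact hnd.1 hj
        refine SizeOK.top (SizeOK.biUnion _ key) ?_
        intro t ht
        rw [List.length_cons, E_succ a ht.le, one_mul, mul_comm]

lemma One.size {a : ℕ → ℕ} {i : Fin r} {π : List (Fin r)} {L : Finset (Fin r → Fin n)}
    {U : Fin r → Finset (Fin n)} (hnd : (i :: π).Nodup) (h : One a (i :: π) L U) :
    (U i).card = 1 ∧ SizeOK a π.length 1 π U := by
  obtain ⟨w, U', hU', hu⟩ := h
  rw [List.nodup_cons] at hnd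
  refine ⟨by rw [hu, Function.update_self, Finset.card_singleton], ?_⟩
  refine SizeOK.congr ?_ (Fork.size hnd.2 hU')
  intro j hj
  rw [hu, Function.update_of_ne]
  rintro rfl
  exact hnd.1 hj

/-! ### Av -/

lemma Av.congr {Hi : Fin r → Finset (Fin n)} : ∀ {π : List (Fin r)}
    {Z U U' : Fin r → Finset (Fin n)},
    (∀ j ∈ π, U j = U' j) → Av Hi π Z U → Av Hi π Z U'
  | [], _, _, _, _, _ => trivial
  | (i :: π), Z, U, U', h, hs => by
      have hi := h i (by simp)
      refine ⟨hi ▸ hs.1, fun hπ => hi ▸ hs.2.1 hπ, Av.congr (fun j hj => h j (by simp [hj])) hs.2.2⟩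

lemma Av.anti {Hi Hi' : Fin r → Finset (Fin n)} : ∀ {π : List (Fin r)}
    {Z Z' U : Fin r → Finset (Fin n)}, (∀ j ∈ π, Z' j ⊆ Z j) → (∀ j ∈ π, Hi' j ⊆ Hi j) →
    Av Hi π Z U → Av Hi' π Z' U
  | [], _, _, _, _, _, _ => trivial
  | (i :: π), Z, Z', U, h, h', hs => by
      refine ⟨Finset.disjoint_of_subset_right (h i (by simp)) hs.1,
        fun hπ => Finset.disjoint_of_subset_right (h' i (by simp)) (hs.2.1 hπ),
        Av.anti (fun j hj => h j (by simp [hj])) (fun j hj => h' j (by simp [hj])) hs.2.2⟩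

lemma Av.biUnion {Hi : Fin r → Finset (Fin n)} : ∀ {π : List (Fin r)} {k : ℕ}
    {Z : Fin r → Finset (Fin n)} {u : ℕ → Fin r → Finset (Fin n)}, (∀ l < k, Av Hi π Z (u l)) →
    Av Hi π Z (fun j => (Finset.range k).biUnion (fun l => u l j))
  | [], _, _, _, _ => trivial
  | (i :: π), k, Z, u, h => by
      refine ⟨?_, ?_, Av.biUnion (fun l hl => (h l hl).2.2)⟩
      · rw [Finset.disjoint_biUnion_left]
        intro l hl
        exact (h l (Finset.mem_range.mp hl)).1
      · intro hπ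
        rw [Finset.disjoint_biUnion_left]
        intro l hl
        exact (h l (Finset.mem_range.mp hl)).2.1 hπ

/-- If every vertex in `U` is outside `Z` and `Hi`, then Av. -/
lemma Av.of_disjoint {Hi : Fin r → Finset (Fin n)} : ∀ {π : List (Fin r)}
    {Z U : Fin r → Finset (Fin n)}, (∀ j ∈ π, Disjoint (U j) (Z j)) →
    (∀ j ∈ π, Disjoint (U j) (Hi j)) → Av Hi π Z U
  | [], _, _, _, _ => trivial
  | (i :: π), Z, U, h, h' =>
      ⟨h i (by simp), fun _ => h' i (by simp),
        Av.of_disjoint (fun j hj => h j (by simp [hj])) (fun j hj => h' j (by simp [hj]))⟩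

lemma Av.change {Hi : Fin r → Finset (Fin n)} : ∀ {π : List (Fin r)}
    {Z Z' U : Fin r → Finset (Fin n)}, (∀ j ∈ π, Disjoint (U j) (Z' j)) →
    Av Hi π Z U → Av Hi π Z' U
  | [], _, _, _, _, _ => trivial
  | (i :: π), Z, Z', U, h, h' =>
      ⟨h i (by simp), h'.2.1, Av.change (fun j hj => h j (by simp [hj])) h'.2.2⟩

end Pool.Agent.H20
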