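import Pool.Agent.H20.Defs

set_option autoImplicit false

open scoped Classical
open Finset

namespace Pool.Agent.H20

variable {r n : ℕ}

theorem Fork.extract {a : ℕ → ℕ} : ∀ {π : List (Fin r)} {L : Finset (Fin r → Fin n)}
    {U : Fin r → Finset (Fin n)}, π.Nodup → (∀ j < π.length, 1 ≤ a j) → Fork a π L U →
    ∃ F : ℕ → Fin r → Fin n, (∀ c < P a π.length, F c ∈ L ∧ ∀ j ∈ π, F c j ∈ U j) ∧
      (∀ (k : ℕ) (hk : k < π.length), ∀ c < P a π.length, ∀ c' < P a π.length,
        (F c π[k] = F c' π[k] ↔ c / P a (π.length - 1 - k) = c' / P a (π.length - 1 - k)))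
  | [], L, U, hnd, ha, hF => by
      obtain ⟨f, hf⟩ := hF.1
      exact ⟨fun _ => f, fun _ _ => ⟨hf, fun j hj => by simp at hj⟩, fun k hk => by simp at hk⟩
  | (i :: π), L, U, hnd, ha, hF => by
      obtain ⟨u, h1, h2, h3⟩ := hF
      rw [List.nodup_cons] at hnd
      have ha' : ∀ j < π.length, 1 ≤ a j := fun j hj => ha j (by simp; omega)
      have hne0 : Nonempty (Fin n) := by
        obtain ⟨w, -⟩ := h1 0 (ha π.length (by simp))
        exact ⟨w⟩
      choose! w U' hF hu using h1
      have hG : ∀ k < a π.length, ∃ F : ℕ → Fin r → Fin n,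
        (∀ c < P a π.length, F c ∈ lk L i (w k) ∧ ∀ j ∈ π, F c j ∈ U' k j) ∧
        (∀ (t : ℕ) (ht : t < π.length), ∀ c < P a π.length, ∀ c' < P a π.length,
        (F c π[t] = F c' π[t] ↔ c / P a (π.length - 1 - t) = c' / P a (π.length - 1 - t))) :=
        fun k hk => Fork.extract hnd.2 ha' (hF k hk)
      choose! G hG1 hG2 using hG
      have hP0 : 0 < P a π.length := P_pos ha'
      have hPs : P a (i :: π).length = P a π.length * a π.length := by
        rw [List.length_cons, P_succ]
      have hq : ∀ c < P a (i :: π).length, c / P a π.length < a π.length := by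
        intro c hc
        rw [hPs] at hc
        exact Nat.div_lt_of_lt_mul hc
      have hmod : ∀ c, c % P a π.length < P a π.length := fun c => Nat.mod_lt _ hP0
      have hne : ∀ k < a π.length, ∀ l < a π.length, k ≠ l → w k ≠ w l := by
        intro k hk l hl hkl heq
        have := h2 k hk l hl hkl i
        rw [hu k hk, hu l hl, Function.update_self, Function.update_self, heq] at this
        simp at this
      have hval : ∀ c < P a (i :: π).length,
          G (c / P a π.length) (c % P a π.length) i = w (c / P a π.length) := by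
        intro c hc
        have := (hG1 _ (hq c hc) _ (hmod c)).1
        exact (mem_lk.mp this).2
      have huU : ∀ k < a π.length, ∀ j ∈ π, u k j = U' k j := by
        intro k hk j hj
        rw [hu k hk, Function.update_of_ne]
        rintro rfl
        exact hnd.1 hj
      refine ⟨fun c => G (c / P a π.length) (c % P a π.length), ?_, ?_⟩
      · intro c hc
        have hc1 := hG1 _ (hq c hc) _ (hmod c)
        refine ⟨lk_sub _ _ _ hc1.1, ?_⟩
        intro j hj
        rw [h3]
        simp only [Finset.mem_biUnion, Finset.mem_range]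
        refine ⟨c / P a π.length, hq c hc, ?_⟩
        rcases List.mem_cons.mp hj with rfl | hj
        · rw [hu _ (hq c hc), Function.update_self, Finset.mem_singleton]
          exact hval c hc
        · rw [huU _ (hq c hc) j hj]
          exact hc1.2 j hj
      · intro k hk c hc c' hc'
        rcases Nat.eq_zero_or_pos k with h0 | h0
        · subst h0
          simp only [List.getElem_cons_zero, List.length_cons, Nat.add_sub_cancel, Nat.sub_zero]
          rw [hval c hc, hval c' hc']
          constructor
          · intro h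
            by_contra hcon
            exact hne _ (hq c hc) _ (hq c' hc') hcon h
          · intro h; rw [h]
        · obtain ⟨k, rfl⟩ : ∃ k', k = k' + 1 := ⟨k - 1, by omega⟩
          have hk' : k < π.length := by simpa using hk
          simp only [List.getElem_cons_succ, List.length_cons]
          have he : π.length + 1 - 1 - (k + 1) = π.length - 1 - k := by omega
          rw [he]
          set t := π.length - 1 - k with ht
          have htl : t ≤ π.length := by omega
          have hEP := E_mul_P a htl
          have hPt0 : 0 < P a t := P_pos (fun j hj => ha' j (by omega))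
          have hdiv : ∀ c, c / P a t = E a π.length t * (c / P a π.length) +
              (c % P a π.length) / P a t := by
            intro c
            conv_lhs => rw [← Nat.div_add_mod c (P a π.length)]
            rw [← Nat.mul_add_div hPt0]
            congr 1
            rw [← mul_assoc]
            congr 2
            rw [← hEP]; ring
          by_cases hqq : c / P a π.length = c' / P a π.length
          · rw [hdiv c, hdiv c', hqq]
            rw [hG2 _ (hq c' hc') k hk' _ (hmod c) _ (hmod c')]
            exact ⟨fun h => congrArg _ h, fun h => Nat.add_left_cancel h⟩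
          · constructor
            · intro h
              exfalso
              have m1 := (hG1 _ (hq c hc) _ (hmod c)).2 π[k] (List.getElem_mem hk')
              have m2 := (hG1 _ (hq c' hc') _ (hmod c')).2 π[k] (List.getElem_mem hk')
              rw [← huU _ (hq c hc) _ (List.getElem_mem hk')] at m1
              rw [← huU _ (hq c' hc') _ (List.getElem_mem hk')] at m2
              rw [h] at m1
              exact Finset.disjoint_left.mp (h2 _ (hq c hc) _ (hq c' hc') hqq π[k]) m1 m2
            · intro h
              exfalso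
              apply hqq
              have hd : ∀ c, c / P a π.length = (c / P a t) / E a π.length t := by
                intro c
                rw [Nat.div_div_eq_div_mul, mul_comm, hEP]
              rw [hd c, hd c', h]

/-! ### the explicit unavoidable graph -/

noncomputable def starEdge (r n : ℕ) (a : ℕ → ℕ) (c : ℕ) : Finset (Fin n) :=
  Finset.univ.filter (fun v => ∃ t < r, (v : ℕ) = t * P a r + c / P a t)

noncomputable def starH (r n : ℕ) (a : ℕ → ℕ) : Finset (Finset (Fin n)) :=
  (Finset.range (P a r)).image (starEdge r n a)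

section

variable {a : ℕ → ℕ} (ha : ∀ j < r, 1 ≤ a j) (hrW : r * P a r ≤ n)
include ha

lemma div_lt_W {c t : ℕ} (hc : c < P a r) : c / P a t < P a r :=
  lt_of_le_of_lt (Nat.div_le_self _ _) hc

lemma code_div {c t : ℕ} (hc : c < P a r) : (t * P a r + c / P a t) / P a r = t := by
  have hW : 0 < P a r := P_pos ha
  rw [mul_comm, Nat.mul_add_div hW, Nat.div_eq_of_lt (div_lt_W ha hc), add_zero]

lemma code_mod {c t : ℕ} (hc : c < P a r) : (t * P a r + c / P a t) % P a r = c / P a t := by
  rw [mul_comm, Nat.mul_add_mod, Nat.mod_eq_of_lt (div_lt_W ha hc)]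

include hrW

lemma code_lt {c t : ℕ} (hc : c < P a r) (ht : t < r) : t * P a r + c / P a t < n := by
  have h1 := div_lt_W (t := t) ha hc
  calc t * P a r + c / P a t < t * P a r + P a r := by omega
    _ = (t + 1) * P a r := by ring
    _ ≤ r * P a r := Nat.mul_le_mul_right _ ht
    _ ≤ n := hrW

lemma starEdge_card {c : ℕ} (hc : c < P a r) : (starEdge r n a c).card = r := by
  have h1 : (starEdge r n a c).map Fin.valEmbedding =
      (Finset.range r).image (fun t => t * P a r + c / P a t) := by
    ext v
    simp only [starEdge, Finset.mem_map, Finset.mem_filter, Finset.mem_univ, true_and,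
      Fin.valEmbedding_apply, Finset.mem_image, Finset.mem_range]
    constructor
    · rintro ⟨x, ⟨t, ht, hx⟩, rfl⟩
      exact ⟨t, ht, hx.symm⟩
    · rintro ⟨t, ht, rfl⟩
      exact ⟨⟨_, code_lt ha hrW hc ht⟩, ⟨t, ht, rfl⟩, rfl⟩
  have h2 : (starEdge r n a c).card = ((starEdge r n a c).map Fin.valEmbedding).card := by
    rw [Finset.card_map]
  rw [h2, h1, Finset.card_image_of_injOn, Finset.card_range]
  intro t _ t' _ h
  have := congrArg (fun v => v / P a r) h
  dsimp only at this
  rwa [code_div ha hc, code_div ha hc] at this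

lemma starH_unif : ∀ h ∈ starH r n a, h.card = r := by
  intro h hh
  simp only [starH, Finset.mem_image, Finset.mem_range] at hh
  obtain ⟨c, hc, rfl⟩ := hh
  exact starEdge_card ha hrW hc

lemma starH_card (hr : 1 ≤ r) : (starH r n a).card = P a r := by
  unfold starH
  rw [Finset.card_image_of_injOn, Finset.card_range]
  intro c hc c' hc' h
  simp only [Finset.coe_range, Set.mem_Iio] at hc hc'
  have hlt := code_lt (t := 0) ha hrW hc (by omega)
  have h1 : (⟨0 * P a r + c / P a 0, hlt⟩ : Fin n) ∈ starEdge r n a c := by
    simp only [starEdge, Finset.mem_filter, Finset.mem_univ, true_and]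
    exact ⟨0, by omega, rfl⟩
  rw [h] at h1
  simp only [starEdge, Finset.mem_filter, Finset.mem_univ, true_and] at h1
  obtain ⟨t, ht, h1⟩ := h1
  have h2 : (0 * P a r + c / P a 0) / P a r = (t * P a r + c' / P a t) / P a r := by
    rw [← h1]
  rw [code_div ha hc, code_div ha hc'] at h2
  subst h2
  simpa [P_zero] using h1

/-- a fork gives a copy of `starH`. -/
theorem star_embed {π : List (Fin r)} (hπ : Ord Finset.univ π) {L : Finset (Fin r → Fin n)}
    {U : Fin r → Finset (Fin n)} (hF : Fork a π L U) (col : Fin n → Fin r)
    (G : Finset (Finset (Fin n)))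
    (hL : ∀ f ∈ L, (∀ i, col (f i) = i) ∧ Finset.univ.image f ∈ G) :
    ∃ φ : Fin n ↪ Fin n, ∀ h ∈ starH r n a, h.map φ ∈ G := by
  have hlen : π.length = r := by
    have := List.toFinset_card_of_nodup hπ.1
    rw [hπ.2, Finset.card_univ, Fintype.card_fin] at this
    exact this.symm
  obtain ⟨F, hF1, hF2⟩ := Fork.extract hπ.1 (by rw [hlen]; exact ha) hF
  rw [hlen] at hF1
  -- the map on codes
  let ψ : Fin n → Fin n := fun v =>
    if h : r - 1 - (v : ℕ) / P a r < π.length then
      F (((v : ℕ) % P a r) * P a ((v : ℕ) / P a r)) π[r - 1 - (v : ℕ) / P a r] else v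
  have hψ : ∀ (c t : ℕ) (hc : c < P a r) (ht : t < r) (v : Fin n),
      (v : ℕ) = t * P a r + c / P a t → ∀ h : r - 1 - t < π.length, ψ v = F c π[r - 1 - t] := by
    intro c t hc ht v hv h
    have h1 : (v : ℕ) / P a r = t := by rw [hv, code_div ha hc]
    have h2 : (v : ℕ) % P a r = c / P a t := by rw [hv, code_mod ha hc]
    simp only [ψ]
    simp only [h1, h2, h, dif_pos]
    have hc2 : c / P a t * P a t < P a r := lt_of_le_of_lt (Nat.div_mul_le_self _ _) hc
    have hPt0 : 0 < P a t := P_pos (fun j hj => ha j (by omega))
    have h3 := hF2 (r - 1 - t) h (c / P a t * P a t) (by rw [hlen]; exact hc2) c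
      (by rw [hlen]; exact hc)
    rw [h3]
    have h4 : π.length - 1 - (r - 1 - t) = t := by omega
    rw [h4, Nat.mul_div_cancel _ hPt0]
  set S : Finset (Fin n) := Finset.univ.filter
    (fun v => ∃ t < r, ∃ c < P a r, (v : ℕ) = t * P a r + c / P a t) with hS
  have hinj : Set.InjOn ψ S := by
    intro v hv v' hv' hvv
    rw [hS, Finset.coe_filter] at hv hv'
    obtain ⟨-, t, ht, c, hc, hv⟩ := hv
    obtain ⟨-, t', ht', c', hc', hv'⟩ := hv'
    have h1 : r - 1 - t < π.length := by omega
    have h1' : r - 1 - t' < π.length := by omega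
    rw [hψ c t hc ht v hv h1, hψ c' t' hc' ht' v' hv' h1'] at hvv
    have h2 := congrArg col hvv
    rw [(hL _ (hF1 c hc).1).1, (hL _ (hF1 c' hc').1).1] at h2
    have h3 := (List.Nodup.getElem_inj_iff hπ.1).mp h2
    have h4 : t = t' := by omega
    subst h4
    have h5 := (hF2 (r - 1 - t) h1 c (by rw [hlen]; exact hc) c' (by rw [hlen]; exact hc')).mp hvv
    have h6 : π.length - 1 - (r - 1 - t) = t := by omega
    rw [h6] at h5
    apply Fin.ext
    rw [hv, hv', h5]
  obtain ⟨g, hg⟩ := Finset.exists_equiv_extend_of_card_eq (α := Fin n) (β := Fin n)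
    (t := Finset.univ) (by simp) (s := S) (f := ψ) (Finset.subset_univ _) hinj
  refine ⟨⟨fun v => (g v : Fin n), fun v v' h => g.injective (Subtype.ext h)⟩, ?_⟩
  intro h hh
  simp only [starH, Finset.mem_image, Finset.mem_range] at hh
  obtain ⟨c, hc, rfl⟩ := hh
  have h1 : (starEdge r n a c).map ⟨fun v => (g v : Fin n), fun v v' h =>
      g.injective (Subtype.ext h)⟩ = Finset.univ.image (F c) := by
    ext x
    simp only [Finset.mem_map, Function.Embedding.coeFn_mk, Finset.mem_image, Finset.mem_univ,
      true_and]
    constructor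
    · rintro ⟨v, hv, hx⟩
      simp only [starEdge, Finset.mem_filter, Finset.mem_univ, true_and] at hv
      obtain ⟨t, ht, hv⟩ := hv
      have hvS : v ∈ S := by
        rw [hS, Finset.mem_filter]
        exact ⟨Finset.mem_univ _, t, ht, c, hc, hv⟩
      rw [hg v hvS, hψ c t hc ht v hv (by omega)] at hx
      exact ⟨_, hx⟩
    · rintro ⟨i, hi⟩
      have hiπ : i ∈ π := by
        rw [← List.mem_toFinset, hπ.2]; exact Finset.mem_univ i
      obtain ⟨k, hk, hki⟩ := List.getElem_of_mem hiπ
      have ht : r - 1 - k < r := by omega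
      have hlt := code_lt (t := r - 1 - k) ha hrW hc ht
      refine ⟨⟨_, hlt⟩, ?_, ?_⟩
      · simp only [starEdge, Finset.mem_filter, Finset.mem_univ, true_and]
        exact ⟨r - 1 - k, ht, rfl⟩
      · have hvS : (⟨_, hlt⟩ : Fin n) ∈ S := by
          rw [hS, Finset.mem_filter]
          exact ⟨Finset.mem_univ _, r - 1 - k, ht, c, hc, rfl⟩
        rw [hg _ hvS, hψ c (r - 1 - k) hc ht _ rfl (by omega)]
        have h4 : r - 1 - (r - 1 - k) = k := by omega
        simp only [h4]
        rw [hki, hi]
  rw [h1]
  exact (hL _ (hF1 c hc).1).2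

end

/-! ### random colouring -/

lemma card_colorings (f : Fin r → Fin n) (hf : Function.Injective f) :
    r ^ n ≤ ((Finset.univ : Finset (Fin n → Fin r)).filter (fun col => ∀ i, col (f i) = i)).card
      * r ^ r := by
  have h1 : (Finset.univ : Finset (Fin n → Fin r)).card ≤
      (((Finset.univ : Finset (Fin n → Fin r)).filter (fun col => ∀ i, col (f i) = i)) ×ˢ
        (Finset.univ : Finset (Fin r → Fin r))).card := by
    apply Finset.card_le_card_of_injOn
      (fun col => ((fun v => if h : ∃ i, f i = v then h.choose else col v), col ∘ f))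
    · intro col _
      simp only [Finset.coe_product, Set.mem_prod, Finset.mem_coe, Finset.mem_filter,
        Finset.mem_univ, true_and, and_true]
      intro i
      have h : ∃ j, f j = f i := ⟨i, rfl⟩
      rw [dif_pos h]
      exact hf h.choose_spec
    · intro col _ col' _ h
      simp only [Prod.mk.injEq] at h
      funext v
      by_cases hv : ∃ i, f i = v
      · obtain ⟨i, rfl⟩ := hv
        exact congrFun h.2 i
      · have := congrFun h.1 v
        simpa [hv] using this
  rw [Finset.card_product] at h1
  simpa using h1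

theorem exists_coloring (hr : 1 ≤ r) (G : Finset (Finset (Fin n))) (hG : ∀ g ∈ G, g.card = r) :
    ∃ (col : Fin n → Fin r) (L : Finset (Fin r → Fin n)),
      (∀ f ∈ L, (∀ i, col (f i) = i) ∧ Finset.univ.image f ∈ G) ∧
      G.card ≤ L.card * r ^ r := by
  have : Nonempty (Fin r) := ⟨⟨0, by omega⟩⟩
  -- enumeration of each edge
  have hen : ∀ g ∈ G, ∃ f : Fin r → Fin n,
      (Function.Injective f ∧ Finset.univ.image f = g) := by
    intro g hg
    have hc := hG g hg
    exact ⟨fun i => g.orderEmbOfFin hc i, (g.orderEmbOfFin hc).injective,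
      Finset.image_orderEmbOfFin_univ g hc⟩
  choose en hen1 hen2 using hen
  have hcount : ∃ col : Fin n → Fin r, G.card ≤
      (G.attach.filter (fun g => ∀ i, col (en g.1 g.2 i) = i)).card * r ^ r := by
    by_contra hcon
    push Not at hcon
    have h1 : ∑ col : Fin n → Fin r,
        (G.attach.filter (fun g => ∀ i, col (en g.1 g.2 i) = i)).card * r ^ r <
        ∑ col : Fin n → Fin r, G.card :=
      Finset.sum_lt_sum_of_nonempty Finset.univ_nonempty (fun col _ => hcon col)
    rw [Finset.sum_const, Finset.card_univ, Fintype.card_fun, Fintype.card_fin,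
      Fintype.card_fin, smul_eq_mul, ← Finset.sum_mul] at h1
    have h2 : ∑ col : Fin n → Fin r,
        (G.attach.filter (fun g => ∀ i, col (en g.1 g.2 i) = i)).card =
        ∑ g ∈ G.attach, ((Finset.univ : Finset (Fin n → Fin r)).filter
          (fun col => ∀ i, col (en g.1 g.2 i) = i)).card := by
      simp only [Finset.card_filter]
      rw [Finset.sum_comm]
    rw [h2, Finset.sum_mul] at h1
    have h3 : ∑ g ∈ G.attach, r ^ n ≤ ∑ g ∈ G.attach,
        ((Finset.univ : Finset (Fin n → Fin r)).filter
          (fun col => ∀ i, col (en g.1 g.2 i) = i)).card * r ^ r := by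
      apply Finset.sum_le_sum
      intro g _
      exact card_colorings _ (hen1 g.1 g.2)
    rw [Finset.sum_const, Finset.card_attach, smul_eq_mul, mul_comm] at h3
    omega
  obtain ⟨col, hcol⟩ := hcount
  refine ⟨col, (G.attach.filter (fun g => ∀ i, col (en g.1 g.2 i) = i)).image
    (fun g => en g.1 g.2), ?_, ?_⟩
  · intro f hf
    rw [Finset.mem_image] at hf
    obtain ⟨g, hg, rfl⟩ := hf
    rw [Finset.mem_filter] at hg
    refine ⟨hg.2, ?_⟩
    rw [hen2]
    exact g.2
  · rw [Finset.card_image_of_injOn]
    · exact hcol
    · intro g _ g' _ h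
      apply Subtype.ext
      rw [← hen2 g.1 g.2, ← hen2 g'.1 g'.2]
      simp only at h
      rw [h]

end Pool.Agent.H20
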