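import Pool.Agent.H20.Defs

set_option autoImplicit false

open scoped Classical
open Finset

namespace Pool.Agent.H20

variable {r n : ℕ}

/-- pairwise disjointness of the first `k` vertex sets -/
def PD (k : ℕ) (u : ℕ → Fin r → Finset (Fin n)) : Prop :=
  ∀ l < k, ∀ l' < k, l ≠ l' → ∀ j, Disjoint (u l j) (u l' j)

lemma greedy (N : ℕ) (Q : (Fin r → Finset (Fin n)) → Prop)
    (h : ∀ k < N, ∀ u : ℕ → Fin r → Finset (Fin n), (∀ l < k, Q (u l)) → PD k u →
      ∃ U, Q U ∧ ∀ l < k, ∀ j, Disjoint (U j) (u l j)) :
    ∃ u : ℕ → Fin r → Finset (Fin n), (∀ l < N, Q (u l)) ∧ PD N u := by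
  have key : ∀ k ≤ N, ∃ u : ℕ → Fin r → Finset (Fin n), (∀ l < k, Q (u l)) ∧ PD k u := by
    intro k
    induction k with
    | zero => intro _; exact ⟨fun _ _ => ∅, by simp, by intro l hl; omega⟩
    | succ k ih =>
      intro hk
      obtain ⟨u, hu1, hu2⟩ := ih (by omega)
      obtain ⟨U, hU1, hU2⟩ := h k (by omega) u hu1 hu2
      refine ⟨Function.update u k U, ?_, ?_⟩
      · intro l hl
        by_cases hlk : l = k
        · subst hlk; rw [Function.update_self]; exact hU1
        · rw [Function.update_of_ne hlk]; exact hu1 l (by omega)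
      · intro l hl l' hl' hne j
        by_cases hlk : l = k
        · subst hlk
          rw [Function.update_self, Function.update_of_ne hne.symm]
          exact hU2 l' (by omega) j
        · rw [Function.update_of_ne hlk]
          by_cases hlk' : l' = k
          · subst hlk'
            rw [Function.update_self]
            exact (hU2 l (by omega) j).symm
          · rw [Function.update_of_ne hlk']
            exact hu2 l (by omega) l' (by omega) hne j
  exact key N le_rfl

/-- Lemma A: number of robust vertices is small. -/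
lemma rich_card {a : ℕ → ℕ} {T C : ℕ} {Hi : Fin r → Finset (Fin n)} {i : Fin r}
    {π : List (Fin r)} {L : Finset (Fin r → Fin n)} (ha : ∀ j < T, 1 ≤ a j)
    (hnd : (i :: π).Nodup) (hT : π.length + 1 ≤ T)
    (hnot : ¬ Robust a T C Hi (i :: π) L) :
    ((Finset.univ : Finset (Fin n)).filter
      (fun w => (π = [] → w ∉ Hi i) ∧ Robust a T (C+1) Hi π (lk L i w))).card
      ≤ (C+1) * E a T π.length := by
  by_contra hcon
  push Not at hcon
  apply hnot
  intro Z hZ
  set S := (Finset.univ : Finset (Fin n)).filter
      (fun w => (π = [] → w ∉ Hi i) ∧ Robust a T (C+1) Hi π (lk L i w)) with hS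
  have hnd' := List.nodup_cons.mp hnd
  obtain ⟨u, hu1, hu2⟩ := greedy (a π.length)
    (fun U => One a (i :: π) L U ∧ Av Hi (i :: π) Z U) (by
      intro k hk u hu hpd
      -- forbidden set
      set W : Fin r → Finset (Fin n) := fun j => (Finset.range k).biUnion (fun l => u l j) with hW
      have hWi : (W i).card ≤ k := by
        calc (W i).card ≤ ∑ l ∈ Finset.range k, (u l i).card := Finset.card_biUnion_le
          _ ≤ ∑ l ∈ Finset.range k, 1 := by
              apply Finset.sum_le_sum
              intro l hl
              exact (One.size hnd (hu l (Finset.mem_range.mp hl)).1).1.le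
          _ = k := by simp
      have hWs : SizeOK a π.length k π W := by
        apply SizeOK.biUnion
        intro l hl
        exact (One.size hnd (hu l hl).1).2
      have hZ' : SizeOK a T (C+1) π (fun j => Z j ∪ W j) := by
        apply SizeOK.union hZ.2
        refine SizeOK.top hWs ?_
        intro t ht
        calc k * E a π.length t ≤ a π.length * E a π.length t :=
              Nat.mul_le_mul_right _ hk.le
          _ = E a (π.length + 1) t := by rw [E_succ a ht.le, mul_comm]
          _ ≤ E a T t := E_mono_right ha (by omega) hT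
          _ = 1 * E a T t := by ring
      have hcard : (Z i ∪ W i).card < S.card := by
        calc (Z i ∪ W i).card ≤ (Z i).card + (W i).card := Finset.card_union_le _ _
          _ ≤ C * E a T π.length + k := Nat.add_le_add hZ.1 hWi
          _ ≤ C * E a T π.length + a π.length := by omega
          _ ≤ C * E a T π.length + E a T π.length := by
              apply Nat.add_le_add_left
              calc a π.length = E a (π.length + 1) π.length := by
                    rw [E_succ a le_rfl, E_self, one_mul]
                _ ≤ E a T π.length := E_mono_right ha (by omega) hT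
          _ = (C+1) * E a T π.length := by ring
          _ < S.card := hcon
      obtain ⟨w, hwS, hwn⟩ := Finset.exists_mem_notMem_of_card_lt_card hcard
      rw [hS, Finset.mem_filter] at hwS
      obtain ⟨-, hwHi, hrob⟩ := hwS
      obtain ⟨U', hF, hAv⟩ := hrob _ hZ'
      rw [Finset.mem_union, not_or] at hwn
      refine ⟨Function.update U' i {w}, ⟨⟨w, U', hF, rfl⟩, ?_, ?_, ?_⟩, ?_⟩
      · rw [Function.update_self, Finset.disjoint_singleton_left]
        exact hwn.1
      · intro hπ
        rw [Function.update_self, Finset.disjoint_singleton_left]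
        exact hwHi hπ
      · refine Av.congr ?_ (Av.anti (Hi := Hi) (Hi' := Hi) ?_ (fun _ _ => subset_rfl) hAv)
        · intro j hj
          rw [Function.update_of_ne]
          rintro rfl
          exact hnd'.1 hj
        · intro j _
          exact Finset.subset_union_left
      · intro l hl j
        by_cases hji : j = i
        · subst hji
          rw [Function.update_self, Finset.disjoint_singleton_left]
          intro hmem
          exact hwn.2 (Finset.mem_biUnion.mpr ⟨l, Finset.mem_range.mpr hl, hmem⟩)
        · rw [Function.update_of_ne hji]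
          by_cases hjπ : j ∈ π
          · have hav : ∀ {ρ : List (Fin r)} {Z U : Fin r → Finset (Fin n)}, Av Hi ρ Z U →
                ∀ j ∈ ρ, Disjoint (U j) (Z j) := by
              intro ρ
              induction ρ with
              | nil => intro Z U _ j hj; simp at hj
              | cons b ρ ih =>
                intro Z U h j hj
                rcases List.mem_cons.mp hj with rfl | hj
                · exact h.1
                · exact ih h.2.2 j hj
            have := hav hAv j hjπ
            rw [Finset.disjoint_union_right] at this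
            refine Finset.disjoint_of_subset_right ?_ this.2
            intro v hv
            exact Finset.mem_biUnion.mpr ⟨l, Finset.mem_range.mpr hl, hv⟩
          · rw [Fork.empty_of_notMem hF j hjπ]
            exact Finset.disjoint_empty_left _)
  refine ⟨_, ⟨u, fun k hk => (hu1 k hk).1, hu2, rfl⟩, ?_⟩
  exact Av.biUnion (fun l hl => (hu1 l hl).2)

/-! ### orders -/

/-- the finite set of orders of `R` -/
noncomputable def orders (R : Finset (Fin r)) : Finset (List (Fin r)) :=
  ((Finset.univ : Finset (Fin R.card → Fin r)).image List.ofFn).filter (fun π => Ord R π)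

lemma Ord.length {R : Finset (Fin r)} {π : List (Fin r)} (h : Ord R π) : π.length = R.card := by
  rw [← h.2, List.toFinset_card_of_nodup h.1]

lemma mem_orders {R : Finset (Fin r)} {π : List (Fin r)} : π ∈ orders R ↔ Ord R π := by
  unfold orders
  rw [Finset.mem_filter]
  refine ⟨fun h => h.2, fun h => ⟨?_, h⟩⟩
  rw [Finset.mem_image]
  have hl := h.length
  refine ⟨fun k => π.get (Fin.cast hl.symm k), Finset.mem_univ _, ?_⟩
  apply List.ext_get
  · simp [hl]
  · intro k h1 h2
    simp

lemma card_orders (R : Finset (Fin r)) : (orders R).card ≤ r ^ r := by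
  unfold orders
  calc _ ≤ ((Finset.univ : Finset (Fin R.card → Fin r)).image List.ofFn).card :=
        Finset.card_filter_le _ _
    _ ≤ (Finset.univ : Finset (Fin R.card → Fin r)).card := Finset.card_image_le
    _ = r ^ R.card := by simp
    _ ≤ r ^ r := by
        rcases Nat.eq_zero_or_pos r with h | h
        · subst h
          simp [Finset.eq_empty_of_isEmpty R]
        · apply Nat.pow_le_pow_right h
          simpa using Finset.card_le_univ R

lemma orders_nonempty (R : Finset (Fin r)) : (orders R).Nonempty := by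
  refine ⟨R.toList, mem_orders.mpr ⟨R.nodup_toList, by simp⟩⟩

lemma Ord.cons {R : Finset (Fin r)} {i : Fin r} {π : List (Fin r)} (hi : i ∈ R)
    (h : Ord (R.erase i) π) : Ord R (i :: π) := by
  refine ⟨List.nodup_cons.mpr ⟨?_, h.1⟩, ?_⟩
  · intro hmem
    rw [← List.mem_toFinset, h.2] at hmem
    simp at hmem
  · rw [List.toFinset_cons, h.2, Finset.insert_erase hi]

lemma Ord.of_cons {R : Finset (Fin r)} {i : Fin r} {π : List (Fin r)}
    (h : Ord R (i :: π)) : i ∈ R ∧ Ord (R.erase i) π := by
  obtain ⟨h1, h2⟩ := h
  rw [List.nodup_cons] at h1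
  rw [List.toFinset_cons] at h2
  refine ⟨h2 ▸ Finset.mem_insert_self _ _, h1.2, ?_⟩
  rw [← h2, Finset.erase_insert]
  simpa using h1.1

/-- the rich vertices of `L` at coordinate `i`. -/
noncomputable def Rich (a : ℕ → ℕ) (T C : ℕ) (Hi : Fin r → Finset (Fin n)) (R : Finset (Fin r))
    (L : Finset (Fin r → Fin n)) (i : Fin r) : Finset (Fin n) :=
  (Finset.univ : Finset (Fin n)).filter
    (fun w => (R.erase i = ∅ → w ∉ Hi i) ∧ ¬ NR a T (C+1) Hi (R.erase i) (lk L i w))

lemma Rich_card {a : ℕ → ℕ} {T C : ℕ} {Hi : Fin r → Finset (Fin n)} {R : Finset (Fin r)}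
    {L : Finset (Fin r → Fin n)} {i : Fin r} (ha : ∀ j < T, 1 ≤ a j)
    (hi : i ∈ R) (hT : R.card ≤ T) (hNR : NR a T C Hi R L) :
    (Rich a T C Hi R L i).card ≤ r ^ r * ((C+1) * E a T (R.card - 1)) := by
  have hsub : Rich a T C Hi R L i ⊆ (orders (R.erase i)).biUnion (fun π =>
      (Finset.univ : Finset (Fin n)).filter
      (fun w => (π = [] → w ∉ Hi i) ∧ Robust a T (C+1) Hi π (lk L i w))) := by
    intro w hw
    unfold Rich at hw
    rw [Finset.mem_filter] at hw
    obtain ⟨-, hw1, hw2⟩ := hw
    unfold NR at hw2
    push Not at hw2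
    obtain ⟨π, hπ, hrob⟩ := hw2
    rw [Finset.mem_biUnion]
    refine ⟨π, mem_orders.mpr hπ, ?_⟩
    rw [Finset.mem_filter]
    refine ⟨Finset.mem_univ _, ?_, hrob⟩
    intro hnil
    apply hw1
    rw [← hπ.2, hnil]
    simp
  calc (Rich a T C Hi R L i).card ≤ _ := Finset.card_le_card hsub
    _ ≤ ∑ π ∈ orders (R.erase i), ((Finset.univ : Finset (Fin n)).filter
      (fun w => (π = [] → w ∉ Hi i) ∧ Robust a T (C+1) Hi π (lk L i w))).card :=
        Finset.card_biUnion_le
    _ ≤ ∑ π ∈ orders (R.erase i), (C+1) * E a T (R.card - 1) := by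
        apply Finset.sum_le_sum
        intro π hπ
        rw [mem_orders] at hπ
        have hlen := hπ.length
        rw [Finset.card_erase_of_mem hi] at hlen
        have hRpos : 0 < R.card := Finset.card_pos.mpr ⟨i, hi⟩
        have := rich_card (a := a) (T := T) (C := C) (Hi := Hi) (i := i) (π := π) (L := L) ha
          (hπ.cons hi).1 (by omega) (hNR _ (hπ.cons hi))
        rwa [hlen] at this
    _ = (orders (R.erase i)).card * ((C+1) * E a T (R.card - 1)) := by
        rw [Finset.sum_const, smul_eq_mul]
    _ ≤ _ := Nat.mul_le_mul_right _ (card_orders _)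

/-! ### maximal families -/

/-- Lemma G: a maximal family of disjoint single-root stars. -/
lemma max_family {a : ℕ → ℕ} {Hi : Fin r → Finset (Fin n)} {R : Finset (Fin r)}
    {L : Finset (Fin r → Fin n)} (hR : R.Nonempty)
    (Zf : List (Fin r) → Fin r → Finset (Fin n))
    (hZ : ∀ π, Ord R π → ¬ ∃ U, Fork a π L U ∧ Av Hi π (Zf π) U) :
    ∃ (k : ℕ) (u : ℕ → Fin r → Finset (Fin n)), k ≤ r ^ r * a (R.card - 1) ∧
      (∀ l < k, ∃ π, Ord R π ∧ One a π L (u l) ∧ Av Hi π (Zf π) (u l)) ∧
      (∀ π U, Ord R π → One a π L U → Av Hi π (Zf π) U →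
        ∃ l < k, ∃ j, ¬ Disjoint (U j) (u l j)) := by
  by_contra hcon
  push Not at hcon
  obtain ⟨u, hu1, hu2⟩ := greedy (r ^ r * a (R.card - 1))
    (fun U => ∃ π, Ord R π ∧ One a π L U ∧ Av Hi π (Zf π) U) (by
      intro k hk u hu hpd
      obtain ⟨π, U, h1, h2, h3, h4⟩ := hcon k u hk.le hu
      exact ⟨U, ⟨π, h1, h2, h3⟩, h4⟩)
  choose! ord hord using hu1
  have hmaps : ∀ l ∈ Finset.range (r ^ r * a (R.card - 1)), ord l ∈ orders R := by
    intro l hl
    exact mem_orders.mpr (hord l (Finset.mem_range.mp hl)).1
  obtain ⟨π, hπ, hcard⟩ := Finset.exists_le_card_fiber_of_mul_le_card_of_maps_to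
    (n := a (R.card - 1)) hmaps (orders_nonempty R) (by
      rw [Finset.card_range]
      exact Nat.mul_le_mul_right _ (card_orders R))
  rw [mem_orders] at hπ
  obtain ⟨S, hS1, hS2⟩ := Finset.exists_subset_card_eq hcard
  have hlen : π.length = R.card := hπ.length
  have hRpos : 0 < R.card := Finset.card_pos.mpr hR
  -- an injection from range (a (R.card-1)) into S
  let e := S.orderIsoOfFin hS2
  let g : ℕ → ℕ := fun k => if h : k < a (R.card - 1) then (e ⟨k, h⟩ : ℕ) else 0
  have hg1 : ∀ k < a (R.card - 1), g k ∈ S := by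
    intro k hk
    simp only [g, hk, dif_pos]
    exact (e ⟨k, hk⟩).2
  have hg2 : ∀ k < a (R.card - 1), ∀ l < a (R.card - 1), k ≠ l → g k ≠ g l := by
    intro k hk l hl hne heq
    simp only [g, hk, hl, dif_pos] at heq
    apply hne
    have := e.injective (Subtype.ext heq)
    simpa using this
  have hS3 : ∀ k < a (R.card - 1), g k < r ^ r * a (R.card - 1) ∧ ord (g k) = π := by
    intro k hk
    have := hS1 (hg1 k hk)
    rw [Finset.mem_filter, Finset.mem_range] at this
    exact this
  cases π with
  | nil =>
    simp at hlen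
    omega
  | cons i π =>
    simp only [List.length_cons] at hlen
    have hlen' : π.length = R.card - 1 := by omega
    apply hZ (i :: π) hπ
    refine ⟨_, ⟨fun k => u (g k), ?_, ?_, rfl⟩, ?_⟩
    · intro k hk
      rw [hlen'] at hk
      have h1 := hord (g k) (hS3 k hk).1
      rw [(hS3 k hk).2] at h1
      exact h1.2.1
    · intro k hk l hl hne j
      rw [hlen'] at hk hl
      exact hu2 _ (hS3 k hk).1 _ (hS3 l hl).1 (hg2 k hk l hl hne) j
    · apply Av.biUnion
      intro k hk
      rw [hlen'] at hk
      have h1 := hord (g k) (hS3 k hk).1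
      rw [(hS3 k hk).2] at h1
      exact h1.2.2

/-- size of single-root stars -/
lemma One.card_le {a : ℕ → ℕ} {π : List (Fin r)} {L : Finset (Fin r → Fin n)}
    {U : Fin r → Finset (Fin n)} (hnd : π.Nodup) (ha : ∀ j < π.length, 1 ≤ a j)
    (h : One a π L U) : ∀ j, (U j).card ≤ P a (π.length - 1) := by
  intro j
  by_cases hj : j ∈ π
  · cases π with
    | nil => exact h.elim
    | cons i π =>
      simp only [List.length_cons, Nat.add_sub_cancel]
      have ha' : ∀ j < π.length, 1 ≤ a j := fun j hj => ha j (by simp; omega)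
      obtain ⟨h1, h2⟩ := One.size hnd h
      rcases List.mem_cons.mp hj with rfl | hj
      · rw [h1]
        exact P_pos ha'
      · refine SizeOK.le_of_mem h2 ?_ j hj
        intro t ht
        rw [one_mul]
        exact E_le_P ha' ht.le
  · rw [One.empty_of_notMem h j hj]
    simp

/-- Lemma B: covering. -/
lemma cover {a : ℕ → ℕ} {T C : ℕ} {Hi : Fin r → Finset (Fin n)} {R : Finset (Fin r)}
    {L : Finset (Fin r → Fin n)} (ha : ∀ j < T, 1 ≤ a j) (hR : R.Nonempty) (hT : R.card ≤ T)
    (hNR : NR a T C Hi R L) :
    ∃ U : Fin r → Finset (Fin n), (∀ i ∈ R, (U i).card ≤ r ^ r * ((C + 1) * P a T)) ∧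
      ∀ π V, Ord R π → One a π (L.filter (fun f => ∀ i ∈ R, f i ∉ U i)) V →
        ¬ Av Hi π (fun _ => ∅) V := by
  have hNR' : ∀ π, ∃ Z : Fin r → Finset (Fin n), Ord R π →
      SizeOK a T C π Z ∧ ¬ ∃ U, Fork a π L U ∧ Av Hi π Z U := by
    intro π
    by_cases hπ : Ord R π
    · have := hNR π hπ
      unfold Robust at this
      push Not at this
      obtain ⟨Z, hZ1, hZ2⟩ := this
      exact ⟨Z, fun _ => ⟨hZ1, by push Not; exact hZ2⟩⟩
    · exact ⟨fun _ => ∅, fun h => absurd h hπ⟩
  choose Zf hZf using hNR'
  obtain ⟨k, u, hk, hu, hmax⟩ := max_family (a := a) (Hi := Hi) hR Zf (fun π hπ => (hZf π hπ).2)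
  have hRpos : 0 < R.card := Finset.card_pos.mpr hR
  refine ⟨fun j => (orders R).biUnion (fun π => Zf π j) ∪ (Finset.range k).biUnion (fun l => u l j),
    ?_, ?_⟩
  · intro i hi
    have h1 : ((orders R).biUnion (fun π => Zf π i)).card ≤ r ^ r * (C * P a T) := by
      calc _ ≤ ∑ π ∈ orders R, (Zf π i).card := Finset.card_biUnion_le
        _ ≤ ∑ π ∈ orders R, C * P a T := by
            apply Finset.sum_le_sum
            intro π hπ
            rw [mem_orders] at hπ
            refine SizeOK.le_of_mem (hZf π hπ).1 ?_ i ?_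
            · intro t ht
              rw [hπ.length] at ht
              exact Nat.mul_le_mul_left _ (E_le_P ha (by omega))
            · rw [← List.mem_toFinset, hπ.2]; exact hi
        _ = (orders R).card * (C * P a T) := by rw [Finset.sum_const, smul_eq_mul]
        _ ≤ _ := Nat.mul_le_mul_right _ (card_orders R)
    have h2 : ((Finset.range k).biUnion (fun l => u l i)).card ≤ r ^ r * P a T := by
      calc _ ≤ ∑ l ∈ Finset.range k, (u l i).card := Finset.card_biUnion_le
        _ ≤ ∑ l ∈ Finset.range k, P a (R.card - 1) := by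
            apply Finset.sum_le_sum
            intro l hl
            obtain ⟨π, hπ, h1, -⟩ := hu l (Finset.mem_range.mp hl)
            have := h1.card_le hπ.1 (fun j hj => ha j (by rw [hπ.length] at hj; omega)) i
            rwa [hπ.length] at this
        _ = k * P a (R.card - 1) := by rw [Finset.sum_const, smul_eq_mul, Finset.card_range]
        _ ≤ r ^ r * a (R.card - 1) * P a (R.card - 1) := Nat.mul_le_mul_right _ hk
        _ = r ^ r * P a (R.card - 1 + 1) := by rw [P_succ]; ring
        _ ≤ r ^ r * P a T := by
            apply Nat.mul_le_mul_left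
            exact P_mono ha (by omega)
    calc _ ≤ _ := Finset.card_union_le _ _
      _ ≤ r ^ r * (C * P a T) + r ^ r * P a T := Nat.add_le_add h1 h2
      _ = _ := by ring
  · intro π V hπ hV hAv
    have haπ : ∀ j < π.length, 1 ≤ a j := fun j hj => ha j (by rw [hπ.length] at hj; omega)
    have hval := hV.mem_val haπ
    have hdisj : ∀ j ∈ π, Disjoint (V j) ((orders R).biUnion (fun π => Zf π j) ∪
        (Finset.range k).biUnion (fun l => u l j)) := by
      intro j hj
      rw [Finset.disjoint_left]
      intro v hv hv2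
      obtain ⟨f, hf, hfj⟩ := hval j v hv
      rw [Finset.mem_filter] at hf
      apply hf.2 j (by rw [← hπ.2]; simpa using hj)
      rw [hfj]; exact hv2
    have hAv2 : Av Hi π (Zf π) V := by
      refine Av.change ?_ hAv
      intro j hj
      refine Finset.disjoint_of_subset_right ?_ (hdisj j hj)
      intro v hv
      exact Finset.mem_union_left _ (Finset.mem_biUnion.mpr ⟨π, mem_orders.mpr hπ, hv⟩)
    obtain ⟨l, hl, j, hj⟩ := hmax π V hπ (hV.mono (Finset.filter_subset _ _)) hAv2
    by_cases hjπ : j ∈ π
    · apply hj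
      refine Finset.disjoint_of_subset_right ?_ (hdisj j hjπ)
      intro v hv
      exact Finset.mem_union_right _ (Finset.mem_biUnion.mpr ⟨l, Finset.mem_range.mpr hl, hv⟩)
    · apply hj
      rw [hV.empty_of_notMem j hjπ]
      exact Finset.disjoint_empty_left _

end Pool.Agent.H20
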