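import Pool.Agent.H20.TM

set_option autoImplicit false

open scoped Classical
open Finset

namespace Pool.Agent.H20

noncomputable def sv (l z : ℝ) (i : ℕ) : ℝ := Real.exp (l - z / i)

lemma sv_pos (l z : ℝ) (i : ℕ) : 0 < sv l z i := Real.exp_pos _

/-- the branching numbers -/
noncomputable def br (r : ℕ) (l z : ℝ) (j : ℕ) : ℕ :=
  if j = 0 then ⌈Real.exp (l - z)⌉₊
  else if j < r - 1 then ⌈sv l z (j+1) / sv l z j⌉₊
  else ⌈min (Real.exp (l - z) * sv l z (r-1)) (sv l z r) / sv l z (r-1)⌉₊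

lemma ceil_two {y : ℝ} (hy : 1 ≤ y) : y ≤ (⌈y⌉₊ : ℝ) ∧ (⌈y⌉₊ : ℝ) ≤ 2 * y := by
  constructor
  · exact Nat.le_ceil y
  · have := (Nat.ceil_lt_add_one (by linarith : (0:ℝ) ≤ y)).le
    linarith

lemma one_le_ceil {y : ℝ} (hy : 1 ≤ y) : 1 ≤ ⌈y⌉₊ := by
  rw [Nat.one_le_ceil_iff]; linarith

lemma sv_ratio {l z : ℝ} (hz : 0 ≤ z) {i : ℕ} (hi : 1 ≤ i) : 1 ≤ sv l z (i+1) / sv l z i := by
  unfold sv
  rw [← Real.exp_sub]
  apply Real.one_le_exp
  have h1 : (1 : ℝ) ≤ i := by exact_mod_cast hi
  have h2 : z / ((i+1 : ℕ) : ℝ) ≤ z / i := by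
    apply div_le_div_of_nonneg_left hz (by linarith)
    push_cast; linarith
  linarith

section

variable {r : ℕ} (hr : 2 ≤ r) {l z : ℝ} (hz : 0 ≤ z) (hzl : z ≤ l)
include hr hz hzl

lemma P_br : ∀ m, 1 ≤ m → m ≤ r - 1 →
    sv l z m ≤ (P (br r l z) m : ℝ) ∧ (P (br r l z) m : ℝ) ≤ 2 ^ m * sv l z m := by
  intro m
  induction m with
  | zero => intro h; omega
  | succ m ih =>
    intro _ hm
    rcases Nat.eq_zero_or_pos m with h0 | h1
    · subst h0
      have hx : (1 : ℝ) ≤ Real.exp (l - z) := Real.one_le_exp (by linarith)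
      have h2 := ceil_two hx
      have h3 : P (br r l z) (0+1) = ⌈Real.exp (l - z)⌉₊ := by
        simp [P, br]
      rw [h3]
      simp only [sv]
      norm_num
      exact ⟨h2.1, h2.2⟩
    · obtain ⟨h2, h3⟩ := ih h1 (by omega)
      rw [P_succ]
      have h4 : br r l z m = ⌈sv l z (m+1) / sv l z m⌉₊ := by
        unfold br
        rw [if_neg (by omega), if_pos (by omega)]
      have h5 := ceil_two (sv_ratio (l := l) hz h1)
      rw [h4]
      push_cast
      have hs := sv_pos l z m
      have hs1 := sv_pos l z (m+1)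
      constructor
      · calc sv l z (m+1) = sv l z m * (sv l z (m+1) / sv l z m) := by field_simp
          _ ≤ _ := by
            apply mul_le_mul h2 h5.1 (by positivity) (by positivity)
      · calc (P (br r l z) m : ℝ) * (⌈sv l z (m+1) / sv l z m⌉₊ : ℝ)
            ≤ (2 ^ m * sv l z m) * (2 * (sv l z (m+1) / sv l z m)) := by
              apply mul_le_mul h3 h5.2 (by positivity) (by positivity)
          _ = 2 ^ (m+1) * sv l z (m+1) := by
              rw [pow_succ]; field_simp

lemma W_br : min (Real.exp (l - z) * sv l z (r-1)) (sv l z r) ≤ (P (br r l z) r : ℝ) ∧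
    (P (br r l z) r : ℝ) ≤ 2 ^ r * min (Real.exp (l - z) * sv l z (r-1)) (sv l z r) := by
  obtain ⟨m, rfl⟩ : ∃ m, r = m + 1 := ⟨r - 1, by omega⟩
  simp only [Nat.add_sub_cancel] at *
  obtain ⟨h2, h3⟩ := P_br hr hz hzl m (by omega) (by omega)
  rw [P_succ]
  have h4 : br (m+1) l z m = ⌈min (Real.exp (l - z) * sv l z m) (sv l z (m+1)) / sv l z m⌉₊ := by
    unfold br
    rw [if_neg (by omega), if_neg (by omega)]
    simp
  have hs := sv_pos l z m
  have hs1 := sv_pos l z (m+1)
  have hx : (1 : ℝ) ≤ Real.exp (l - z) := Real.one_le_exp (by linarith)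
  have h5 : 1 ≤ min (Real.exp (l - z) * sv l z m) (sv l z (m+1)) / sv l z m := by
    rw [le_div_iff₀ hs, one_mul]
    apply le_min
    · nlinarith
    · have := sv_ratio (l := l) hz (show 1 ≤ m by omega)
      rwa [le_div_iff₀ hs, one_mul] at this
  have h6 := ceil_two h5
  rw [h4]
  push_cast
  set W0 := min (Real.exp (l - z) * sv l z m) (sv l z (m+1)) with hW0
  have hW0p : 0 < W0 := by
    rw [hW0]; apply lt_min <;> positivity
  constructor
  · calc W0 = sv l z m * (W0 / sv l z m) := by field_simp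
      _ ≤ _ := by
        apply mul_le_mul h2 h6.1 (by positivity) (by positivity)
  · calc (P (br (m+1) l z) m : ℝ) * (⌈W0 / sv l z m⌉₊ : ℝ)
        ≤ (2 ^ m * sv l z m) * (2 * (W0 / sv l z m)) := by
          apply mul_le_mul h3 h6.2 (by positivity) (by positivity)
      _ = 2 ^ (m+1) * W0 := by
          rw [pow_succ]; field_simp

lemma br_pos : ∀ j < r, 1 ≤ br r l z j := by
  intro j hj
  have hx : (1 : ℝ) ≤ Real.exp (l - z) := Real.one_le_exp (by linarith)
  unfold br
  split_ifs with h1 h2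
  · exact one_le_ceil hx
  · exact one_le_ceil (sv_ratio hz (by omega))
  · apply one_le_ceil
    have hs := sv_pos l z (r-1)
    rw [le_div_iff₀ hs, one_mul]
    apply le_min
    · nlinarith
    · have := sv_ratio (l := l) hz (show 1 ≤ r - 1 by omega)
      rw [le_div_iff₀ hs, one_mul] at this
      rwa [show r - 1 + 1 = r by omega] at this

end

lemma pow_mul_exp (D A : ℝ) (k : ℕ) : (D * Real.exp A) ^ k = D ^ k * Real.exp (k * A) := by
  rw [mul_pow, ← Real.exp_nat_mul]

theorem Par_br {r : ℕ} (hr : 2 ≤ r) {n : ℕ} (hn : 1 ≤ n) {l z : ℝ} (hz : 0 ≤ z) (hzl : z ≤ l)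
    (hnl : (n : ℝ) = Real.exp l) :
    Par r n (Real.exp (l - z)) (((2:ℝ) ^ r) ^ (r+1)) (br r l z) := by
  set D : ℝ := (2:ℝ) ^ r with hD
  have hD1 : 1 ≤ D := one_le_pow₀ (by norm_num)
  have hD0 : 0 ≤ D := by linarith
  have hDpow : ∀ k ≤ r + 1, D ^ k ≤ D ^ (r+1) := fun k hk => pow_le_pow_right₀ hD1 hk
  set a := br r l z with ha
  have hlow : ∀ m, 1 ≤ m → m ≤ r - 1 → sv l z m ≤ (P a m : ℝ) :=
    fun m h1 h2 => (P_br hr hz hzl m h1 h2).1
  have hup : ∀ m, 1 ≤ m → m ≤ r - 1 → (P a m : ℝ) ≤ D * Real.exp (l - z / m) := by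
    intro m h1 h2
    refine (P_br hr hz hzl m h1 h2).2.trans ?_
    unfold sv
    rw [hD]
    gcongr
    · norm_num
    · omega
  have hW := W_br hr hz hzl
  rw [← ha, ← hD] at hW
  have hWr : (P a r : ℝ) ≤ D * Real.exp (l - z / r) := by
    refine hW.2.trans ?_
    apply mul_le_mul_of_nonneg_left _ hD0
    exact min_le_right _ _
  have hWr1 : (P a r : ℝ) ≤ D * Real.exp (2 * l - z - z / (r - 1 : ℕ)) := by
    refine hW.2.trans ?_
    apply mul_le_mul_of_nonneg_left _ hD0
    refine (min_le_left _ _).trans (le_of_eq ?_)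
    unfold sv
    rw [← Real.exp_add]
    congr 1
    ring
  have hEr : ∀ T q, 1 ≤ q → q ≤ T → T ≤ r - 1 →
      (E a T q : ℝ) ≤ D * Real.exp (z / q - z / T) := by
    intro T q h1 h2 h3
    have h4 : (E a T q : ℝ) * (P a q : ℝ) = P a T := by exact_mod_cast E_mul_P a h2
    have h5 := hlow q h1 (by omega)
    have h6 := hup T (by omega) h3
    have hs := sv_pos l z q
    have h7 : (E a T q : ℝ) * sv l z q ≤ D * Real.exp (l - z / T) := by
      calc (E a T q : ℝ) * sv l z q ≤ (E a T q : ℝ) * (P a q : ℝ) := by gcongr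
        _ = P a T := h4
        _ ≤ _ := h6
    have h8 : (E a T q : ℝ) ≤ D * Real.exp (l - z / T) / sv l z q := by
      rwa [le_div_iff₀ hs]
    refine h8.trans (le_of_eq ?_)
    unfold sv
    rw [mul_div_assoc, ← Real.exp_sub]
    congr 2
    ring
  have ha1 := br_pos hr hz hzl
  rw [← ha] at ha1
  refine ⟨Real.one_le_exp (by linarith), hn, one_le_pow₀ hD1, ha1, ?_, ?_, ?_, ?_, ?_, ?_, ?_⟩
  · -- xa
    have : a 0 = ⌈Real.exp (l - z)⌉₊ := by simp [ha, br]
    rw [this]
    exact Nat.le_ceil _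
  · -- p1
    intro M hM2 hMr
    obtain ⟨i, rfl⟩ : ∃ i, M = i + 1 := ⟨M - 1, by omega⟩
    simp only [Nat.add_sub_cancel]
    have hi : (1 : ℝ) ≤ i := by exact_mod_cast (show 1 ≤ i by omega)
    have h1 := hup i (by omega) (by omega)
    calc (n : ℝ) * (P a i : ℝ) ^ i ≤ n * (D * Real.exp (l - z / i)) ^ i := by gcongr
      _ = D ^ i * Real.exp (l - z + i * l) := by
          rw [pow_mul_exp, hnl, mul_left_comm, ← Real.exp_add]
          congr 2
          field_simp
          ring
      _ ≤ D ^ (r+1) * Real.exp (l - z + i * l) :=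
          mul_le_mul_of_nonneg_right (hDpow _ (by omega)) (Real.exp_pos _).le
      _ = _ := by
          rw [hnl, ← Real.exp_nat_mul, mul_assoc, ← Real.exp_add]
  · -- p2
    intro M τ q h1 h2 h3 h4 h5 h6
    obtain ⟨k, rfl⟩ : ∃ k, M = τ + k + 1 := ⟨M - τ - 1, by omega⟩
    have e1 : τ + k + 1 - 1 = τ + k := by omega
    have e2 : τ + k + 1 - τ - 1 = k := by omega
    rw [e1, e2]
    have hP := hup (τ + k) (by omega) (by omega)
    have hE := hEr (τ + k) q (by omega) (by omega) (by omega)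
    have hq : (2 : ℝ) ≤ q := by exact_mod_cast h4
    have hτ : (2 : ℝ) ≤ τ := by exact_mod_cast h1
    have hk : (1 : ℝ) ≤ k := by exact_mod_cast (show 1 ≤ k by omega)
    have hqτ : (τ : ℝ) + 1 ≤ 2 * q := by
      have : τ + 1 ≤ 2 * q := by omega
      exact_mod_cast this
    calc (n : ℝ) ^ τ * (P a (τ + k) : ℝ) ^ k * (E a (τ + k) q : ℝ)
        ≤ (n : ℝ) ^ τ * (D * Real.exp (l - z / (τ + k : ℕ))) ^ k *
          (D * Real.exp (z / q - z / (τ + k : ℕ))) := by gcongr
      _ = D ^ (k+1) * Real.exp (τ * l + k * (l - z / (τ + k : ℕ)) +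
          (z / q - z / (τ + k : ℕ))) := by
          rw [pow_mul_exp, hnl, ← Real.exp_nat_mul, Real.exp_add, Real.exp_add, pow_succ]
          ring
      _ ≤ D ^ (r+1) * Real.exp (l - z + ((τ + k : ℕ) : ℝ) * l) := by
          apply mul_le_mul (hDpow _ (by omega)) _ (Real.exp_pos _).le (by positivity)
          · apply Real.exp_le_exp.mpr
            push_cast
            have hpos : (0 : ℝ) < τ + k := by linarith
            have h7 : z / q + (τ - 1) * z / (τ + k) ≤ z := by
              have h8 : 1 / (q : ℝ) ≤ 2 / (τ + 1) := by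
                rw [div_le_div_iff₀ (by linarith) (by linarith)]
                linarith
              have h9 : (τ - 1 : ℝ) / (τ + k) ≤ (τ - 1) / (τ + 1) := by
                apply div_le_div_of_nonneg_left (by linarith) (by linarith) (by linarith)
              have h10 : (τ - 1 : ℝ) / (τ + 1) + 2 / (τ + 1) = 1 := by
                field_simp; ring
              have h11 : 1 / (q : ℝ) + (τ - 1 : ℝ) / (τ + k) ≤ 1 := by linarith
              calc z / q + (τ - 1) * z / (τ + k) = (1 / (q : ℝ) + (τ - 1 : ℝ) / (τ + k)) * z := by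
                    ring
                _ ≤ 1 * z := by gcongr
                _ = z := one_mul z
            have h8 : k * (l - z / (τ + k)) + (z / q - z / (τ + k)) =
                k * l - z + (z / q + (τ - 1) * z / (τ + k)) := by
              field_simp
              ring
            linarith
      _ = _ := by
          rw [hnl, ← Real.exp_nat_mul, mul_assoc, ← Real.exp_add]
  · -- p3
    intro M hM1 hMr
    obtain ⟨d, rfl⟩ : ∃ d, r = M + d := ⟨r - M, by omega⟩
    have e1 : M + d - M = d := by omega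
    rw [e1]
    have hr0 : (0 : ℝ) < ((M + d : ℕ) : ℝ) := by exact_mod_cast (show 0 < M + d by omega)
    have h1 : (P a (M + d) : ℝ) ≤ D * n := by
      refine hWr.trans ?_
      rw [hnl]
      gcongr
      have : 0 ≤ z / ((M + d : ℕ) : ℝ) := by positivity
      linarith
    have e2 : M + d - 1 = (M - 1) + d := by omega
    calc (n : ℝ) ^ (M - 1) * (P a (M + d) : ℝ) ^ d ≤ (n : ℝ) ^ (M-1) * (D * n) ^ d := by gcongr
      _ = D ^ d * (n : ℝ) ^ (M + d - 1) := by rw [e2, mul_pow, pow_add]; ring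
      _ ≤ _ := mul_le_mul_of_nonneg_right (hDpow _ (by omega)) (by positivity)
  · -- p5
    obtain ⟨i, hi⟩ : ∃ i, r = i + 1 := ⟨r - 1, by omega⟩
    have hr0 : (r : ℝ) ≠ 0 := by
      have : r ≠ 0 := by omega
      exact_mod_cast this
    calc (P a r : ℝ) ^ r ≤ (D * Real.exp (l - z / r)) ^ r := by gcongr
      _ = D ^ r * Real.exp (l - z + ((r - 1 : ℕ) : ℝ) * l) := by
          rw [pow_mul_exp]
          congr 2
          have : ((r - 1 : ℕ) : ℝ) = r - 1 := by
            rw [Nat.cast_sub (by omega)]; simp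
          rw [this]
          field_simp
          ring
      _ ≤ D ^ (r+1) * Real.exp (l - z + ((r - 1 : ℕ) : ℝ) * l) :=
          mul_le_mul_of_nonneg_right (hDpow _ (by omega)) (Real.exp_pos _).le
      _ = _ := by
          rw [hnl, ← Real.exp_nat_mul, mul_assoc, ← Real.exp_add]
  · -- p6
    intro T q hq1 hqT hTr
    obtain ⟨b, rfl⟩ : ∃ b, T = q + 1 + b := ⟨T - q - 1, by omega⟩
    obtain ⟨d, hd⟩ : ∃ d, r = q + 1 + b + 1 + d := ⟨r - (q + 1 + b) - 1, by omega⟩
    have e1 : r - (q + 1 + b) = 1 + d := by omega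
    have e2 : q + 1 + b - q - 1 = b := by omega
    rw [e1, e2]
    have hE := hEr (q + 1 + b) q hq1 (by omega) (by omega)
    have hP := hup (q + 1 + b) (by omega) (by omega)
    have hr1 : ((r - 1 : ℕ) : ℝ) = r - 1 := by
      rw [Nat.cast_sub (by omega)]; simp
    have hrR : (r : ℝ) = q + 1 + b + 1 + d := by rw [hd]; push_cast; ring
    have hq : (1 : ℝ) ≤ q := by exact_mod_cast hq1
    have hb : (0 : ℝ) ≤ b := Nat.cast_nonneg _
    have hd0 : (0 : ℝ) ≤ d := Nat.cast_nonneg _
    have hr0 : (0 : ℝ) < r := by rw [hrR]; linarith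
    have hrm : (0 : ℝ) < (r : ℝ) - 1 := by rw [hrR]; linarith
    calc (E a (q+1+b) q : ℝ) * (n : ℝ) ^ q * (P a r : ℝ) ^ (1 + d) * (P a (q+1+b) : ℝ) ^ b
        = (E a (q+1+b) q : ℝ) * (n : ℝ) ^ q * ((P a r : ℝ) * (P a r : ℝ) ^ d) *
          (P a (q+1+b) : ℝ) ^ b := by rw [pow_add, pow_one]
      _ ≤ (D * Real.exp (z / q - z / (q+1+b : ℕ))) * (n : ℝ) ^ q *
          ((D * Real.exp (2 * l - z - z / (r - 1 : ℕ))) * (D * Real.exp (l - z / r)) ^ d) *
          (D * Real.exp (l - z / (q+1+b : ℕ))) ^ b := by gcongr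
      _ = D ^ (2 + d + b) * Real.exp ((z / q - z / (q+1+b : ℕ)) + q * l +
          (2 * l - z - z / (r - 1 : ℕ)) + d * (l - z / r) + b * (l - z / (q+1+b : ℕ))) := by
          rw [pow_mul_exp, pow_mul_exp, hnl, ← Real.exp_nat_mul]
          simp only [Real.exp_add, pow_add]
          ring
      _ ≤ D ^ (r+1) * Real.exp (l - z + ((r - 1 : ℕ) : ℝ) * l) := by
          apply mul_le_mul (hDpow _ (by omega)) _ (Real.exp_pos _).le (by positivity)
          · apply Real.exp_le_exp.mpr
            rw [hr1]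
            push_cast
            have hT0 : (0 : ℝ) < q + 1 + b := by linarith
            -- key: 1/q + q/T ≤ 1 + 1/T
            have k1 : z / q + q * z / (q + 1 + b) ≤ z + z / (q + 1 + b) := by
              have h8 : 1 / (q : ℝ) + q / (q + 1 + b) ≤ 1 + 1 / (q + 1 + b) := by
                rw [div_add_div _ _ (by linarith) (by linarith), div_le_iff₀ (by positivity)]
                have h9 : (1 + 1 / ((q : ℝ) + 1 + b)) * (q * (q + 1 + b)) =
                    q * (q + 1 + b) + q := by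
                  field_simp
                rw [h9]
                nlinarith
              calc z / q + q * z / (q + 1 + b) = (1 / (q : ℝ) + q / (q + 1 + b)) * z := by ring
                _ ≤ (1 + 1 / ((q : ℝ) + 1 + b)) * z := by gcongr
                _ = _ := by ring
            have k2 : z / (q + 1 + b) ≤ z / (r - 1) + d * z / r := by
              have h8 : 1 / ((q : ℝ) + 1 + b) ≤ 1 / (r - 1) + d / r := by
                have h9 : 1 / ((q : ℝ) + 1 + b) - 1 / (r - 1) = d / ((q + 1 + b) * (r - 1)) := by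
                  rw [div_sub_div _ _ (by linarith) (by linarith)]
                  congr 1
                  rw [hrR]; ring
                have h10 : (d : ℝ) / ((q + 1 + b) * (r - 1)) ≤ d / r := by
                  apply div_le_div_of_nonneg_left hd0 hr0
                  have hT2 : (2 : ℝ) ≤ q + 1 + b := by linarith
                  have hr3 : (3 : ℝ) ≤ r := by rw [hrR]; linarith
                  nlinarith
                linarith
              calc z / (q + 1 + b) = (1 / ((q : ℝ) + 1 + b)) * z := by ring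
                _ ≤ (1 / (r - 1) + d / r) * z := by gcongr
                _ = _ := by ring
            have k3 : (b : ℝ) * (l - z / (q + 1 + b)) = b * l - z +
                (q * z / (q + 1 + b) + z / (q + 1 + b)) := by
              field_simp
              ring
            have k4 : (d : ℝ) * (l - z / r) = d * l - d * z / r := by ring
            have k5 : (r : ℝ) * l = q * l + 2 * l + d * l + b * l := by rw [hrR]; ring
            rw [k3, k4]
            linarith
      _ = _ := by
          rw [hnl, ← Real.exp_nat_mul, mul_assoc, ← Real.exp_add]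
  · -- p7
    intro m hm2 hmr
    obtain ⟨i, rfl⟩ : ∃ i, m = i + 1 := ⟨m - 1, by omega⟩
    obtain ⟨d, hd⟩ : ∃ d, r = i + 1 + d := ⟨r - (i + 1), by omega⟩
    have e1 : r - (i + 1) = d := by omega
    rw [e1, Nat.add_sub_cancel]
    have hr1 : ((r - 1 : ℕ) : ℝ) = r - 1 := by
      rw [Nat.cast_sub (by omega)]; simp
    have hrR : (r : ℝ) = i + 1 + d := by rw [hd]; push_cast; ring
    have hi : (1 : ℝ) ≤ i := by exact_mod_cast (show 1 ≤ i by omega)
    have hd0 : (0 : ℝ) ≤ d := Nat.cast_nonneg _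
    have hrm : (0 : ℝ) < (r : ℝ) - 1 := by rw [hrR]; linarith
    have h4 : (E a r i : ℝ) * (P a i : ℝ) = P a r := by exact_mod_cast E_mul_P a (by omega)
    have h5 := hlow i (by omega) (by omega)
    have hs := sv_pos l z i
    have h7 : (E a r i : ℝ) ≤ (P a r : ℝ) / sv l z i := by
      rw [le_div_iff₀ hs]
      calc (E a r i : ℝ) * sv l z i ≤ (E a r i : ℝ) * (P a i : ℝ) := by gcongr
        _ = P a r := h4
    calc (E a r i : ℝ) * (n : ℝ) ^ i * (P a r : ℝ) ^ d
        ≤ ((P a r : ℝ) / sv l z i) * (n : ℝ) ^ i * (P a r : ℝ) ^ d := by gcongr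
      _ = (P a r : ℝ) ^ (d+1) * (n : ℝ) ^ i / sv l z i := by rw [pow_succ]; ring
      _ ≤ (D * Real.exp (2 * l - z - z / (r - 1 : ℕ))) ^ (d+1) * (n : ℝ) ^ i / sv l z i := by
          gcongr
      _ = D ^ (d+1) * Real.exp (((d+1 : ℕ) : ℝ) * (2 * l - z - z / (r - 1 : ℕ)) + i * l -
          (l - z / i)) := by
          rw [pow_mul_exp, hnl, ← Real.exp_nat_mul]
          unfold sv
          rw [Real.exp_sub (_ + _), Real.exp_add]
          ring
      _ ≤ D ^ (r+1) * Real.exp (((d+1 : ℕ) : ℝ) * (l - z) + ((r - 1 : ℕ) : ℝ) * l) := by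
          apply mul_le_mul (hDpow _ (by omega)) _ (Real.exp_pos _).le (by positivity)
          · apply Real.exp_le_exp.mpr
            rw [hr1]
            push_cast
            have k1 : z / i ≤ (d + 1) * (z / (r - 1)) := by
              have h8 : 1 / (i : ℝ) ≤ (d + 1) / (r - 1) := by
                rw [div_le_div_iff₀ (by linarith) hrm, hrR]
                nlinarith
              calc z / i = (1 / (i : ℝ)) * z := by ring
                _ ≤ ((d + 1) / (r - 1)) * z := by gcongr
                _ = _ := by ring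
            have k5 : (r : ℝ) * l = i * l + l + d * l := by rw [hrR]; ring
            nlinarith
      _ = _ := by
          rw [hnl, ← Real.exp_nat_mul, ← Real.exp_nat_mul, mul_assoc, ← Real.exp_add]

/-- Existence of parameters. -/
theorem exists_par (r : ℕ) (hr : 2 ≤ r) : ∃ C0 : ℝ, ∀ (n : ℕ) (x : ℝ), 1 ≤ n → 1 ≤ x → x ≤ n →
    ∃ a : ℕ → ℕ, Par r n x C0 a ∧
      min (x * (x * (n : ℝ) ^ (r-2)) ^ (1 / ((r : ℝ) - 1))) ((x * (n : ℝ) ^ (r-1)) ^ (1 / (r : ℝ)))
        ≤ (P a r : ℝ) ∧
      (P a r : ℝ) ≤ 2 ^ r * (x * (n : ℝ) ^ (r-1)) ^ (1 / (r : ℝ)) := by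
  refine ⟨((2:ℝ) ^ r) ^ (r+1), ?_⟩
  intro n x hn hx hxn
  have hn0 : (0 : ℝ) < n := by exact_mod_cast (show 0 < n by omega)
  have hx0 : 0 < x := by linarith
  set l := Real.log n with hl
  set z := Real.log n - Real.log x with hzdef
  have hnl : (n : ℝ) = Real.exp l := (Real.exp_log hn0).symm
  have hxl : x = Real.exp (l - z) := by
    rw [hzdef, hl]
    have : Real.log n - (Real.log n - Real.log x) = Real.log x := by ring
    rw [this, Real.exp_log hx0]
  have hz : 0 ≤ z := by
    rw [hzdef]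
    have := Real.log_le_log hx0 hxn
    linarith
  have hzl : z ≤ l := by
    rw [hzdef, hl]
    have := Real.log_nonneg hx
    linarith
  have hr0 : (r : ℝ) ≠ 0 := by
    have : r ≠ 0 := by omega
    exact_mod_cast this
  have hr1 : ((r - 1 : ℕ) : ℝ) = r - 1 := by
    rw [Nat.cast_sub (by omega)]; simp
  have hr2 : ((r - 2 : ℕ) : ℝ) = r - 2 := by
    rw [Nat.cast_sub (by omega)]; simp
  have hrm : (r : ℝ) - 1 ≠ 0 := by
    rw [← hr1]
    have : r - 1 ≠ 0 := by omega
    exact_mod_cast this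
  have h1 : (x * (n : ℝ) ^ (r-1)) ^ (1 / (r : ℝ)) = sv l z r := by
    rw [hxl, hnl, ← Real.exp_nat_mul, ← Real.exp_add, ← Real.exp_mul, hr1]
    unfold sv
    congr 1
    field_simp
    ring
  have h2 : (x * (n : ℝ) ^ (r-2)) ^ (1 / ((r : ℝ) - 1)) = sv l z (r-1) := by
    rw [hxl, hnl, ← Real.exp_nat_mul, ← Real.exp_add, ← Real.exp_mul, hr2]
    unfold sv
    rw [hr1]
    congr 1
    field_simp
    ring
  have hW := W_br hr hz hzl
  refine ⟨br r l z, ?_, ?_, ?_⟩
  · rw [hxl]
    exact Par_br hr hn hz hzl hnl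
  · rw [h1, h2]
    conv_lhs => rw [hxl]
    exact hW.1
  · rw [h1]
    refine hW.2.trans ?_
    apply mul_le_mul_of_nonneg_left (min_le_right _ _) (by positivity)

end Pool.Agent.H20
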