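import Pool.Agent.H20.MM
import Pool.Agent.H20.Params
import Pool.Agent.H20.Extract

set_option autoImplicit false

open scoped Classical
open Finset

namespace Pool.Agent.H20

/-- for `n` large, `A ≤ n ^ δ`. -/
lemma exists_large (A δ : ℝ) (hδ : 0 < δ) : ∃ N : ℕ, ∀ n : ℕ, N ≤ n → A ≤ (n : ℝ) ^ δ := by
  have h1 : Filter.Tendsto (fun n : ℕ => (n : ℝ) ^ δ) Filter.atTop Filter.atTop :=
    (tendsto_rpow_atTop hδ).comp tendsto_natCast_atTop_atTop
  have h2 := h1.eventually_ge_atTop A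
  rw [Filter.eventually_atTop] at h2
  exact h2

theorem lower_bound (r : ℕ) (hr : 2 ≤ r) (ε : ℝ) (hε : 0 < ε) :
    ∃ c K : ℝ, 0 < c ∧ 1 ≤ K ∧ ∃ N : ℕ, ∀ n e : ℕ, N ≤ n →
      K * (n : ℝ) ^ (r - 1) ≤ (e : ℝ) → (e : ℝ) ≤ (n : ℝ) ^ ((r : ℝ) - ε) →
      ∃ H : Finset (Finset (Fin n)), (∀ h ∈ H, h.card = r) ∧
          c * min ((e : ℝ) ^ ((r : ℝ) / ((r : ℝ) - 1)) /
                (n : ℝ) ^ ((r : ℝ) - 1 + 1 / ((r : ℝ) - 1)))
              ((e : ℝ) ^ (1 / (r : ℝ))) ≤ (H.card : ℝ) ∧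
          ∀ G : Finset (Finset (Fin n)), (∀ g ∈ G, g.card = r) → G.card = e →
            ∃ φ : Fin n ↪ Fin n, ∀ h ∈ H, h.map φ ∈ G := by
  obtain ⟨C0, hC0⟩ := exists_par r hr
  obtain ⟨K1, hK1, hfork⟩ := exists_fork r (by omega) C0
  set K : ℝ := K1 * r ^ r + 1 with hK
  have hKpos : 1 ≤ K := by
    have : 0 ≤ K1 * (r : ℝ) ^ r := by positivity
    linarith
  have hK0 : 0 < K := by linarith
  have hrR : (2 : ℝ) ≤ r := by exact_mod_cast hr
  have hr0 : (0 : ℝ) < r := by linarith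
  have hrm : (0 : ℝ) < (r : ℝ) - 1 := by linarith
  obtain ⟨N0, hN0⟩ := exists_large ((r : ℝ) * 2 ^ r) (ε / r) (by positivity)
  refine ⟨K ^ (-((r : ℝ) / ((r : ℝ) - 1))), K, Real.rpow_pos_of_pos hK0 _, hKpos, max N0 1, ?_⟩
  intro n e hn hlow hup
  have hn1 : 1 ≤ n := le_trans (le_max_right _ _) hn
  have hnN : N0 ≤ n := le_trans (le_max_left _ _) hn
  have hn1R : (1 : ℝ) ≤ n := by exact_mod_cast hn1
  have hn0R : (0 : ℝ) < n := by linarith
  have hnp : (0 : ℝ) < (n : ℝ) ^ (r - 1) := by positivity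
  have he0 : (0 : ℝ) < e := lt_of_lt_of_le (by positivity) hlow
  set x : ℝ := e / (K * (n : ℝ) ^ (r - 1)) with hx
  have hx1 : 1 ≤ x := by
    rw [hx, le_div_iff₀ (by positivity), one_mul]
    exact hlow
  have hx0 : 0 < x := by linarith
  have hxe : x * (n : ℝ) ^ (r - 1) = e / K := by
    rw [hx]; field_simp
  have hen : (e : ℝ) ≤ (n : ℝ) ^ r := by
    refine hup.trans ?_
    rw [← Real.rpow_natCast]
    apply Real.rpow_le_rpow_of_exponent_le hn1R
    linarith
  have hxn : x ≤ n := by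
    rw [hx, div_le_iff₀ (by positivity)]
    calc (e : ℝ) ≤ (n : ℝ) ^ r := hen
      _ = (n : ℝ) * (1 * (n : ℝ) ^ (r - 1)) := by
          rw [one_mul, ← pow_succ']
          congr 1
          omega
      _ ≤ (n : ℝ) * (K * (n : ℝ) ^ (r - 1)) := by gcongr
  obtain ⟨a, hpar, hWlow, hWup⟩ := hC0 n x hn1 hx1 hxn
  -- r * W ≤ n
  have hrW : r * P a r ≤ n := by
    have h1 : (x * (n : ℝ) ^ (r - 1)) ^ (1 / (r : ℝ)) ≤ (n : ℝ) ^ (1 - ε / r) := by
      rw [hxe]
      calc ((e : ℝ) / K) ^ (1 / (r : ℝ)) ≤ (e : ℝ) ^ (1 / (r : ℝ)) := by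
            apply Real.rpow_le_rpow (by positivity) _ (by positivity)
            exact div_le_self he0.le hKpos
        _ ≤ ((n : ℝ) ^ ((r : ℝ) - ε)) ^ (1 / (r : ℝ)) := by
            apply Real.rpow_le_rpow he0.le hup (by positivity)
        _ = (n : ℝ) ^ (1 - ε / r) := by
            rw [← Real.rpow_mul hn0R.le]
            congr 1
            field_simp
    have h2 := hN0 n hnN
    have h3 : ((r * P a r : ℕ) : ℝ) ≤ n := by
      push_cast
      calc (r : ℝ) * (P a r : ℝ) ≤ r * (2 ^ r * (n : ℝ) ^ (1 - ε / r)) := by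
            gcongr
            exact hWup.trans (by gcongr)
        _ = (r * 2 ^ r) * (n : ℝ) ^ (1 - ε / r) := by ring
        _ ≤ (n : ℝ) ^ (ε / r) * (n : ℝ) ^ (1 - ε / r) := by gcongr
        _ = n := by
            rw [← Real.rpow_add hn0R]
            simp
    exact_mod_cast h3
  refine ⟨starH r n a, starH_unif hpar.a1 hrW, ?_, ?_⟩
  · rw [starH_card hpar.a1 hrW (by omega)]
    refine le_trans ?_ hWlow
    -- exponentials
    set le := Real.log e with hle
    set l := Real.log n with hl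
    set k := Real.log K with hk
    have e1 : (e : ℝ) = Real.exp le := (Real.exp_log he0).symm
    have e2 : (n : ℝ) = Real.exp l := (Real.exp_log hn0R).symm
    have e3 : K = Real.exp k := (Real.exp_log hK0).symm
    have hk0 : 0 ≤ k := Real.log_nonneg hKpos
    have hr1 : ((r - 1 : ℕ) : ℝ) = r - 1 := by
      rw [Nat.cast_sub (by omega)]; simp
    have hr2 : ((r - 2 : ℕ) : ℝ) = r - 2 := by
      rw [Nat.cast_sub (by omega)]; simp
    have e4 : x = Real.exp (le - k - (r - 1) * l) := by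
      rw [hx, e1, e2, e3, ← Real.exp_nat_mul, ← Real.exp_add, ← Real.exp_sub, hr1]
      congr 1
      ring
    apply le_min
    · calc K ^ (-((r : ℝ) / ((r : ℝ) - 1))) * min ((e : ℝ) ^ ((r : ℝ) / ((r : ℝ) - 1)) /
                (n : ℝ) ^ ((r : ℝ) - 1 + 1 / ((r : ℝ) - 1)))
              ((e : ℝ) ^ (1 / (r : ℝ)))
          ≤ K ^ (-((r : ℝ) / ((r : ℝ) - 1))) * ((e : ℝ) ^ ((r : ℝ) / ((r : ℝ) - 1)) /
                (n : ℝ) ^ ((r : ℝ) - 1 + 1 / ((r : ℝ) - 1))) := by
            apply mul_le_mul_of_nonneg_left (min_le_left _ _) (Real.rpow_nonneg hK0.le _)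
        _ = x * (x * (n : ℝ) ^ (r-2)) ^ (1 / ((r : ℝ) - 1)) := by
            rw [e4, e1, e2, e3, ← Real.exp_nat_mul, ← Real.exp_add, ← Real.exp_mul,
              ← Real.exp_mul, ← Real.exp_mul, ← Real.exp_mul, ← Real.exp_sub, ← Real.exp_add,
              ← Real.exp_add, hr2]
            congr 1
            field_simp
            ring
    · calc K ^ (-((r : ℝ) / ((r : ℝ) - 1))) * min ((e : ℝ) ^ ((r : ℝ) / ((r : ℝ) - 1)) /
                (n : ℝ) ^ ((r : ℝ) - 1 + 1 / ((r : ℝ) - 1)))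
              ((e : ℝ) ^ (1 / (r : ℝ)))
          ≤ K ^ (-((r : ℝ) / ((r : ℝ) - 1))) * ((e : ℝ) ^ (1 / (r : ℝ))) := by
            apply mul_le_mul_of_nonneg_left (min_le_right _ _) (Real.rpow_nonneg hK0.le _)
        _ ≤ K ^ (-(1 / (r : ℝ))) * ((e : ℝ) ^ (1 / (r : ℝ))) := by
            apply mul_le_mul_of_nonneg_right _ (Real.rpow_nonneg he0.le _)
            apply Real.rpow_le_rpow_of_exponent_le hKpos
            apply neg_le_neg
            rw [div_le_div_iff₀ hr0 hrm]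
            nlinarith
        _ = (x * (n : ℝ) ^ (r-1)) ^ (1 / (r : ℝ)) := by
            rw [hxe, Real.div_rpow he0.le hK0.le, Real.rpow_neg hK0.le]
            ring
  · intro G hG hGe
    obtain ⟨col, L, hL, hLc⟩ := exists_coloring (show 1 ≤ r by omega) G hG
    have hLbig : K1 * x * (n : ℝ) ^ (r-1) < (L.card : ℝ) := by
      rw [mul_assoc, hxe]
      have h1 : (e : ℝ) ≤ (L.card : ℝ) * (r : ℝ) ^ r := by
        rw [← hGe]
        exact_mod_cast hLc
      have hrr : (0 : ℝ) < (r : ℝ) ^ r := by positivity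
      have h2 : K1 * (e / K) * (r : ℝ) ^ r < (L.card : ℝ) * (r : ℝ) ^ r := by
        refine lt_of_lt_of_le ?_ h1
        calc K1 * (e / K) * (r : ℝ) ^ r = e * ((K1 * r ^ r) / K) := by ring
          _ < e * 1 := by
              apply mul_lt_mul_of_pos_left _ he0
              rw [div_lt_one hK0, hK]
              linarith
          _ = e := mul_one _
      exact lt_of_mul_lt_mul_right h2 hrr.le
    obtain ⟨π, U, hπ, hF⟩ := hfork n x a hpar L hLbig
    exact star_embed hpar.a1 hrW hπ hF col G hL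

end Pool.Agent.H20
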