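import Pool.Agent.H20.CT

set_option autoImplicit false

open scoped Classical
open Finset

namespace Pool.Agent.H20

variable {r n : ℕ}

lemma SizeOK.nonleaf {a : ℕ → ℕ} {T C B : ℕ} : ∀ {π : List (Fin r)}
    {Z : Fin r → Finset (Fin n)}, SizeOK a T C π Z →
    (∀ t, 1 ≤ t → t < π.length → C * E a T t ≤ B) → ∀ j ∈ π, π.getLast? ≠ some j →
    (Z j).card ≤ B
  | [], _, _, _, j, hj, _ => by simp at hj
  | [i], Z, h, h', j, hj, hl => by
      simp at hj
      subst hj
      simp at hl
  | (i :: b :: π), Z, h, h', j, hj, hl => by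
      rcases List.mem_cons.mp hj with rfl | hj
      · exact h.1.trans (h' _ (by simp) (by simp))
      · refine SizeOK.nonleaf h.2 (fun t ht1 ht => h' t ht1 (by simp at ht ⊢; omega)) j hj ?_
        rwa [List.getLast?_cons_cons] at hl

lemma Av.last {Hi : Fin r → Finset (Fin n)} : ∀ {π : List (Fin r)}
    {Z U : Fin r → Finset (Fin n)}, Av Hi π Z U → ∀ j, π.getLast? = some j →
    Disjoint (U j) (Hi j)
  | [], _, _, _, j, hl => by simp at hl
  | [i], Z, U, h, j, hl => by
      simp at hl
      subst hl
      exact h.2.1 rfl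
  | (i :: b :: π), Z, U, h, j, hl => by
      rw [List.getLast?_cons_cons] at hl
      exact Av.last h.2.2 j hl

lemma Av.change_last {Hi : Fin r → Finset (Fin n)} {π : List (Fin r)}
    {Z Z' U : Fin r → Finset (Fin n)}
    (h1 : ∀ j ∈ π, π.getLast? ≠ some j → Disjoint (U j) (Z' j))
    (h2 : ∀ j, π.getLast? = some j → Z' j ⊆ Hi j) (h : Av Hi π Z U) : Av Hi π Z' U := by
  refine Av.change ?_ h
  intro j hj
  by_cases hl : π.getLast? = some j
  · exact Finset.disjoint_of_subset_right (h2 j hl) (h.last j hl)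
  · exact h1 j hj hl

lemma One.nonleaf_card {a : ℕ → ℕ} {π : List (Fin r)} {L : Finset (Fin r → Fin n)}
    {U : Fin r → Finset (Fin n)} (hnd : π.Nodup) (ha : ∀ j < π.length, 1 ≤ a j)
    (hlen : 2 ≤ π.length) (h : One a π L U) : ∀ j, π.getLast? ≠ some j →
    (U j).card ≤ E a (π.length - 1) 1 := by
  intro j hl
  by_cases hj : j ∈ π
  · match π, hnd, ha, hlen, h, hl, hj with
    | (i :: b :: π), hnd, ha, hlen, h, hl, hj =>
      have ha' : ∀ j < (b :: π).length, 1 ≤ a j := fun j hj => ha j (by simp at hj ⊢; omega)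
      obtain ⟨h1, h2⟩ := One.size hnd h
      have hlen' : (i :: b :: π).length - 1 = (b :: π).length := by simp
      rw [hlen']
      rcases List.mem_cons.mp hj with rfl | hj
      · rw [h1]
        exact E_pos ha'
      · refine SizeOK.nonleaf h2 ?_ j hj (by rwa [List.getLast?_cons_cons] at hl)
        intro t ht1 ht
        rw [one_mul]
        exact E_anti_left ha' ht1 ht.le
  · rw [One.empty_of_notMem h j hj]
    simp

def MMprop (r : ℕ) (C0 : ℝ) (m C : ℕ) (K : ℝ) : Prop :=
  ∀ (n : ℕ) (x : ℝ) (a : ℕ → ℕ), Par r n x C0 a → ∀ (R : Finset (Fin r))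
    (L : Finset (Fin r → Fin n)), R.card = m → Det R L → NR a r C (fun _ => ∅) R L →
    (L.card : ℝ) * (P a r : ℝ) ^ (r - m) ≤ K * x ^ (r - m + 1) * (n : ℝ) ^ (r-1)

theorem MM_one (r : ℕ) (C0 : ℝ) (hr : 1 ≤ r) (C : ℕ) : ∃ K, 0 ≤ K ∧ MMprop r C0 1 C K := by
  by_cases hC0 : 0 ≤ C0
  swap
  · refine ⟨0, le_rfl, ?_⟩
    intro n x a hp
    exfalso
    have := hp.C1
    linarith
  set Q : ℝ := ((r ^ r * (C + 1) : ℕ) : ℝ) with hQ
  have hQ0 : 0 ≤ Q := Nat.cast_nonneg _
  refine ⟨Q * C0, by positivity, ?_⟩
  intro n x a hp R L hRm hDet hNR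
  have hx0 : 0 ≤ x := by linarith [hp.x1]
  have hn0 : (0 : ℝ) ≤ n := Nat.cast_nonneg _
  set W : ℝ := (P a r : ℝ) with hW
  have hW1 : 1 ≤ W := by rw [hW]; exact_mod_cast P_pos hp.a1
  have hW0 : 0 ≤ W := by linarith
  have hRne : R.Nonempty := Finset.card_pos.mp (by omega)
  obtain ⟨U, hU1, hU2⟩ := cover hp.a1 hRne (by omega) hNR
  obtain ⟨i, hi⟩ := Finset.card_eq_one.mp hRm
  have hiR : i ∈ R := by rw [hi]; simp
  have hL : ∀ f ∈ L, f i ∈ U i := by
    intro f hf
    by_contra hcon
    have hf2 : f ∈ L.filter (fun f => ∀ i ∈ R, f i ∉ U i) := by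
      rw [Finset.mem_filter]
      refine ⟨hf, ?_⟩
      intro j hj
      rw [hi, Finset.mem_singleton] at hj
      subst hj
      exact hcon
    exact hU2 [i] _ ⟨by simp, by simp [hi]⟩ (one_of_singleton hf2)
      (Av.of_disjoint (fun _ _ => Finset.disjoint_empty_right _)
          (fun _ _ => Finset.disjoint_empty_right _))
  have h1 : L.card ≤ (U i).card := by
    apply Finset.card_le_card_of_injOn (fun f => f i)
    · intro f hf
      exact hL f hf
    · intro f hf g hg hfg
      apply hDet f hf g hg
      intro j hj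
      rw [hi, Finset.mem_singleton] at hj
      subst hj
      exact hfg
  have h2 : (L.card : ℝ) ≤ Q * W := by
    have := h1.trans (hU1 i hiR)
    rw [hQ, hW]
    rw [← mul_assoc] at this
    exact_mod_cast this
  calc (L.card : ℝ) * W ^ (r - 1) ≤ (Q * W) * W ^ (r - 1) := by gcongr
    _ = Q * W ^ (r - 1 + 1) := by rw [pow_succ]; ring
    _ = Q * W ^ r := by congr 2; omega
    _ ≤ Q * (C0 * x * (n : ℝ) ^ (r-1)) := mul_le_mul_of_nonneg_left hp.p5 hQ0
    _ ≤ Q * (C0 * x ^ (r - 1 + 1) * (n : ℝ) ^ (r-1)) := by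
        gcongr
        exact le_self_pow₀ hp.x1 (by omega)
    _ = _ := by ring

theorem MM_step (r : ℕ) (C0 : ℝ) (m : ℕ) (hm2 : 2 ≤ m) (hmr : m ≤ r) (C : ℕ) (K' : ℝ)
    (hK'0 : 0 ≤ K') (hK' : MMprop r C0 (m-1) (C+1) K') : ∃ K, 0 ≤ K ∧ MMprop r C0 m C K := by
  by_cases hC0 : 0 ≤ C0
  swap
  · refine ⟨0, le_rfl, ?_⟩
    intro n x a hp
    exfalso
    have := hp.C1
    linarith
  set Q : ℝ := ((r ^ r : ℕ) : ℝ) with hQ
  have hQ0 : 0 ≤ Q := Nat.cast_nonneg _
  have hQ1 : 1 ≤ Q := by
    rw [hQ]
    have : 1 ≤ r ^ r := Nat.pow_pos (by omega)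
    exact_mod_cast this
  have hr0 : (0 : ℝ) < r := by exact_mod_cast (show 0 < r by omega)
  set C1 : ℝ := Q * (C + 4 * r) with hC1
  have hC10 : 0 ≤ C1 := by positivity
  obtain ⟨KC, hKC0, hKC⟩ := CT r C0 C1 hC10 m (by omega) hmr
  -- constants
  set KA : ℝ := r * (Q * (C + 1) * C0) with hKA
  set KB : ℝ := r * (Q * C * K') with hKB
  set KD : ℝ := 4 * (r * (Q * K') + C1 ^ m * C0 + KC) with hKD
  refine ⟨KA + KB + KD, by positivity, ?_⟩
  intro n x a hp R L hRm hDet hNR
  have hx0 : 0 ≤ x := by linarith [hp.x1]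
  have hn0 : (0 : ℝ) ≤ n := Nat.cast_nonneg _
  set W : ℝ := (P a r : ℝ) with hW
  have hW1 : 1 ≤ W := by rw [hW]; exact_mod_cast P_pos hp.a1
  have hW0 : 0 < W := by linarith
  have hRne : R.Nonempty := Finset.card_pos.mp (by omega)
  have hRr : (R.card : ℝ) ≤ r := by
    have : R.card ≤ r := by simpa using Finset.card_le_univ R
    exact_mod_cast this
  set B : ℝ := x ^ (r - m + 1) * (n : ℝ) ^ (r-1) with hB
  have hB0 : 0 ≤ B := by positivity
  have hxB : x * (n : ℝ) ^ (r-1) ≤ B := by
    rw [hB]
    gcongr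
    exact le_self_pow₀ hp.x1 (by omega)
  set w0 : ℝ := W ^ (r - m) with hw0
  have hw00 : 0 ≤ w0 := by positivity
  -- witnesses
  have hNR' : ∀ π, ∃ Z : Fin r → Finset (Fin n), Ord R π →
      SizeOK a r C π Z ∧ ¬ ∃ U, Fork a π L U ∧ Av (fun _ => ∅) π Z U := by
    intro π
    by_cases hπ : Ord R π
    · have := hNR π hπ
      unfold Robust at this
      push Not at this
      obtain ⟨Z, hZ1, hZ2⟩ := this
      exact ⟨Z, fun _ => ⟨hZ1, by push Not; exact hZ2⟩⟩
    · exact ⟨fun _ => ∅, fun h => absurd h hπ⟩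
  choose Zf hZf using hNR'
  -- rich vertices
  set Ri : Fin r → Finset (Fin n) := fun i => Rich a r C (fun _ => ∅) R L i with hRi
  have hRic : ∀ i ∈ R, ((Ri i).card : ℝ) ≤ Q * (C + 1) * (E a r (m-1) : ℝ) := by
    intro i hi
    have h1 := Rich_card hp.a1 hi (by omega) hNR
    rw [hRm, ← mul_assoc] at h1
    rw [hQ]
    exact_mod_cast h1
  have hcarderase : ∀ i ∈ R, (R.erase i).card = m - 1 := by
    intro i hi
    rw [Finset.card_erase_of_mem hi]; omega
  have hneerase : ∀ i ∈ R, R.erase i ≠ ∅ := by
    intro i hi h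
    have := hcarderase i hi
    rw [h] at this
    simp at this
    omega
  have hnonrich : ∀ i ∈ R, ∀ w, w ∉ Ri i →
      ((lk L i w).card : ℝ) * (W ^ (r - m + 1)) ≤ K' * x ^ (r - m + 2) * (n : ℝ) ^ (r-1) := by
    intro i hi w hw
    have hNRw : NR a r (C+1) (fun _ => ∅) (R.erase i) (lk L i w) := by
      by_contra hcon
      apply hw
      simp only [hRi]
      unfold Rich
      rw [Finset.mem_filter]
      exact ⟨Finset.mem_univ _, fun h => absurd h (hneerase i hi), hcon⟩
    have h3 := hK' n x a hp (R.erase i) (lk L i w) (hcarderase i hi) (hDet.lk i w) hNRw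
    have he1 : r - (m - 1) = r - m + 1 := by omega
    rw [he1] at h3
    exact h3
  -- rich edges
  have hrichedges : ∀ i ∈ R, ((L.filter (fun f => f i ∈ Ri i)).card : ℝ) * w0 ≤
      Q * (C + 1) * C0 * B := by
    intro i hi
    have h3 := card_fiber_real (L.filter (fun f => f i ∈ Ri i)) (fun f => f i)
      (Ri i) (fun f hf => (Finset.mem_filter.mp hf).2) ((n : ℝ) ^ (m-1)) (by
        intro w _
        have h4 := (hDet.lk i w).card_le
        rw [hcarderase i hi] at h4
        have h5 : ((L.filter (fun f => f i ∈ Ri i)).filter (fun f => f i = w)).card ≤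
            (lk L i w).card := by
          apply Finset.card_le_card
          intro f hf
          rw [Finset.mem_filter, Finset.mem_filter] at hf
          rw [mem_lk]
          exact ⟨hf.1.1, hf.2⟩
        exact_mod_cast h5.trans h4)
    calc ((L.filter (fun f => f i ∈ Ri i)).card : ℝ) * w0
        ≤ ((Ri i).card * (n : ℝ) ^ (m-1)) * w0 := by gcongr
      _ ≤ (Q * (C + 1) * (E a r (m-1) : ℝ) * (n : ℝ) ^ (m-1)) * w0 := by
          gcongr
          exact hRic i hi
      _ = Q * (C + 1) * ((E a r (m-1) : ℝ) * (n : ℝ) ^ (m-1) * W ^ (r-m)) := by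
          rw [hw0]; ring
      _ ≤ Q * (C + 1) * (C0 * x ^ (r-m+1) * (n : ℝ) ^ (r-1)) :=
          mul_le_mul_of_nonneg_left (hp.p7 m hm2 hmr) (by positivity)
      _ = _ := by rw [hB]; ring
  set L1 := L.filter (fun f => ∀ i ∈ R, f i ∉ Ri i) with hL1
  have hL1L : L1 ⊆ L := Finset.filter_subset _ _
  -- E a r 1 * x ≤ W
  have hE1 : (E a r 1 : ℝ) * x ≤ W := by
    have h1 : E a r 1 * P a 1 = P a r := E_mul_P a (by omega)
    have h2 : P a 1 = a 0 := by simp [P]
    rw [h2] at h1
    rw [hW, ← h1]
    push_cast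
    have := hp.xa
    gcongr
  -- blocking lemma
  have hblk : ∀ i ∈ R, ∀ (S : Finset (Fin n)) (c : ℝ), 0 ≤ c → (S.card : ℝ) ≤ c * (E a r 1 : ℝ) →
      ((L1.filter (fun f => f i ∈ S)).card : ℝ) * w0 ≤ c * K' * B := by
    intro i hi S c hc hS
    have h2 := card_fiber_weight (L1.filter (fun f => f i ∈ S)) (fun f => f i)
      S (fun f hf => (Finset.mem_filter.mp hf).2)
      (W ^ (r - m + 1)) (K' * x ^ (r - m + 2) * (n : ℝ) ^ (r-1)) (by
        intro w hw
        by_cases hwR : w ∈ Ri i
        · have : (L1.filter (fun f => f i ∈ S)).filter (fun f => f i = w) = ∅ := by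
            rw [Finset.eq_empty_iff_forall_notMem]
            intro f hf
            rw [Finset.mem_filter, Finset.mem_filter, hL1, Finset.mem_filter] at hf
            apply hf.1.1.2 i hi
            rw [hf.2]; exact hwR
          rw [this]
          simp only [Finset.card_empty, Nat.cast_zero, zero_mul]
          positivity
        · refine le_trans ?_ (hnonrich i hi w hwR)
          gcongr
          intro f hf
          rw [Finset.mem_filter, Finset.mem_filter] at hf
          rw [mem_lk]
          exact ⟨hL1L hf.1.1, hf.2⟩)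
    have h4 : ((L1.filter (fun f => f i ∈ S)).card : ℝ) * w0 * W ≤ (c * K' * B) * W := by
      calc ((L1.filter (fun f => f i ∈ S)).card : ℝ) * w0 * W
          = ((L1.filter (fun f => f i ∈ S)).card : ℝ) * (W ^ (r - m + 1)) := by
            rw [hw0, pow_succ]; ring
        _ ≤ (S.card : ℝ) * (K' * x ^ (r - m + 2) * (n : ℝ) ^ (r-1)) := h2
        _ ≤ (c * (E a r 1 : ℝ)) * (K' * x ^ (r - m + 2) * (n : ℝ) ^ (r-1)) := by gcongr
        _ = (c * K' * B) * ((E a r 1 : ℝ) * x) := by
            rw [hB, show r - m + 2 = (r - m + 1) + 1 from rfl, pow_succ x (r-m+1)]; ring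
        _ ≤ (c * K' * B) * W := by gcongr
    exact le_of_mul_le_mul_right h4 hW0
  -- non-leaf witnesses
  set NL : Fin r → Finset (Fin n) := fun i =>
    ((orders R).filter (fun π => π.getLast? ≠ some i)).biUnion (fun π => Zf π i) with hNL
  have hNLc : ∀ i ∈ R, ((NL i).card : ℝ) ≤ (Q * C) * (E a r 1 : ℝ) := by
    intro i hi
    have h1 : (NL i).card ≤ r ^ r * (C * E a r 1) := by
      calc (NL i).card ≤ ∑ π ∈ (orders R).filter (fun π => π.getLast? ≠ some i), (Zf π i).card :=
            Finset.card_biUnion_le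
        _ ≤ ∑ π ∈ (orders R).filter (fun π => π.getLast? ≠ some i), C * E a r 1 := by
            apply Finset.sum_le_sum
            intro π hπ
            rw [Finset.mem_filter, mem_orders] at hπ
            refine SizeOK.nonleaf (hZf π hπ.1).1 ?_ i ?_ hπ.2
            · intro t ht1 ht
              rw [hπ.1.length] at ht
              exact Nat.mul_le_mul_left _ (E_anti_left hp.a1 ht1 (by omega))
            · rw [← List.mem_toFinset, hπ.1.2]; exact hi
        _ = ((orders R).filter (fun π => π.getLast? ≠ some i)).card * (C * E a r 1) := by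
            rw [Finset.sum_const, smul_eq_mul]
        _ ≤ _ := Nat.mul_le_mul_right _ ((Finset.card_filter_le _ _).trans (card_orders R))
    rw [hQ, mul_assoc]
    exact_mod_cast h1
  set L2 := L1.filter (fun f => ∀ i ∈ R, f i ∉ NL i) with hL2
  have hL2L1 : L2 ⊆ L1 := Finset.filter_subset _ _
  have hL2L : L2 ⊆ L := hL2L1.trans hL1L
  -- bound of L by L2
  have hLL2 : (L.card : ℝ) * w0 ≤ (KA + KB) * B + (L2.card : ℝ) * w0 := by
    have hsub : L ⊆ L2 ∪ (R.biUnion (fun i => L.filter (fun f => f i ∈ Ri i)) ∪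
        R.biUnion (fun i => L1.filter (fun f => f i ∈ NL i))) := by
      intro f hf
      rw [Finset.mem_union, Finset.mem_union, Finset.mem_biUnion, Finset.mem_biUnion]
      by_cases h1 : ∀ i ∈ R, f i ∉ Ri i
      · have hf1 : f ∈ L1 := Finset.mem_filter.mpr ⟨hf, h1⟩
        by_cases h2 : ∀ i ∈ R, f i ∉ NL i
        · left; exact Finset.mem_filter.mpr ⟨hf1, h2⟩
        · right; right
          push Not at h2
          obtain ⟨i, hi, hfi⟩ := h2
          exact ⟨i, hi, Finset.mem_filter.mpr ⟨hf1, hfi⟩⟩
      · right; left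
        push Not at h1
        obtain ⟨i, hi, hfi⟩ := h1
        exact ⟨i, hi, Finset.mem_filter.mpr ⟨hf, hfi⟩⟩
    have hcard : (L.card : ℝ) ≤ L2.card +
        (∑ i ∈ R, ((L.filter (fun f => f i ∈ Ri i)).card : ℝ) +
        ∑ i ∈ R, ((L1.filter (fun f => f i ∈ NL i)).card : ℝ)) := by
      have h1 : L.card ≤ L2.card + (∑ i ∈ R, (L.filter (fun f => f i ∈ Ri i)).card +
          ∑ i ∈ R, (L1.filter (fun f => f i ∈ NL i)).card) :=
        (Finset.card_le_card hsub).trans ((Finset.card_union_le _ _).trans
          (Nat.add_le_add_left ((Finset.card_union_le _ _).trans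
          (Nat.add_le_add Finset.card_biUnion_le Finset.card_biUnion_le)) _))
      exact_mod_cast h1
    have h1 : (∑ i ∈ R, ((L.filter (fun f => f i ∈ Ri i)).card : ℝ)) * w0 ≤ KA * B := by
      rw [Finset.sum_mul]
      calc _ ≤ ∑ i ∈ R, (Q * (C + 1) * C0 * B) := Finset.sum_le_sum hrichedges
        _ = R.card * (Q * (C + 1) * C0 * B) := by rw [Finset.sum_const, nsmul_eq_mul]
        _ ≤ r * (Q * (C + 1) * C0 * B) := by gcongr
        _ = _ := by rw [hKA]; ring
    have h2 : (∑ i ∈ R, ((L1.filter (fun f => f i ∈ NL i)).card : ℝ)) * w0 ≤ KB * B := by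
      rw [Finset.sum_mul]
      calc _ ≤ ∑ i ∈ R, (Q * C * K' * B) :=
            Finset.sum_le_sum (fun i hi => hblk i hi (NL i) (Q * C) (by positivity) (hNLc i hi))
        _ = R.card * (Q * C * K' * B) := by rw [Finset.sum_const, nsmul_eq_mul]
        _ ≤ r * (Q * C * K' * B) := by gcongr
        _ = _ := by rw [hKB]; ring
    calc (L.card : ℝ) * w0 ≤ (L2.card +
        (∑ i ∈ R, ((L.filter (fun f => f i ∈ Ri i)).card : ℝ) +
        ∑ i ∈ R, ((L1.filter (fun f => f i ∈ NL i)).card : ℝ))) * w0 := by gcongr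
      _ = L2.card * w0 + ((∑ i ∈ R, ((L.filter (fun f => f i ∈ Ri i)).card : ℝ)) * w0 +
        (∑ i ∈ R, ((L1.filter (fun f => f i ∈ NL i)).card : ℝ)) * w0) := by ring
      _ ≤ _ := by linarith
  -- bound on L2
  have hL2bound : (L2.card : ℝ) * w0 ≤ KD * B := by
    by_cases he2 : L2.card = 0
    · rw [he2]
      simp only [Nat.cast_zero, zero_mul]
      positivity
    have he2pos : (0 : ℝ) < L2.card := by
      have : 0 < L2.card := Nat.pos_of_ne_zero he2
      exact_mod_cast this
    set High : Fin r → Finset (Fin n) := fun i => (Finset.univ : Finset (Fin n)).filter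
      (fun w => (L2.card : ℝ) < ((lk L2 i w).card : ℝ) * (4 * r * Q * W)) with hHigh
    have hHighc : ∀ i, ((High i).card : ℝ) ≤ 4 * r * Q * W := by
      intro i
      have h1 : ∑ w ∈ High i, ((lk L2 i w).card : ℝ) ≤ L2.card := by
        have h2 := Finset.card_eq_sum_card_fiberwise (f := fun f : Fin r → Fin n => f i) (s := L2)
          (t := Finset.univ) (fun _ _ => Finset.mem_univ _)
        rw [h2]
        push_cast
        apply Finset.sum_le_sum_of_subset_of_nonneg (Finset.subset_univ _)
        intro w _ _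
        positivity
      have h2 : ((High i).card : ℝ) * L2.card ≤ L2.card * (4 * r * Q * W) := by
        calc ((High i).card : ℝ) * L2.card = ∑ w ∈ High i, (L2.card : ℝ) := by
              rw [Finset.sum_const, nsmul_eq_mul]
          _ ≤ ∑ w ∈ High i, ((lk L2 i w).card : ℝ) * (4 * r * Q * W) := by
              apply Finset.sum_le_sum
              intro w hw
              simp only [hHigh, Finset.mem_filter] at hw
              exact hw.2.le
          _ = (∑ w ∈ High i, ((lk L2 i w).card : ℝ)) * (4 * r * Q * W) := by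
              rw [Finset.sum_mul]
          _ ≤ _ := by gcongr
      have h3 : ((High i).card : ℝ) * L2.card ≤ (4 * r * Q * W) * L2.card := by linarith
      exact le_of_mul_le_mul_right h3 he2pos
    set Hi : Fin r → Finset (Fin n) := fun i =>
      ((orders R).filter (fun π => π.getLast? = some i)).biUnion (fun π => Zf π i) ∪ High i
      with hHi
    have hHic : ∀ i, ((Hi i).card : ℝ) ≤ C1 * W := by
      intro i
      have h1 : (((orders R).filter (fun π => π.getLast? = some i)).biUnion
          (fun π => Zf π i)).card ≤ r ^ r * (C * P a r) := by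
        calc _ ≤ ∑ π ∈ (orders R).filter (fun π => π.getLast? = some i), (Zf π i).card :=
              Finset.card_biUnion_le
          _ ≤ ∑ π ∈ (orders R).filter (fun π => π.getLast? = some i), C * P a r := by
              apply Finset.sum_le_sum
              intro π hπ
              rw [Finset.mem_filter, mem_orders] at hπ
              refine SizeOK.le_of_mem (hZf π hπ.1).1 ?_ i ?_
              · intro t ht
                rw [hπ.1.length] at ht
                exact Nat.mul_le_mul_left _ (E_le_P hp.a1 (by omega))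
              · exact List.mem_of_getLast? hπ.2
          _ = ((orders R).filter (fun π => π.getLast? = some i)).card * (C * P a r) := by
              rw [Finset.sum_const, smul_eq_mul]
          _ ≤ _ := Nat.mul_le_mul_right _ ((Finset.card_filter_le _ _).trans (card_orders R))
      have h2 : ((((orders R).filter (fun π => π.getLast? = some i)).biUnion
          (fun π => Zf π i)).card : ℝ) ≤ Q * (C * W) := by
        rw [hQ, hW]
        exact_mod_cast h1
      have h3 : ((Hi i).card : ℝ) ≤ ((((orders R).filter (fun π => π.getLast? = some i)).biUnion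
          (fun π => Zf π i)).card : ℝ) + (High i).card := by
        exact_mod_cast Finset.card_union_le _ _
      have h4 := hHighc i
      calc ((Hi i).card : ℝ) ≤ Q * (C * W) + 4 * r * Q * W := by linarith
        _ = C1 * W := by rw [hC1]; ring
    -- max family
    obtain ⟨k, u, hk, hu, hmax⟩ := max_family (a := a) (Hi := Hi) (L := L) hRne Zf (by
      intro π hπ
      rintro ⟨U, hU1, hU2⟩
      exact (hZf π hπ).2 ⟨U, hU1, hU2.anti (fun _ _ => subset_rfl) (fun _ _ => by simp)⟩)
    choose! ord hord using hu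
    set FN : Fin r → Finset (Fin n) := fun j =>
      ((Finset.range k).filter (fun l => (ord l).getLast? ≠ some j)).biUnion (fun l => u l j)
      with hFN
    set FL : Fin r → Finset (Fin n) := fun j =>
      ((Finset.range k).filter (fun l => (ord l).getLast? = some j)).biUnion (fun l => u l j)
      with hFL
    have hFNc : ∀ j, ((FN j).card : ℝ) ≤ Q * (E a r 1 : ℝ) := by
      intro j
      have h1 : (FN j).card ≤ r ^ r * E a r 1 := by
        calc (FN j).card ≤ ∑ l ∈ (Finset.range k).filter (fun l => (ord l).getLast? ≠ some j),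
              (u l j).card := Finset.card_biUnion_le
          _ ≤ ∑ l ∈ (Finset.range k).filter (fun l => (ord l).getLast? ≠ some j),
              E a (m-1) 1 := by
              apply Finset.sum_le_sum
              intro l hl
              rw [Finset.mem_filter, Finset.mem_range] at hl
              obtain ⟨h1, h2, h3⟩ := hord l hl.1
              have hlen := h1.length
              have := h2.nonleaf_card h1.1 (fun j hj => hp.a1 j (by omega)) (by omega) j hl.2
              rwa [hlen, hRm] at this
          _ = ((Finset.range k).filter (fun l => (ord l).getLast? ≠ some j)).card *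
              E a (m-1) 1 := by rw [Finset.sum_const, smul_eq_mul]
          _ ≤ k * E a (m-1) 1 := by
              apply Nat.mul_le_mul_right
              exact (Finset.card_filter_le _ _).trans (by rw [Finset.card_range])
          _ ≤ (r ^ r * a (R.card - 1)) * E a (m-1) 1 := Nat.mul_le_mul_right _ hk
          _ = r ^ r * (E a (m-1) 1 * a (m-1)) := by rw [hRm]; ring
          _ = r ^ r * E a (m-1+1) 1 := by rw [E_succ a (by omega)]
          _ ≤ r ^ r * E a r 1 := by
              apply Nat.mul_le_mul_left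
              exact E_mono_right hp.a1 (by omega) (by omega)
      rw [hQ]
      exact_mod_cast h1
    have hFLc : ∀ j, ((FL j).card : ℝ) ≤ Q * W := by
      intro j
      have h1 : (FL j).card ≤ r ^ r * P a r := by
        calc (FL j).card ≤ ∑ l ∈ (Finset.range k).filter (fun l => (ord l).getLast? = some j),
              (u l j).card := Finset.card_biUnion_le
          _ ≤ ∑ l ∈ (Finset.range k).filter (fun l => (ord l).getLast? = some j),
              P a (m-1) := by
              apply Finset.sum_le_sum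
              intro l hl
              rw [Finset.mem_filter, Finset.mem_range] at hl
              obtain ⟨h1, h2, h3⟩ := hord l hl.1
              have hlen := h1.length
              have := h2.card_le h1.1 (fun j hj => hp.a1 j (by omega)) j
              rwa [hlen, hRm] at this
          _ = ((Finset.range k).filter (fun l => (ord l).getLast? = some j)).card *
              P a (m-1) := by rw [Finset.sum_const, smul_eq_mul]
          _ ≤ k * P a (m-1) := by
              apply Nat.mul_le_mul_right
              exact (Finset.card_filter_le _ _).trans (by rw [Finset.card_range])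
          _ ≤ (r ^ r * a (R.card - 1)) * P a (m-1) := Nat.mul_le_mul_right _ hk
          _ = r ^ r * (P a (m-1) * a (m-1)) := by rw [hRm]; ring
          _ = r ^ r * P a (m-1+1) := by rw [P_succ]
          _ ≤ r ^ r * P a r := by
              apply Nat.mul_le_mul_left
              exact P_mono hp.a1 (by omega)
      rw [hQ, hW]
      exact_mod_cast h1
    have hFLHi : ∀ j, ∀ w ∈ FL j, w ∉ Hi j := by
      intro j w hw
      simp only [hFL, Finset.mem_biUnion, Finset.mem_filter, Finset.mem_range] at hw
      obtain ⟨l, ⟨hl1, hl2⟩, hw⟩ := hw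
      obtain ⟨h1, h2, h3⟩ := hord l hl1
      exact Finset.disjoint_left.mp (h3.last j hl2) hw
    set L3 := L2.filter (fun f => ∀ j ∈ R, f j ∉ FN j ∧ f j ∉ FL j) with hL3
    set St := L3.filter (fun f => ∀ i ∈ R, f i ∈ Hi i) with hSt
    set L4 := L3.filter (fun f => ¬ ∀ i ∈ R, f i ∈ Hi i) with hL4
    have hL3L2 : L3 ⊆ L2 := Finset.filter_subset _ _
    have hL4L3 : L4 ⊆ L3 := Finset.filter_subset _ _
    -- stuck
    have hstuck : (St.card : ℝ) * w0 ≤ C1 ^ m * C0 * B := by
      have h1 : St.card ≤ ∏ i ∈ R, (Hi i).card := by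
        apply Det.card_le_prod (hDet.sub ((Finset.filter_subset _ _).trans (hL3L2.trans hL2L)))
        intro f hf i hi
        exact (Finset.mem_filter.mp hf).2 i hi
      have h2 : (St.card : ℝ) ≤ (C1 * W) ^ m := by
        calc (St.card : ℝ) ≤ ∏ i ∈ R, ((Hi i).card : ℝ) := by exact_mod_cast h1
          _ ≤ ∏ i ∈ R, (C1 * W) := by
              apply Finset.prod_le_prod
              · intro i _; positivity
              · intro i _; exact hHic i
          _ = (C1 * W) ^ m := by rw [Finset.prod_const, hRm]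
      calc (St.card : ℝ) * w0 ≤ (C1 * W) ^ m * W ^ (r - m) := by rw [hw0]; gcongr
        _ = C1 ^ m * W ^ (m + (r - m)) := by rw [mul_pow, pow_add W m]; ring
        _ = C1 ^ m * W ^ r := by congr 2; omega
        _ ≤ C1 ^ m * (C0 * x * (n : ℝ) ^ (r-1)) :=
            mul_le_mul_of_nonneg_left hp.p5 (by positivity)
        _ = C1 ^ m * C0 * (x * (n : ℝ) ^ (r-1)) := by ring
        _ ≤ _ := by gcongr
    -- L4
    have hL4b : (L4.card : ℝ) * w0 ≤ KC * B := by
      have h1 := hKC n x a hp Hi hHic R L4 hRm (hDet.sub (hL4L3.trans (hL3L2.trans hL2L)))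
        (by
          intro f hf
          have := (Finset.mem_filter.mp hf).2
          push Not at this
          exact this)
        (by
          intro π V hπ hV hAv
          have hval := hV.mem_val (fun j hj => hp.a1 j (by rw [hπ.length] at hj; omega))
          have hAv2 : Av Hi π (Zf π) V := by
            refine Av.change_last ?_ ?_ hAv
            · intro j hj hl
              rw [Finset.disjoint_left]
              intro v hv hv2
              obtain ⟨f, hf, hfj⟩ := hval j v hv
              have hf2 : f ∈ L2 := hL3L2 (hL4L3 hf)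
              rw [hL2, Finset.mem_filter] at hf2
              have hjR : j ∈ R := by rw [← hπ.2]; simpa using hj
              apply hf2.2 j hjR
              simp only [hNL, Finset.mem_biUnion, Finset.mem_filter]
              exact ⟨π, ⟨mem_orders.mpr hπ, hl⟩, by rw [hfj]; exact hv2⟩
            · intro j hl v hv
              simp only [hHi, Finset.mem_union, Finset.mem_biUnion, Finset.mem_filter]
              left
              exact ⟨π, ⟨mem_orders.mpr hπ, hl⟩, hv⟩
          obtain ⟨l, hl, j, hj⟩ := hmax π V hπ (hV.mono (hL4L3.trans (hL3L2.trans hL2L))) hAv2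
          apply hj
          by_cases hjπ : j ∈ π
          · rw [Finset.disjoint_left]
            intro v hv hv2
            obtain ⟨f, hf, hfj⟩ := hval j v hv
            have hf3 : f ∈ L3 := hL4L3 hf
            rw [hL3, Finset.mem_filter] at hf3
            have hjR : j ∈ R := by rw [← hπ.2]; simpa using hjπ
            have h5 := hf3.2 j hjR
            rw [hfj] at h5
            by_cases hlast : (ord l).getLast? = some j
            · apply h5.2
              simp only [hFL, Finset.mem_biUnion, Finset.mem_filter, Finset.mem_range]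
              exact ⟨l, ⟨hl, hlast⟩, hv2⟩
            · apply h5.1
              simp only [hFN, Finset.mem_biUnion, Finset.mem_filter, Finset.mem_range]
              exact ⟨l, ⟨hl, hlast⟩, hv2⟩
          · rw [hV.empty_of_notMem j hjπ]
            exact Finset.disjoint_empty_left _)
      calc (L4.card : ℝ) * w0 ≤ KC * x * (n : ℝ) ^ (r-1) := h1
        _ = KC * (x * (n : ℝ) ^ (r-1)) := by ring
        _ ≤ _ := by gcongr
    -- FN
    have hFNb : ∀ j ∈ R, ((L2.filter (fun f => f j ∈ FN j)).card : ℝ) * w0 ≤ Q * K' * B := by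
      intro j hj
      refine le_trans ?_ (hblk j hj (FN j) Q hQ0 (hFNc j))
      gcongr
    -- FL
    have hFLb : ∀ j ∈ R, ((L2.filter (fun f => f j ∈ FL j)).card : ℝ) * (4 * r) ≤ L2.card := by
      intro j hj
      have h2 := card_fiber_weight (L2.filter (fun f => f j ∈ FL j)) (fun f => f j)
        (FL j) (fun f hf => (Finset.mem_filter.mp hf).2) (4 * r * Q * W) (L2.card) (by
          intro w hw
          have h3 := hFLHi j w hw
          simp only [hHi, Finset.mem_union, not_or, hHigh, Finset.mem_filter, Finset.mem_univ,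
            true_and, not_lt] at h3
          refine le_trans ?_ h3.2
          gcongr
          intro f hf
          rw [Finset.mem_filter, Finset.mem_filter] at hf
          rw [mem_lk]
          exact ⟨hf.1.1, hf.2⟩)
      have h4 : ((L2.filter (fun f => f j ∈ FL j)).card : ℝ) * (4 * r) * (Q * W) ≤
          L2.card * (Q * W) := by
        calc ((L2.filter (fun f => f j ∈ FL j)).card : ℝ) * (4 * r) * (Q * W)
            = ((L2.filter (fun f => f j ∈ FL j)).card : ℝ) * (4 * r * Q * W) := by ring
          _ ≤ ((FL j).card : ℝ) * L2.card := h2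
          _ ≤ (Q * W) * L2.card := by
              gcongr
              exact hFLc j
          _ = _ := by ring
      exact le_of_mul_le_mul_right h4 (by positivity)
    have hsub : L2 ⊆ (St ∪ L4) ∪ (R.biUnion (fun j => L2.filter (fun f => f j ∈ FN j)) ∪
        R.biUnion (fun j => L2.filter (fun f => f j ∈ FL j))) := by
      intro f hf
      simp only [Finset.mem_union, Finset.mem_biUnion]
      by_cases h1 : ∀ j ∈ R, f j ∉ FN j ∧ f j ∉ FL j
      · left
        have h2 : f ∈ L3 := Finset.mem_filter.mpr ⟨hf, h1⟩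
        by_cases h3 : ∀ i ∈ R, f i ∈ Hi i
        · left; exact Finset.mem_filter.mpr ⟨h2, h3⟩
        · right; exact Finset.mem_filter.mpr ⟨h2, h3⟩
      · right
        push Not at h1
        obtain ⟨j, hj, hfj⟩ := h1
        by_cases h2 : f j ∈ FN j
        · left; exact ⟨j, hj, Finset.mem_filter.mpr ⟨hf, h2⟩⟩
        · right; exact ⟨j, hj, Finset.mem_filter.mpr ⟨hf, hfj h2⟩⟩
    have hcard : (L2.card : ℝ) ≤ (St.card + L4.card) +
        (∑ j ∈ R, ((L2.filter (fun f => f j ∈ FN j)).card : ℝ) +
        ∑ j ∈ R, ((L2.filter (fun f => f j ∈ FL j)).card : ℝ)) := by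
      have h1 : L2.card ≤ (St.card + L4.card) +
          (∑ j ∈ R, (L2.filter (fun f => f j ∈ FN j)).card +
          ∑ j ∈ R, (L2.filter (fun f => f j ∈ FL j)).card) :=
        (Finset.card_le_card hsub).trans ((Finset.card_union_le _ _).trans
          (Nat.add_le_add (Finset.card_union_le _ _) ((Finset.card_union_le _ _).trans
          (Nat.add_le_add Finset.card_biUnion_le Finset.card_biUnion_le))))
      exact_mod_cast h1
    have hs1 : (∑ j ∈ R, ((L2.filter (fun f => f j ∈ FN j)).card : ℝ)) * w0 ≤
        r * (Q * K') * B := by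
      rw [Finset.sum_mul]
      calc _ ≤ ∑ j ∈ R, (Q * K' * B) := Finset.sum_le_sum hFNb
        _ = R.card * (Q * K' * B) := by rw [Finset.sum_const, nsmul_eq_mul]
        _ ≤ r * (Q * K' * B) := by gcongr
        _ = _ := by ring
    have hs2 : (∑ j ∈ R, ((L2.filter (fun f => f j ∈ FL j)).card : ℝ)) * 4 ≤ L2.card := by
      have h1 : (∑ j ∈ R, ((L2.filter (fun f => f j ∈ FL j)).card : ℝ)) * (4 * r) ≤
          L2.card * r := by
        rw [Finset.sum_mul]
        calc _ ≤ ∑ j ∈ R, (L2.card : ℝ) := Finset.sum_le_sum hFLb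
          _ = R.card * L2.card := by rw [Finset.sum_const, nsmul_eq_mul]
          _ ≤ r * L2.card := by gcongr
          _ = _ := by ring
      have h2 : ((∑ j ∈ R, ((L2.filter (fun f => f j ∈ FL j)).card : ℝ)) * 4) * r ≤
          L2.card * r := by linarith
      exact le_of_mul_le_mul_right h2 hr0
    have hs3 : (L2.card : ℝ) * 3 ≤ 4 * ((St.card + L4.card) +
        (∑ j ∈ R, ((L2.filter (fun f => f j ∈ FN j)).card : ℝ))) := by linarith
    have hs4 : (L2.card : ℝ) * w0 * 3 ≤ 4 * (((St.card : ℝ) * w0 + (L4.card : ℝ) * w0) +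
        (∑ j ∈ R, ((L2.filter (fun f => f j ∈ FN j)).card : ℝ)) * w0) := by
      calc (L2.card : ℝ) * w0 * 3 = (L2.card : ℝ) * 3 * w0 := by ring
        _ ≤ (4 * ((St.card + L4.card) +
          (∑ j ∈ R, ((L2.filter (fun f => f j ∈ FN j)).card : ℝ)))) * w0 := by gcongr
        _ = _ := by ring
    have hL2n : 0 ≤ (L2.card : ℝ) * w0 := by positivity
    have hKDe : KD * B = 4 * (r * (Q * K') * B + C1 ^ m * C0 * B + KC * B) := by
      rw [hKD]; ring
    rw [hKDe]
    linarith
  calc (L.card : ℝ) * w0 ≤ (KA + KB) * B + (L2.card : ℝ) * w0 := hLL2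
    _ ≤ (KA + KB) * B + KD * B := by linarith
    _ = _ := by rw [hB]; ring

theorem MM (r : ℕ) (C0 : ℝ) : ∀ m, 1 ≤ m → m ≤ r → ∀ C : ℕ, ∃ K, 0 ≤ K ∧ MMprop r C0 m C K := by
  intro m
  induction m with
  | zero => intro h; omega
  | succ m ih =>
    intro _ hmr C
    rcases Nat.eq_zero_or_pos m with hm | hm
    · subst hm
      exact MM_one r C0 (by omega) C
    · obtain ⟨K', hK'0, hK'⟩ := ih hm (by omega) (C+1)
      exact MM_step r C0 (m+1) (by omega) hmr C K' hK'0 (by simpa using hK')

/-- Main combinatorial theorem: many edges give a fork. -/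
theorem exists_fork (r : ℕ) (hr : 1 ≤ r) (C0 : ℝ) : ∃ K : ℝ, 0 ≤ K ∧
    ∀ (n : ℕ) (x : ℝ) (a : ℕ → ℕ), Par r n x C0 a → ∀ L : Finset (Fin r → Fin n),
    K * x * (n : ℝ) ^ (r-1) < (L.card : ℝ) →
    ∃ (π : List (Fin r)) (U : Fin r → Finset (Fin n)), Ord Finset.univ π ∧ Fork a π L U := by
  obtain ⟨K, hK0, hK⟩ := MM r C0 r hr le_rfl 0
  refine ⟨K, hK0, ?_⟩
  intro n x a hp L hL
  by_contra hcon
  push Not at hcon
  have hNR : NR a r 0 (fun _ => ∅) (Finset.univ : Finset (Fin r)) L := by
    intro π hπ hrob
    obtain ⟨U, hU, -⟩ := hrob (fun _ => ∅) SizeOK.empty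
    exact hcon π U hπ hU
  have h1 := hK n x a hp Finset.univ L (by simp) (by
    intro f _ g _ h
    funext i
    exact h i (Finset.mem_univ i)) hNR
  rw [Nat.sub_self, pow_zero, mul_one, zero_add, pow_one] at h1
  linarith

end Pool.Agent.H20
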