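import Pool.Agent.H20.Greedy
import Pool.Agent.H20.Comb

set_option autoImplicit false

open scoped Classical
open Finset

namespace Pool.Agent.H20

/-- The numerical parameters. `W = P a r`. -/
structure Par (r n : ℕ) (x C0 : ℝ) (a : ℕ → ℕ) : Prop where
  x1 : 1 ≤ x
  n1 : 1 ≤ n
  C1 : 1 ≤ C0
  a1 : ∀ j < r, 1 ≤ a j
  xa : x ≤ (a 0 : ℝ)
  p1 : ∀ M, 2 ≤ M → M ≤ r →
    (n : ℝ) * (P a (M-1) : ℝ) ^ (M-1) ≤ C0 * x * (n : ℝ) ^ (M-1)
  p2 : ∀ M τ q, 2 ≤ τ → τ + 2 ≤ M → M ≤ r → 2 ≤ q → τ - 1 ≤ q → q + 2 ≤ M →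
    (n : ℝ) ^ τ * (P a (M-1) : ℝ) ^ (M-τ-1) * (E a (M-1) q : ℝ) ≤ C0 * x * (n : ℝ) ^ (M-1)
  p3 : ∀ M, 1 ≤ M → M ≤ r → (n : ℝ) ^ (M-1) * (P a r : ℝ) ^ (r-M) ≤ C0 * (n : ℝ) ^ (r-1)
  p5 : (P a r : ℝ) ^ r ≤ C0 * x * (n : ℝ) ^ (r-1)
  p6 : ∀ T q, 1 ≤ q → q + 1 ≤ T → T + 1 ≤ r →
    (E a T q : ℝ) * (n : ℝ) ^ q * (P a r : ℝ) ^ (r-T) * (P a T : ℝ) ^ (T-q-1) ≤
      C0 * x * (n : ℝ) ^ (r-1)
  p7 : ∀ m, 2 ≤ m → m ≤ r →
    (E a r (m-1) : ℝ) * (n : ℝ) ^ (m-1) * (P a r : ℝ) ^ (r-m) ≤
      C0 * x ^ (r-m+1) * (n : ℝ) ^ (r-1)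

variable {r n : ℕ}

lemma card_fiber_real {α β : Type*} [DecidableEq β] (s : Finset α) (f : α → β) (t : Finset β)
    (hf : ∀ x ∈ s, f x ∈ t) (N : ℝ) (h : ∀ b ∈ t, ((s.filter (fun x => f x = b)).card : ℝ) ≤ N) :
    (s.card : ℝ) ≤ t.card * N := by
  have h1 := Finset.card_eq_sum_card_fiberwise (f := f) (s := s) (t := t) hf
  rw [h1]
  push_cast
  calc (∑ b ∈ t, ((s.filter (fun x => f x = b)).card : ℝ)) ≤ ∑ b ∈ t, N := Finset.sum_le_sum h
    _ = t.card * N := by rw [Finset.sum_const, nsmul_eq_mul]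

/-- edges agreeing with `f` on `s`. -/
noncomputable def agr (L : Finset (Fin r → Fin n)) (s : Finset (Fin r)) (f : Fin r → Fin n) :
    Finset (Fin r → Fin n) := L.filter (fun g => ∀ i ∈ s, g i = f i)

lemma mem_agr {L : Finset (Fin r → Fin n)} {s : Finset (Fin r)} {f g : Fin r → Fin n} :
    g ∈ agr L s f ↔ g ∈ L ∧ ∀ i ∈ s, g i = f i := by simp [agr]

lemma agr_congr (L : Finset (Fin r → Fin n)) {s : Finset (Fin r)} {f g : Fin r → Fin n}
    (h : ∀ i ∈ s, g i = f i) : agr L s g = agr L s f := by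
  ext u
  rw [mem_agr, mem_agr]
  constructor
  · rintro ⟨h1, h2⟩; exact ⟨h1, fun i hi => by rw [h2 i hi, h i hi]⟩
  · rintro ⟨h1, h2⟩; exact ⟨h1, fun i hi => by rw [h2 i hi, h i hi]⟩

lemma agr_insert (L : Finset (Fin r → Fin n)) (s : Finset (Fin r)) (j : Fin r)
    (g : Fin r → Fin n) : agr L (insert j s) g = lk (agr L s g) j (g j) := by
  ext u
  rw [mem_agr, mem_lk, mem_agr]
  constructor
  · rintro ⟨h1, h2⟩
    exact ⟨⟨h1, fun i hi => h2 i (Finset.mem_insert_of_mem hi)⟩, h2 j (Finset.mem_insert_self _ _)⟩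
  · rintro ⟨⟨h1, h2⟩, h3⟩
    refine ⟨h1, fun i hi => ?_⟩
    rcases Finset.mem_insert.mp hi with rfl | hi
    · exact h3
    · exact h2 i hi

lemma agr_singleton (L : Finset (Fin r → Fin n)) (i : Fin r) (f : Fin r → Fin n) :
    agr L {i} f = lk L i (f i) := by
  ext u; rw [mem_agr, mem_lk]; simp

lemma Det.sub {R : Finset (Fin r)} {L L' : Finset (Fin r → Fin n)} (h : L' ⊆ L) (hD : Det R L) :
    Det R L' := fun f hf g hg hfg => hD f (h hf) g (h hg) hfg

lemma Det.agr {R : Finset (Fin r)} {L : Finset (Fin r → Fin n)} (hD : Det R L)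
    (s : Finset (Fin r)) (f : Fin r → Fin n) : Det (R \ s) (agr L s f) := by
  intro g hg g' hg' h
  rw [mem_agr] at hg hg'
  apply hD g hg.1 g' hg'.1
  intro i hi
  by_cases his : i ∈ s
  · rw [hg.2 i his, hg'.2 i his]
  · exact h i (Finset.mem_sdiff.mpr ⟨hi, his⟩)

lemma Det.lk {R : Finset (Fin r)} {L : Finset (Fin r → Fin n)} (hD : Det R L)
    (i : Fin r) (w : Fin n) : Det (R.erase i) (lk L i w) := by
  intro g hg g' hg' h
  rw [mem_lk] at hg hg'
  apply hD g hg.1 g' hg'.1
  intro j hj
  by_cases hji : j = i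
  · subst hji; rw [hg.2, hg'.2]
  · exact h j (Finset.mem_erase.mpr ⟨hji, hj⟩)

/-- trivial bound -/
lemma Det.card_le {R : Finset (Fin r)} {L : Finset (Fin r → Fin n)} (hD : Det R L) :
    L.card ≤ n ^ R.card := by
  have h1 : L.card ≤ (Finset.univ : Finset (R → Fin n)).card := by
    apply Finset.card_le_card_of_injOn (fun f => fun i : R => f i) (fun _ _ => Finset.mem_univ _)
    intro f hf g hg hfg
    apply hD f hf g hg
    intro i hi
    exact congrFun hfg ⟨i, hi⟩
  simpa using h1

lemma Det.card_le_prod {R : Finset (Fin r)} {L : Finset (Fin r → Fin n)} (hD : Det R L)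
    (S : Fin r → Finset (Fin n)) (hS : ∀ f ∈ L, ∀ i ∈ R, f i ∈ S i) :
    L.card ≤ ∏ i ∈ R, (S i).card := by
  have h1 : L.card ≤ (Fintype.piFinset (fun i : R => S i)).card := by
    apply Finset.card_le_card_of_injOn (fun f => fun i : R => f i)
    · intro f hf
      simp only [Finset.mem_coe, Fintype.mem_piFinset]
      intro i
      exact hS f hf i i.2
    · intro f hf g hg hfg
      apply hD f hf g hg
      intro i hi
      exact congrFun hfg ⟨i, hi⟩
  rw [Fintype.card_piFinset] at h1
  rw [← Finset.prod_coe_sort R (fun i => (S i).card)]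
  exact h1

lemma NR_of_noOne {a : ℕ → ℕ} {T : ℕ} {Hi : Fin r → Finset (Fin n)} {R : Finset (Fin r)}
    {L : Finset (Fin r → Fin n)}
    (h : ∀ π U, Ord R π → One a π L U → ¬ Av Hi π (fun _ => ∅) U) {i : Fin r} (hi : i ∈ R)
    {w : Fin n} (hw : R.erase i = ∅ → w ∉ Hi i) : NR a T 0 Hi (R.erase i) (lk L i w) := by
  intro π hπ hrob
  obtain ⟨U', hF, hAv⟩ := hrob (fun _ => ∅) SizeOK.empty
  have hnd := (hπ.cons hi).1
  rw [List.nodup_cons] at hnd
  apply h (i :: π) (Function.update U' i {w}) (hπ.cons hi) ⟨w, U', hF, rfl⟩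
  refine ⟨Finset.disjoint_empty_right _, ?_, ?_⟩
  · intro hnil
    rw [Function.update_self, Finset.disjoint_singleton_left]
    apply hw
    rw [← hπ.2, hnil]
    simp
  · refine Av.congr ?_ hAv
    intro j hj
    rw [Function.update_of_ne]
    rintro rfl
    exact hnd.1 hj

lemma unif (Pp : ℕ → ℝ → Prop) (mono : ∀ m K K', K ≤ K' → Pp m K → Pp m K') (M : ℕ)
    (h : ∀ m, 1 ≤ m → m < M → ∃ K, 0 ≤ K ∧ Pp m K) :
    ∃ K, 0 ≤ K ∧ ∀ m, 1 ≤ m → m < M → Pp m K := by
  have h' : ∀ m, ∃ K, 0 ≤ K ∧ (1 ≤ m → m < M → Pp m K) := by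
    intro m
    by_cases hm : 1 ≤ m ∧ m < M
    · obtain ⟨K, hK, hP⟩ := h m hm.1 hm.2
      exact ⟨K, hK, fun _ _ => hP⟩
    · exact ⟨0, le_rfl, fun h1 h2 => absurd ⟨h1, h2⟩ hm⟩
  choose K hK0 hK using h'
  refine ⟨∑ m ∈ Finset.range M, K m, Finset.sum_nonneg (fun m _ => hK0 m), ?_⟩
  intro m h1 h2
  refine mono m (K m) _ ?_ (hK m h1 h2)
  exact Finset.single_le_sum (f := K) (fun m _ => hK0 m) (Finset.mem_range.mpr h2)

/-- the star-free bound at level `M` -/
def TMprop (r : ℕ) (C0 : ℝ) (M : ℕ) (K : ℝ) : Prop :=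
  ∀ (n : ℕ) (x : ℝ) (a : ℕ → ℕ), Par r n x C0 a → ∀ (R : Finset (Fin r))
    (L : Finset (Fin r → Fin n)), R.card = M → Det R L → (∀ π U, Ord R π → ¬ One a π L U) →
    (L.card : ℝ) ≤ K * x * (n : ℝ) ^ (M-1)

lemma one_of_singleton {a : ℕ → ℕ} {i : Fin r} {L : Finset (Fin r → Fin n)} {f : Fin r → Fin n}
    (hf : f ∈ L) : One a [i] L (Function.update (fun _ => ∅) i {f i}) :=
  ⟨f i, fun _ => ∅, ⟨⟨f, mem_lk.mpr ⟨hf, rfl⟩⟩, rfl⟩, rfl⟩

theorem TM_step (r : ℕ) (C0 : ℝ) (M : ℕ) (hM1 : 1 ≤ M) (hMr : M ≤ r) (KL : ℝ) (hKL0 : 0 ≤ KL)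
    (hKL : ∀ m, 1 ≤ m → m < M → TMprop r C0 m KL) : ∃ K, 0 ≤ K ∧ TMprop r C0 M K := by
  by_cases hC0 : 0 ≤ C0
  swap
  · refine ⟨0, le_rfl, ?_⟩
    intro n x a hp
    exfalso
    have := hp.C1
    linarith
  set Dc : ℕ := Fintype.card ((Finset (Fin r) → Bool) × (Finset (Fin r) → Fin r)) with hDc
  set Q : ℝ := ((r ^ r * M : ℕ) : ℝ) with hQ
  have hQ0 : 0 ≤ Q := Nat.cast_nonneg _
  have hQ1 : 1 ≤ Q := by
    rw [hQ]
    have : 1 ≤ r ^ r * M := Nat.mul_pos (Nat.pow_pos (by omega)) hM1
    exact_mod_cast this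
  refine ⟨2 ^ r * KL + Dc * (Q ^ M * C0), by positivity, ?_⟩
  intro n x a hp R L hRM hDet hOne
  have hx0 : 0 ≤ x := by linarith [hp.x1]
  have hn0 : (0 : ℝ) ≤ n := Nat.cast_nonneg _
  have hn1 : (1 : ℝ) ≤ n := by exact_mod_cast hp.n1
  have hRne : R.Nonempty := Finset.card_pos.mp (by omega)
  by_cases hM : M = 1
  · -- L is empty
    have hL : L = ∅ := by
      rw [Finset.eq_empty_iff_forall_notMem]
      intro f hf
      rw [hM] at hRM
      obtain ⟨i, hi⟩ := Finset.card_eq_one.mp hRM
      exact hOne [i] _ ⟨by simp, by simp [hi]⟩ (one_of_singleton hf)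
    rw [hL]
    simp only [Finset.card_empty, Nat.cast_zero]
    positivity
  have hM2 : 2 ≤ M := by omega
  have ha : ∀ j < M - 1, 1 ≤ a j := fun j hj => hp.a1 j (by omega)
  -- covers
  have hcov : ∀ (s : Finset (Fin r)) (L' : Finset (Fin r → Fin n)),
      ∃ U : Fin r → Finset (Fin n), (s.Nonempty → s ⊆ R → s ≠ R →
      NR a (M-1) (s.card-1) (fun _ => ∅) (R \ s) L' →
      (∀ i ∈ R \ s, (U i).card ≤ r ^ r * (M * P a (M-1))) ∧ ∀ π V, Ord (R \ s) π →
        ¬ One a π (L'.filter (fun f => ∀ i ∈ R \ s, f i ∉ U i)) V) := by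
    intro s L'
    by_cases hs : s.Nonempty ∧ s ⊆ R ∧ s ≠ R ∧ NR a (M-1) (s.card-1) (fun _ => ∅) (R \ s) L'
    · obtain ⟨h1, h2, h3, h4⟩ := hs
      have hcs : (R \ s).card = R.card - s.card := Finset.card_sdiff_of_subset h2
      have hspos : 0 < s.card := Finset.card_pos.mpr h1
      have hsle := Finset.card_le_card h2
      have hRs : (R \ s).Nonempty := by
        rw [Finset.sdiff_nonempty]
        intro h
        exact h3 (subset_antisymm h2 h)
      obtain ⟨U, hU1, hU2⟩ := cover ha hRs (by omega) h4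
      refine ⟨U, fun _ _ _ _ => ⟨?_, ?_⟩⟩
      · intro i hi
        refine (hU1 i hi).trans ?_
        apply Nat.mul_le_mul_left
        apply Nat.mul_le_mul_right
        omega
      · intro π V hπ hV
        exact hU2 π V hπ hV (Av.of_disjoint (fun _ _ => Finset.disjoint_empty_right _)
          (fun _ _ => Finset.disjoint_empty_right _))
    · exact ⟨fun _ => ∅, fun h1 h2 h3 h4 => absurd ⟨h1, h2, h3, h4⟩ hs⟩
  choose UB hUB using hcov
  set Np : (Fin r → Fin n) → Finset (Fin r) → Prop := fun f s =>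
    s.Nonempty ∧ s ⊆ R ∧ NR a (M-1) (s.card-1) (fun _ => ∅) (R \ s) (agr L s f) with hNp
  -- Np f R is false for f ∈ L
  have hNpR : ∀ f ∈ L, ¬ Np f R := by
    intro f hf h
    have h3 := h.2.2
    rw [Finset.sdiff_self] at h3
    apply h3 [] ⟨List.nodup_nil, by simp⟩
    intro Z _
    exact ⟨fun _ => ∅, ⟨⟨f, mem_agr.mpr ⟨hf, fun _ _ => rfl⟩⟩, rfl⟩, trivial⟩
  have hNp1 : ∀ f, ∀ i ∈ R, Np f {i} := by
    intro f i hi
    refine ⟨Finset.singleton_nonempty i, Finset.singleton_subset_iff.mpr hi, ?_⟩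
    rw [agr_singleton, Finset.card_singleton, Finset.sdiff_singleton_eq_erase]
    exact NR_of_noOne (fun π U h1 h2 => absurd h2 (hOne π U h1)) hi (fun _ => by simp)
  set Left : Finset (Fin r) → Finset (Fin r → Fin n) := fun s =>
    L.filter (fun f => Np f s ∧ ∀ i ∈ R \ s, f i ∉ UB s (agr L s f) i) with hLeftdef
  have hLeft : ∀ s, ((Left s).card : ℝ) ≤ KL * x * (n : ℝ) ^ (M-1) := by
    intro s
    by_cases hne : (Left s).Nonempty
    swap
    · rw [Finset.not_nonempty_iff_eq_empty] at hne
      rw [hne]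
      simp only [Finset.card_empty, Nat.cast_zero]
      positivity
    obtain ⟨f0, hf0⟩ := hne
    simp only [hLeftdef, Finset.mem_filter] at hf0
    have hs1 := hf0.2.1.1
    have hs2 := hf0.2.1.2.1
    have hs3 : s ≠ R := by
      intro h
      rw [h] at hf0
      exact hNpR f0 hf0.1 hf0.2.1
    have hcs : (R \ s).card = R.card - s.card := Finset.card_sdiff_of_subset hs2
    have hspos : 0 < s.card := Finset.card_pos.mpr hs1
    have hslt : s.card < R.card := Finset.card_lt_card (Finset.ssubset_iff_subset_ne.mpr ⟨hs2, hs3⟩)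
    have h1 := card_fiber_real (Left s) (fun f => fun i : s => f i) Finset.univ
      (fun _ _ => Finset.mem_univ _) (KL * x * (n : ℝ) ^ (M - s.card - 1)) (by
        intro b _
        by_cases hne : ((Left s).filter (fun f => (fun i : s => f i) = b)).Nonempty
        swap
        · rw [Finset.not_nonempty_iff_eq_empty] at hne
          rw [hne]
          simp only [Finset.card_empty, Nat.cast_zero]
          positivity
        obtain ⟨g, hg⟩ := hne
        rw [Finset.mem_filter] at hg
        obtain ⟨hg1, hgb⟩ := hg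
        simp only [hLeftdef, Finset.mem_filter] at hg1
        have hNg := hg1.2.1.2.2
        have hU := hUB s (agr L s g) hs1 hs2 hs3 hNg
        have hsub : (Left s).filter (fun f => (fun i : s => f i) = b) ⊆
            (agr L s g).filter (fun f => ∀ i ∈ R \ s, f i ∉ UB s (agr L s g) i) := by
          intro f hf
          rw [Finset.mem_filter] at hf
          obtain ⟨hf1, hfb⟩ := hf
          simp only [hLeftdef, Finset.mem_filter] at hf1
          have hag : ∀ i ∈ s, f i = g i := by
            intro i hi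
            have := congrFun (hfb.trans hgb.symm) ⟨i, hi⟩
            exact this
          rw [Finset.mem_filter, mem_agr]
          refine ⟨⟨hf1.1, hag⟩, ?_⟩
          rw [← agr_congr L hag]
          exact hf1.2.2
        have h2 := hKL (M - s.card) (by omega) (by omega) n x a hp (R \ s)
          ((agr L s g).filter (fun f => ∀ i ∈ R \ s, f i ∉ UB s (agr L s g) i)) (by omega)
          ((hDet.agr s g).sub (Finset.filter_subset _ _)) hU.2
        refine le_trans ?_ h2
        exact_mod_cast Finset.card_le_card hsub)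
    refine h1.trans (le_of_eq ?_)
    rw [Finset.card_univ, Fintype.card_fun, Fintype.card_fin, Fintype.card_coe]
    push_cast
    have he : M - 1 = s.card + (M - s.card - 1) := by omega
    rw [he, pow_add]
    have he2 : s.card + (M - s.card - 1) - s.card = M - s.card - 1 := by omega
    ring
  set Lm := L.filter (fun f => ∀ s, f ∉ Left s) with hLm
  have hLsub : L ⊆ Lm ∪ (Finset.univ : Finset (Finset (Fin r))).biUnion Left := by
    intro f hf
    rw [Finset.mem_union, Finset.mem_biUnion, hLm, Finset.mem_filter]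
    by_cases h : ∀ s, f ∉ Left s
    · exact Or.inl ⟨hf, h⟩
    · push Not at h
      obtain ⟨s, hs⟩ := h
      exact Or.inr ⟨s, Finset.mem_univ _, hs⟩
  have hcardL : (L.card : ℝ) ≤ Lm.card + 2 ^ r * (KL * x * (n : ℝ) ^ (M-1)) := by
    have h1 : L.card ≤ Lm.card + ∑ s : Finset (Fin r), (Left s).card :=
      (Finset.card_le_card hLsub).trans ((Finset.card_union_le _ _).trans
        (Nat.add_le_add_left Finset.card_biUnion_le _))
    have h2 : (L.card : ℝ) ≤ Lm.card + ∑ s : Finset (Fin r), ((Left s).card : ℝ) := by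
      exact_mod_cast h1
    have h3 : ∑ s : Finset (Fin r), ((Left s).card : ℝ) ≤
        ∑ s : Finset (Fin r), KL * x * (n : ℝ) ^ (M-1) :=
      Finset.sum_le_sum (fun s _ => hLeft s)
    rw [Finset.sum_const, nsmul_eq_mul, Finset.card_univ, Fintype.card_finset,
      Fintype.card_fin] at h3
    push_cast at h3
    linarith
  -- the data
  have : Nonempty (Fin r) := ⟨⟨0, by omega⟩⟩
  have hjex : ∀ (f : Fin r → Fin n) (s : Finset (Fin r)), ∃ j : Fin r,
      f ∈ Lm → Np f s → j ∈ R ∧ j ∉ s ∧ f j ∈ UB s (agr L s f) j := by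
    intro f s
    by_cases h : f ∈ Lm ∧ Np f s
    · obtain ⟨h1, h2⟩ := h
      rw [hLm, Finset.mem_filter] at h1
      have h3 := h1.2 s
      simp only [hLeftdef, Finset.mem_filter, not_and] at h3
      have h4 := h3 h1.1 h2
      push Not at h4
      obtain ⟨j, hj1, hj2⟩ := h4
      rw [Finset.mem_sdiff] at hj1
      exact ⟨j, fun _ _ => ⟨hj1.1, hj1.2, hj2⟩⟩
    · exact ⟨Classical.arbitrary _, fun h1 h2 => absurd ⟨h1, h2⟩ h⟩
  choose jf hjf using hjex
  have hLmL : Lm ⊆ L := Finset.filter_subset _ _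
  have hmain := card_fiber_real Lm (fun f => ((fun s => decide (Np f s) : Finset (Fin r) → Bool),
      (fun s => jf f s : Finset (Fin r) → Fin r))) Finset.univ
      (fun _ _ => Finset.mem_univ _) (Q ^ M * C0 * x * (n : ℝ) ^ (M-1)) (by
    intro d _
    set LD := Lm.filter (fun f => ((fun s => decide (Np f s) : Finset (Fin r) → Bool),
      (fun s => jf f s : Finset (Fin r) → Fin r)) = d) with hLD
    by_cases hne : LD.Nonempty
    swap
    · rw [Finset.not_nonempty_iff_eq_empty] at hne
      rw [hne]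
      simp only [Finset.card_empty, Nat.cast_zero]
      positivity
    obtain ⟨f0, hf0⟩ := hne
    have hdata : ∀ f ∈ LD, f ∈ Lm ∧ (∀ s, Np f s ↔ Np f0 s) ∧ (∀ s, jf f s = jf f0 s) := by
      intro f hf
      rw [hLD, Finset.mem_filter] at hf hf0
      refine ⟨hf.1, ?_, ?_⟩
      · intro s
        have h1 := congrFun (congrArg Prod.fst (hf.2.trans hf0.2.symm)) s
        simpa using h1
      · intro s
        exact congrFun (congrArg Prod.snd (hf.2.trans hf0.2.symm)) s
    have hf0m := (hdata f0 hf0).1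
    have hS : Sys R (Np f0) (jf f0)
        (fun (A : Finset (Fin r)) (N : ℝ) => ∀ f : Fin r → Fin n,
          ((LD.filter (fun g => ∀ i ∈ A, g i = f i)).card : ℝ) ≤ N)
        (Q * P a (M-1)) n (fun q => Q * E a (M-1) q) := by
      refine ⟨?_, ?_, ?_, ?_, ?_, ?_, ?_, ?_, ?_, ?_, ?_⟩
      · intro s hs hN
        have := hjf f0 s hf0m hN
        exact ⟨this.1, this.2.1⟩
      · intro v hv
        exact hNp1 f0 v hv
      · exact hNpR f0 (hLmL hf0m)
      · intro h
        exact Finset.not_nonempty_empty h.1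
      · positivity
      · exact hn0
      · intro q; positivity
      · -- rU
        intro s A N hN hsA hAR hN0 hB f
        by_cases hne : (LD.filter (fun g => ∀ i ∈ A, g i = f i)).Nonempty
        swap
        · rw [Finset.not_nonempty_iff_eq_empty] at hne
          rw [hne]
          simp only [Finset.card_empty, Nat.cast_zero]
          positivity
        obtain ⟨g0, hg0⟩ := hne
        rw [Finset.mem_filter] at hg0
        have hs1 : s.Nonempty := hN.1
        have hs2 : s ⊆ R := hN.2.1
        have hs3 : s ≠ R := by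
          rintro rfl
          exact hNpR f0 (hLmL hf0m) hN
        have hNg : Np g0 s := ((hdata g0 hg0.1).2.1 s).mpr hN
        have hU := hUB s (agr L s g0) hs1 hs2 hs3 hNg.2.2
        have h1 := card_fiber_real (LD.filter (fun g => ∀ i ∈ A, g i = f i))
          (fun g => g (jf f0 s)) (UB s (agr L s g0) (jf f0 s)) (by
            intro g hg
            rw [Finset.mem_filter] at hg
            have hd := hdata g hg.1
            have h2 := (hjf g s hd.1 ((hd.2.1 s).mpr hN)).2.2
            rw [hd.2.2 s] at h2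
            have hag : ∀ i ∈ s, g i = g0 i := by
              intro i hi
              rw [hg.2 i (hsA hi), hg0.2 i (hsA hi)]
            rwa [agr_congr L hag] at h2) N (by
            intro w _
            refine le_trans ?_ (hB (Function.update f (jf f0 s) w))
            norm_cast
            apply Finset.card_le_card
            intro g hg
            rw [Finset.mem_filter, Finset.mem_filter] at hg
            rw [Finset.mem_filter]
            refine ⟨hg.1.1, ?_⟩
            intro i hi
            by_cases hij : i = jf f0 s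
            · rw [hij, Function.update_self]; exact hg.2
            · rw [Function.update_of_ne hij]
              exact hg.1.2 i ((Finset.mem_insert.mp hi).resolve_left hij))
        refine h1.trans ?_
        apply mul_le_mul_of_nonneg_right _ hN0
        have hj := hjf f0 s hf0m hN
        have h3 := hU.1 (jf f0 s) (Finset.mem_sdiff.mpr ⟨hj.1, hj.2.1⟩)
        rw [hQ]
        have h4 : (UB s (agr L s g0) (jf f0 s)).card ≤ (r ^ r * M) * P a (M-1) := by
          rw [mul_assoc]; exact h3
        exact_mod_cast h4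
      · -- rR
        intro s A N hN hN' hsA hAR hN0 hB f
        by_cases hne : (LD.filter (fun g => ∀ i ∈ A, g i = f i)).Nonempty
        swap
        · rw [Finset.not_nonempty_iff_eq_empty] at hne
          rw [hne]
          simp only [Finset.card_empty, Nat.cast_zero]
          positivity
        obtain ⟨g0, hg0⟩ := hne
        rw [Finset.mem_filter] at hg0
        have hs1 : s.Nonempty := hN.1
        have hs2 : s ⊆ R := hN.2.1
        have hspos : 0 < s.card := Finset.card_pos.mpr hs1
        have hsle := Finset.card_le_card hs2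
        have hNg : Np g0 s := ((hdata g0 hg0.1).2.1 s).mpr hN
        have hj := hjf f0 s hf0m hN
        have hjmem : jf f0 s ∈ R \ s := Finset.mem_sdiff.mpr ⟨hj.1, hj.2.1⟩
        have hcs : (R \ s).card = R.card - s.card := Finset.card_sdiff_of_subset hs2
        have hRich := Rich_card (i := jf f0 s) ha hjmem (by omega) hNg.2.2
        have h1 := card_fiber_real (LD.filter (fun g => ∀ i ∈ A, g i = f i))
          (fun g => g (jf f0 s)) (Rich a (M-1) (s.card-1) (fun _ => ∅) (R \ s) (agr L s g0)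
            (jf f0 s)) (by
            intro g hg
            rw [Finset.mem_filter] at hg
            have hd := hdata g hg.1
            have hag : ∀ i ∈ s, g i = g0 i := by
              intro i hi
              rw [hg.2 i (hsA hi), hg0.2 i (hsA hi)]
            unfold Rich
            rw [Finset.mem_filter]
            refine ⟨Finset.mem_univ _, fun _ => by simp, ?_⟩
            intro hNRj
            apply hN'
            rw [← (hdata g hg.1).2.1]
            refine ⟨Finset.insert_nonempty _ _, Finset.insert_subset hj.1 hs2, ?_⟩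
            rw [agr_insert, agr_congr L hag, Finset.card_insert_of_notMem hj.2.1]
            have he : s.card + 1 - 1 = s.card - 1 + 1 := by omega
            rw [he, Finset.sdiff_insert]
            exact hNRj) N (by
            intro w _
            refine le_trans ?_ (hB (Function.update f (jf f0 s) w))
            norm_cast
            apply Finset.card_le_card
            intro g hg
            rw [Finset.mem_filter, Finset.mem_filter] at hg
            rw [Finset.mem_filter]
            refine ⟨hg.1.1, ?_⟩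
            intro i hi
            by_cases hij : i = jf f0 s
            · rw [hij, Function.update_self]; exact hg.2
            · rw [Function.update_of_ne hij]
              exact hg.1.2 i ((Finset.mem_insert.mp hi).resolve_left hij))
        refine h1.trans ?_
        apply mul_le_mul_of_nonneg_right _ hN0
        rw [hQ]
        have h4 : (Rich a (M-1) (s.card-1) (fun _ => ∅) (R \ s) (agr L s g0)
            (jf f0 s)).card ≤ (r ^ r * M) * E a (M-1) (R.card - s.card - 1) := by
          refine hRich.trans ?_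
          rw [hcs, mul_assoc]
          apply Nat.mul_le_mul_left
          apply Nat.mul_le_mul_right
          omega
        exact_mod_cast h4
      · -- rF
        intro v A N hv hAR hN0 hB f
        have h1 := card_fiber_real (LD.filter (fun g => ∀ i ∈ A, g i = f i))
          (fun g => g v) Finset.univ (fun _ _ => Finset.mem_univ _) N (by
            intro w _
            refine le_trans ?_ (hB (Function.update f v w))
            norm_cast
            apply Finset.card_le_card
            intro g hg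
            rw [Finset.mem_filter, Finset.mem_filter] at hg
            rw [Finset.mem_filter]
            refine ⟨hg.1.1, ?_⟩
            intro i hi
            by_cases hij : i = v
            · rw [hij, Function.update_self]; exact hg.2
            · rw [Function.update_of_ne hij]
              exact hg.1.2 i ((Finset.mem_insert.mp hi).resolve_left hij))
        rw [Finset.card_univ, Fintype.card_fin] at h1
        exact h1
      · -- r1
        intro f
        have : (LD.filter (fun g => ∀ i ∈ R, g i = f i)).card ≤ 1 := by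
          rw [Finset.card_le_one]
          intro g hg g' hg'
          rw [Finset.mem_filter] at hg hg'
          apply hDet g (hLmL (hdata g hg.1).1) g' (hLmL (hdata g' hg'.1).1)
          intro i hi
          rw [hg.2 i hi, hg'.2 i hi]
        exact_mod_cast this
    have hfin : ∀ N : ℝ, (∀ f : Fin r → Fin n, ((LD.filter (fun g => ∀ i ∈ (∅ : Finset (Fin r)),
        g i = f i)).card : ℝ) ≤ N) → (LD.card : ℝ) ≤ N := by
      intro N h
      refine le_trans ?_ (h f0)
      norm_cast
      apply Finset.card_le_card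
      intro g hg
      rw [Finset.mem_filter]
      exact ⟨hg, fun i hi => absurd hi (Finset.notMem_empty i)⟩
    rcases hS.main hRne with h | ⟨τ, q, h1, h2, h3, h4, h5, h⟩
    · refine (hfin _ h).trans ?_
      rw [hRM, mul_pow]
      have h6 := hp.p1 M hM2 hMr
      calc (n : ℝ) * (Q ^ (M-1) * (P a (M-1) : ℝ) ^ (M-1))
          = Q ^ (M-1) * ((n : ℝ) * (P a (M-1) : ℝ) ^ (M-1)) := by ring
        _ ≤ Q ^ (M-1) * (C0 * x * (n : ℝ) ^ (M-1)) :=
            mul_le_mul_of_nonneg_left h6 (pow_nonneg hQ0 _)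
        _ ≤ Q ^ M * (C0 * x * (n : ℝ) ^ (M-1)) := by
            apply mul_le_mul_of_nonneg_right _ (by positivity)
            exact pow_le_pow_right₀ hQ1 (by omega)
        _ = _ := by ring
    · refine (hfin _ h).trans ?_
      rw [hRM] at h2 h5 ⊢
      have h6 := hp.p2 M τ q h1 h2 hMr h3 h4 h5
      rw [mul_pow]
      calc (n : ℝ) ^ τ * (Q ^ (M-τ-1) * (P a (M-1) : ℝ) ^ (M-τ-1)) * (Q * (E a (M-1) q : ℝ))
          = Q ^ (M-τ-1+1) * ((n : ℝ) ^ τ * (P a (M-1) : ℝ) ^ (M-τ-1) * (E a (M-1) q : ℝ)) := by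
            ring
        _ ≤ Q ^ (M-τ-1+1) * (C0 * x * (n : ℝ) ^ (M-1)) :=
            mul_le_mul_of_nonneg_left h6 (pow_nonneg hQ0 _)
        _ ≤ Q ^ M * (C0 * x * (n : ℝ) ^ (M-1)) := by
            apply mul_le_mul_of_nonneg_right _ (by positivity)
            exact pow_le_pow_right₀ hQ1 (by omega)
        _ = _ := by ring)
  rw [Finset.card_univ, ← hDc] at hmain
  calc (L.card : ℝ) ≤ Lm.card + 2 ^ r * (KL * x * (n : ℝ) ^ (M-1)) := hcardL
    _ ≤ Dc * (Q ^ M * C0 * x * (n : ℝ) ^ (M-1)) + 2 ^ r * (KL * x * (n : ℝ) ^ (M-1)) := by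
        linarith
    _ = _ := by ring

theorem TM (r : ℕ) (C0 : ℝ) : ∀ M, 1 ≤ M → M ≤ r → ∃ K, 0 ≤ K ∧ TMprop r C0 M K := by
  intro M
  induction M using Nat.strong_induction_on with
  | _ M ih =>
    intro h1 hr
    obtain ⟨KL, hKL0, hKL⟩ := unif (TMprop r C0) (by
      intro m K K' hK h n x a hp R L h1 h2 h3
      refine (h n x a hp R L h1 h2 h3).trans ?_
      have hx0 : 0 ≤ x := by linarith [hp.x1]
      gcongr) M (fun m h1 h2 => ih m h2 h1 (by omega))
    exact TM_step r C0 M h1 hr KL hKL0 hKL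

end Pool.Agent.H20
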