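import Mathlib

set_option autoImplicit false

open scoped Classical
open Finset

namespace Pool.Agent.H20

variable {n : ℕ}

/-- unavoidability -/
def Un (r e : ℕ) (H : Finset (Finset (Fin n))) : Prop :=
  ∀ G : Finset (Finset (Fin n)), (∀ g ∈ G, g.card = r) → G.card = e →
    ∃ φ : Fin n ↪ Fin n, ∀ h ∈ H, h.map φ ∈ G

lemma Un.mono {r e : ℕ} {H : Finset (Finset (Fin n))} (hH : Un r e H)
    (G : Finset (Finset (Fin n))) (hG : ∀ g ∈ G, g.card = r) (he : e ≤ G.card) :
    ∃ φ : Fin n ↪ Fin n, ∀ h ∈ H, h.map φ ∈ G := by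
  obtain ⟨G', hG', hc⟩ := Finset.exists_subset_card_eq he
  obtain ⟨φ, hφ⟩ := hH G' (fun g hg => hG g (hG' hg)) hc
  exact ⟨φ, fun h hh => hG' (hφ h hh)⟩

lemma descFact_le {e B : ℕ} (h : e ≤ B) (g : ℕ) :
    e.descFactorial g * B ^ g ≤ B.descFactorial g * e ^ g := by
  induction g with
  | zero => simp
  | succ g ih =>
    rw [Nat.descFactorial_succ, Nat.descFactorial_succ, pow_succ, pow_succ]
    have h1 : (e - g) * B ≤ (B - g) * e := by
      rcases Nat.lt_or_ge e g with h2 | h2
      · rw [Nat.sub_eq_zero_of_le h2.le, zero_mul]; exact Nat.zero_le _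
      · obtain ⟨c, rfl⟩ := Nat.exists_eq_add_of_le h2
        obtain ⟨d, rfl⟩ := Nat.exists_eq_add_of_le h
        have e1 : g + c - g = c := by omega
        have e2 : g + c + d - g = c + d := by omega
        rw [e1, e2]
        nlinarith [Nat.zero_le (d * g)]
    calc (e - g) * e.descFactorial g * (B ^ g * B)
        = (e.descFactorial g * B ^ g) * ((e - g) * B) := by ring
      _ ≤ (B.descFactorial g * e ^ g) * ((B - g) * e) := Nat.mul_le_mul ih h1
      _ = _ := by ring

lemma pow_le_choose' {t r : ℕ} (h : r ≤ t) : t ^ r ≤ t.choose r * r ^ r := by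
  have h1 := descFact_le h r
  rw [Nat.descFactorial_self, Nat.descFactorial_eq_factorial_mul_choose, mul_assoc] at h1
  exact Nat.le_of_mul_le_mul_left h1 (Nat.factorial_pos r)

/-- counting bound -/
theorem Un.count {r e : ℕ} {H : Finset (Finset (Fin n))} (hH : Un r e H)
    (he : e ≤ n.choose r) :
    (n.choose r) ^ H.card ≤ n ^ (H.biUnion id).card * e ^ H.card := by
  set A : Finset (Finset (Fin n)) := Finset.powersetCard r Finset.univ with hA
  have hAc : A.card = n.choose r := by rw [hA, Finset.card_powersetCard]; simp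
  set B := n.choose r with hB
  set g := H.card with hg
  set V := H.biUnion id with hV
  have hφ : ∀ G : Finset (Finset (Fin n)), ∃ φ : Fin n ↪ Fin n,
      G ∈ Finset.powersetCard e A → ∀ h ∈ H, h.map φ ∈ G := by
    intro G
    by_cases hG : G ∈ Finset.powersetCard e A
    · rw [Finset.mem_powersetCard] at hG
      obtain ⟨φ, hφ⟩ := hH G (fun g hg => (Finset.mem_powersetCard.mp (hG.1 hg)).2) hG.2
      exact ⟨φ, fun _ => hφ⟩
    · exact ⟨Function.Embedding.refl _, fun h => absurd h hG⟩
  choose φ hφ using hφ
  -- fibres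
  have hcard_image : ∀ G, (H.image (fun h => h.map (φ G))).card = g := by
    intro G
    rw [Finset.card_image_of_injective _ (Finset.map_injective (φ G))]
  have hfib : ∀ ρ : V → Fin n, ((Finset.powersetCard e A).filter
      (fun G => (fun v : V => φ G v) = ρ)).card ≤ (B - g).choose (e - g) := by
    intro ρ
    by_cases hne : ((Finset.powersetCard e A).filter
      (fun G => (fun v : V => φ G v) = ρ)).Nonempty
    swap
    · rw [Finset.not_nonempty_iff_eq_empty] at hne
      rw [hne]; simp
    obtain ⟨G0, hG0⟩ := hne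
    rw [Finset.mem_filter] at hG0
    set H0 := H.image (fun h => h.map (φ G0)) with hH0
    have hsame : ∀ G ∈ (Finset.powersetCard e A).filter
      (fun G => (fun v : V => φ G v) = ρ), H0 ⊆ G := by
      intro G hG
      rw [Finset.mem_filter] at hG
      intro x hx
      rw [hH0, Finset.mem_image] at hx
      obtain ⟨h, hh, rfl⟩ := hx
      have h1 : h.map (φ G0) = h.map (φ G) := by
        rw [Finset.map_eq_image, Finset.map_eq_image]
        apply Finset.image_congr
        intro v hv
        have hvV : v ∈ V := by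
          rw [hV, Finset.mem_biUnion]
          exact ⟨h, hh, hv⟩
        exact congrFun (hG0.2.trans hG.2.symm) ⟨v, hvV⟩
      rw [h1]
      exact hφ G hG.1 h hh
    have hH0A : H0 ⊆ A := (hsame G0 (Finset.mem_filter.mpr hG0)).trans
      (Finset.mem_powersetCard.mp hG0.1).1
    have h2 : ((Finset.powersetCard e A).filter
      (fun G => (fun v : V => φ G v) = ρ)).card ≤ (Finset.powersetCard (e - g) (A \ H0)).card := by
      apply Finset.card_le_card_of_injOn (fun G => G \ H0)
      · intro G hG
        have h3 := hsame G hG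
        have h4 := Finset.mem_powersetCard.mp (Finset.mem_filter.mp hG).1
        rw [Finset.mem_coe, Finset.mem_powersetCard]
        refine ⟨Finset.sdiff_subset_sdiff h4.1 subset_rfl, ?_⟩
        rw [Finset.card_sdiff_of_subset h3, h4.2, hcard_image]
      · intro G hG G' hG' h
        have h3 := hsame G hG
        have h4 := hsame G' hG'
        simp only at h
        rw [← Finset.sdiff_union_of_subset h3, ← Finset.sdiff_union_of_subset h4, h]
    rw [Finset.card_powersetCard, Finset.card_sdiff_of_subset hH0A, hAc, hcard_image] at h2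
    exact h2
  have hge : g ≤ e := by
    obtain ⟨G, hGA, hGe⟩ := Finset.exists_subset_card_eq (show e ≤ A.card by rw [hAc]; exact he)
    have hG : G ∈ Finset.powersetCard e A := Finset.mem_powersetCard.mpr ⟨hGA, hGe⟩
    rw [← hGe, ← hcard_image G]
    apply Finset.card_le_card
    intro x hx
    rw [Finset.mem_image] at hx
    obtain ⟨h, hh, rfl⟩ := hx
    exact hφ G hG h hh
  have h1 : (Finset.powersetCard e A).card ≤ n ^ V.card * (B - g).choose (e - g) := by
    have h2 := Finset.card_eq_sum_card_fiberwise (f := fun G => (fun v : V => φ G v))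
      (s := Finset.powersetCard e A) (t := Finset.univ) (fun _ _ => Finset.mem_univ _)
    rw [h2]
    calc _ ≤ ∑ ρ : V → Fin n, (B - g).choose (e - g) := Finset.sum_le_sum (fun ρ _ => hfib ρ)
      _ = _ := by
        rw [Finset.sum_const, Finset.card_univ, Fintype.card_fun, Fintype.card_fin,
          Fintype.card_coe, smul_eq_mul]
  rw [Finset.card_powersetCard, hAc] at h1
  -- B.choose g ≤ n^v * e.choose g
  have h2 : B.choose g ≤ n ^ V.card * e.choose g := by
    have h3 := Nat.choose_mul (n := B) hge
    have h4 : 0 < B.choose e := Nat.choose_pos he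
    apply Nat.le_of_mul_le_mul_left _ h4
    calc B.choose e * B.choose g ≤ (n ^ V.card * (B - g).choose (e - g)) * B.choose g :=
          Nat.mul_le_mul_right _ h1
      _ = n ^ V.card * (B.choose g * (B - g).choose (e - g)) := by ring
      _ = n ^ V.card * (B.choose e * e.choose g) := by rw [← h3]
      _ = B.choose e * (n ^ V.card * e.choose g) := by ring
  have h3 : B.descFactorial g ≤ n ^ V.card * e.descFactorial g := by
    rw [Nat.descFactorial_eq_factorial_mul_choose, Nat.descFactorial_eq_factorial_mul_choose]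
    calc g.factorial * B.choose g ≤ g.factorial * (n ^ V.card * e.choose g) :=
          Nat.mul_le_mul_left _ h2
      _ = _ := by ring
  have h4 := descFact_le he g
  have h5 : 0 < B.descFactorial g := Nat.descFactorial_pos.mpr (hge.trans he)
  apply Nat.le_of_mul_le_mul_left _ h5
  calc B.descFactorial g * B ^ g ≤ (n ^ V.card * e.descFactorial g) * B ^ g :=
        Nat.mul_le_mul_right _ h3
    _ = n ^ V.card * (e.descFactorial g * B ^ g) := by ring
    _ ≤ n ^ V.card * (B.descFactorial g * e ^ g) := Nat.mul_le_mul_left _ h4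
    _ = _ := by ring

/-- clique host -/
theorem Un.clique {r e t : ℕ} {H : Finset (Finset (Fin n))} (hH : Un r e H)
    (htn : t ≤ n) (ht : e ≤ t.choose r) : (H.biUnion id).card ≤ t := by
  obtain ⟨T, hT⟩ : ∃ T : Finset (Fin n), T.card = t := by
    obtain ⟨T, -, hT⟩ := Finset.exists_subset_card_eq
      (show t ≤ (Finset.univ : Finset (Fin n)).card by simpa using htn)
    exact ⟨T, hT⟩
  obtain ⟨φ, hφ⟩ := hH.mono (Finset.powersetCard r T)
    (fun g hg => (Finset.mem_powersetCard.mp hg).2)
    (by rw [Finset.card_powersetCard, hT]; exact ht)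
  have h1 : (H.biUnion id).map φ ⊆ T := by
    intro x hx
    rw [Finset.mem_map] at hx
    obtain ⟨v, hv, rfl⟩ := hx
    rw [Finset.mem_biUnion] at hv
    obtain ⟨h, hh, hv⟩ := hv
    exact (Finset.mem_powersetCard.mp (hφ h hh)).1 (Finset.mem_map_of_mem φ hv)
  have := Finset.card_le_card h1
  rwa [Finset.card_map, hT] at this

/-- star host -/
theorem Un.star {r e t : ℕ} (hr : 1 ≤ r) {H : Finset (Finset (Fin n))} (hH : Un r e H)
    (htn : t ≤ n) (ht : e ≤ t * (n - t).choose (r - 1)) :
    ∃ S : Finset (Fin n), S.card ≤ t ∧ ∀ h ∈ H, ∃ v ∈ h, v ∈ S := by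
  obtain ⟨T, -, hT⟩ := Finset.exists_subset_card_eq
      (show t ≤ (Finset.univ : Finset (Fin n)).card by simpa using htn)
  set G := (Finset.powersetCard r (Finset.univ : Finset (Fin n))).filter
    (fun g => ∃ v ∈ g, v ∈ T) with hG
  have hcard : t * (n - t).choose (r - 1) ≤ G.card := by
    have h1 : (T ×ˢ Finset.powersetCard (r-1) Tᶜ).card ≤ G.card := by
      apply Finset.card_le_card_of_injOn (fun p => insert p.1 p.2)
      · rintro ⟨v, B⟩ hp
        simp only [Finset.coe_product, Set.mem_prod, Finset.mem_coe,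
          Finset.mem_powersetCard] at hp
        obtain ⟨hv, hB1, hB2⟩ := hp
        have hvB : v ∉ B := fun h => (Finset.mem_compl.mp (hB1 h)) hv
        rw [hG, Finset.mem_coe, Finset.mem_filter, Finset.mem_powersetCard]
        refine ⟨⟨Finset.subset_univ _, ?_⟩, v, Finset.mem_insert_self _ _, hv⟩
        simp only
        rw [Finset.card_insert_of_notMem hvB, hB2]
        omega
      · rintro ⟨v, B⟩ hp ⟨v', B'⟩ hp' h
        simp only [Finset.coe_product, Set.mem_prod, Finset.mem_coe,
          Finset.mem_powersetCard] at hp hp' h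
        obtain ⟨hv, hB1, hB2⟩ := hp
        obtain ⟨hv', hB1', hB2'⟩ := hp'
        have hvB : v ∉ B := fun h => (Finset.mem_compl.mp (hB1 h)) hv
        have hvB' : v' ∉ B' := fun h => (Finset.mem_compl.mp (hB1' h)) hv'
        have h1 : v = v' := by
          have h2 : v ∈ insert v' B' := by rw [← h]; exact Finset.mem_insert_self _ _
          rcases Finset.mem_insert.mp h2 with h3 | h3
          · exact h3
          · exact absurd hv (Finset.mem_compl.mp (hB1' h3))
        subst h1
        have h2 : B = B' := by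
          rw [← Finset.erase_insert hvB, ← Finset.erase_insert hvB', h]
        rw [h2]
    rw [Finset.card_product, hT, Finset.card_powersetCard, Finset.card_compl, hT,
      Fintype.card_fin] at h1
    exact h1
  obtain ⟨φ, hφ⟩ := hH.mono G
    (fun g hg => (Finset.mem_powersetCard.mp (Finset.mem_filter.mp hg).1).2) (ht.trans hcard)
  refine ⟨Finset.univ.filter (fun v => φ v ∈ T), ?_, ?_⟩
  · rw [← hT]
    apply Finset.card_le_card_of_injOn φ
    · intro v hv
      exact (Finset.mem_filter.mp hv).2
    · exact φ.injective.injOn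
  · intro h hh
    obtain ⟨v, hv1, hv2⟩ := (Finset.mem_filter.mp (hφ h hh)).2
    rw [Finset.mem_map] at hv1
    obtain ⟨u, hu, rfl⟩ := hv1
    exact ⟨u, hu, Finset.mem_filter.mpr ⟨Finset.mem_univ _, hv2⟩⟩

/-- disjoint cliques host -/
theorem Un.cliques {r e t s : ℕ} (hr : 1 ≤ r) (ht0 : 0 < t) {H : Finset (Finset (Fin n))}
    (hH : Un r e H)
    (ht : e ≤ (n / t) * t.choose r) (S : Finset (Fin n)) (hS : S.card ≤ s)
    (hcov : ∀ h ∈ H, ∃ v ∈ h, v ∈ S) : (H.biUnion id).card ≤ s * t := by
  set G := (Finset.powersetCard r (Finset.univ : Finset (Fin n))).filter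
    (fun g : Finset (Fin n) => ∀ u ∈ g, ∀ v ∈ g, u.val / t = v.val / t) with hG
  let blk : ℕ → Finset (Fin n) := fun k => Finset.univ.filter (fun v => (v : ℕ) / t = k)
  have hblk_le : ∀ k, (blk k).card ≤ t := by
    intro k
    have h1 : (blk k).card ≤ (Finset.range t).card := by
      apply Finset.card_le_card_of_injOn (fun v : Fin n => v.val % t)
      · intro v _
        simp only [Finset.coe_range, Set.mem_Iio]
        exact Nat.mod_lt _ ht0
      · intro v hv v' hv' h
        simp only [blk, Finset.mem_coe, Finset.mem_filter, Finset.mem_univ, true_and] at hv hv'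
        simp only at h
        apply Fin.ext
        rw [← Nat.div_add_mod (v : ℕ) t, ← Nat.div_add_mod (v' : ℕ) t, hv, hv', h]
    simpa using h1
  have hblk_ge : ∀ k < n / t, t ≤ (blk k).card := by
    intro k hk
    have hlt : ∀ i < t, k * t + i < n := by
      intro i hi
      calc k * t + i < k * t + t := by omega
        _ = (k + 1) * t := by ring
        _ ≤ (n / t) * t := Nat.mul_le_mul_right _ hk
        _ ≤ n := Nat.div_mul_le_self _ _
    have h1 : (Finset.univ : Finset (Fin t)).card ≤ (blk k).card := by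
      apply Finset.card_le_card_of_injOn (fun i : Fin t => (⟨k * t + i, hlt i i.2⟩ : Fin n))
      · intro i _
        simp only [blk, Finset.mem_coe, Finset.mem_filter, Finset.mem_univ, true_and]
        rw [mul_comm, Nat.mul_add_div ht0, Nat.div_eq_of_lt i.2, add_zero]
      · intro i _ i' _ h
        simp only [Fin.mk.injEq] at h
        apply Fin.ext
        omega
    simpa using h1
  have hcard : (n / t) * t.choose r ≤ G.card := by
    have hsub : (Finset.range (n / t)).biUnion (fun k => Finset.powersetCard r (blk k)) ⊆ G := by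
      intro g hg
      rw [Finset.mem_biUnion] at hg
      obtain ⟨k, hk, hg⟩ := hg
      rw [Finset.mem_powersetCard] at hg
      rw [hG, Finset.mem_filter, Finset.mem_powersetCard]
      refine ⟨⟨Finset.subset_univ _, hg.2⟩, ?_⟩
      intro u hu v hv
      have h1 := (Finset.mem_filter.mp (hg.1 hu)).2
      have h2 := (Finset.mem_filter.mp (hg.1 hv)).2
      rw [h1, h2]
    refine le_trans ?_ (Finset.card_le_card hsub)
    rw [Finset.card_biUnion]
    · calc (n / t) * t.choose r = ∑ k ∈ Finset.range (n / t), t.choose r := by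
            rw [Finset.sum_const, Finset.card_range, smul_eq_mul]
        _ ≤ _ := by
            apply Finset.sum_le_sum
            intro k hk
            rw [Finset.card_powersetCard]
            exact Nat.choose_le_choose r (hblk_ge k (Finset.mem_range.mp hk))
    · intro k _ l _ hkl
      rw [Function.onFun, Finset.disjoint_left]
      intro g hg hg'
      rw [Finset.mem_powersetCard] at hg hg'
      have hne : g.Nonempty := Finset.card_pos.mp (by omega)
      obtain ⟨v, hv⟩ := hne
      have h1 := (Finset.mem_filter.mp (hg.1 hv)).2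
      have h2 := (Finset.mem_filter.mp (hg'.1 hv)).2
      exact hkl (h1.symm.trans h2)
  obtain ⟨φ, hφ⟩ := hH.mono G
    (fun g hg => (Finset.mem_powersetCard.mp (Finset.mem_filter.mp hg).1).2) (ht.trans hcard)
  have hsub : (H.biUnion id).map φ ⊆ S.biUnion (fun s => blk ((φ s : ℕ) / t)) := by
    intro x hx
    rw [Finset.mem_map] at hx
    obtain ⟨v, hv, rfl⟩ := hx
    rw [Finset.mem_biUnion] at hv
    obtain ⟨h, hh, hv⟩ := hv
    obtain ⟨u, hu, huS⟩ := hcov h hh
    rw [Finset.mem_biUnion]
    refine ⟨u, huS, ?_⟩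
    have h1 := (Finset.mem_filter.mp (hφ h hh)).2 (φ v) (Finset.mem_map_of_mem φ hv) (φ u)
      (Finset.mem_map_of_mem φ hu)
    exact Finset.mem_filter.mpr ⟨Finset.mem_univ _, h1⟩
  have h1 := Finset.card_le_card hsub
  rw [Finset.card_map] at h1
  calc (H.biUnion id).card ≤ _ := h1
    _ ≤ ∑ s ∈ S, (blk ((φ s : ℕ) / t)).card := Finset.card_biUnion_le
    _ ≤ ∑ s ∈ S, t := Finset.sum_le_sum (fun s _ => hblk_le _)
    _ = S.card * t := by rw [Finset.sum_const, smul_eq_mul]
    _ ≤ s * t := Nat.mul_le_mul_right _ hS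

end Pool.Agent.H20
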