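import Pool.Agent.H20.Upper
import Pool.Agent.H20.Lower

set_option autoImplicit false

open scoped Classical
open Finset

namespace Pool.Agent.H20

theorem upper_bound (r : ℕ) (hr : 2 ≤ r) (ε : ℝ) (hε : 0 < ε) :
    ∃ C : ℝ, 0 < C ∧ ∃ N : ℕ, ∀ n e : ℕ, N ≤ n →
      (n : ℝ) ^ (r - 1) ≤ (e : ℝ) → (e : ℝ) ≤ (n : ℝ) ^ ((r : ℝ) - ε) →
      ∀ H : Finset (Finset (Fin n)), Un r e H →
          (H.card : ℝ) ≤ C * min ((e : ℝ) ^ ((r : ℝ) / ((r : ℝ) - 1)) /
                (n : ℝ) ^ ((r : ℝ) - 1 + 1 / ((r : ℝ) - 1)))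
              ((e : ℝ) ^ (1 / (r : ℝ))) := by
  have hrR : (2 : ℝ) ≤ r := by exact_mod_cast hr
  have hr0 : (0 : ℝ) < r := by linarith
  have hrm : (0 : ℝ) < (r : ℝ) - 1 := by linarith
  have hrpow1 : (1 : ℝ) ≤ (2 * (r : ℝ)) ^ r := one_le_pow₀ (by linarith)
  obtain ⟨N1, hN1⟩ := exists_large ((r : ℝ) + 1) (ε / r) (by positivity)
  obtain ⟨N2, hN2⟩ := exists_large ((r : ℝ) ^ r) (ε / 2) (by positivity)
  obtain ⟨N3, hN3⟩ := exists_large (4 * (2 * (r : ℝ)) ^ r) ε hε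
  obtain ⟨N4, hN4⟩ := exists_large (8 * (r : ℝ) ^ 2) (ε / ((r : ℝ) - 1)) (by positivity)
  set C' : ℝ := ((r : ℝ) + 1) + 8 * (2 * (r : ℝ)) ^ r * (r : ℝ) ^ 2 with hC'
  have hC'0 : 0 < C' := by positivity
  refine ⟨(2 / ε) * C', by positivity, max (max (max N1 N2) (max N3 N4)) (2 * r), ?_⟩
  intro n e hn hlow hup H hH
  have hnN1 : N1 ≤ n := le_trans (le_trans (le_max_left _ _) (le_max_left _ _))
    (le_trans (le_max_left _ _) hn)
  have hnN2 : N2 ≤ n := le_trans (le_trans (le_max_right _ _) (le_max_left _ _))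
    (le_trans (le_max_left _ _) hn)
  have hnN3 : N3 ≤ n := le_trans (le_trans (le_max_left _ _) (le_max_right _ _))
    (le_trans (le_max_left _ _) hn)
  have hnN4 : N4 ≤ n := le_trans (le_trans (le_max_right _ _) (le_max_right _ _))
    (le_trans (le_max_left _ _) hn)
  have hn2r : 2 * r ≤ n := le_trans (le_max_right _ _) hn
  have hn1 : 1 ≤ n := by omega
  have hn1R : (1 : ℝ) ≤ n := by exact_mod_cast hn1
  have hn1R' : (1 : ℝ) < n := by exact_mod_cast (show 1 < n by omega)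
  have hn0R : (0 : ℝ) < n := by linarith
  have hA1 := hN1 n hnN1
  have hA2 := hN2 n hnN2
  have hA3 := hN3 n hnN3
  have hA4 := hN4 n hnN4
  have hnp : (0 : ℝ) < (n : ℝ) ^ (r - 1) := by positivity
  have he0 : (0 : ℝ) < e := lt_of_lt_of_le hnp hlow
  have hne : (n : ℝ) ≤ e := by
    refine le_trans ?_ hlow
    exact le_self_pow₀ hn1R (by omega)
  have he1 : (1 : ℝ) ≤ e := by linarith
  -- v ≤ t
  set V := H.biUnion id with hV
  set s1 : ℝ := (e : ℝ) ^ (1 / (r : ℝ)) with hs1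
  have hs11 : 1 ≤ s1 := Real.one_le_rpow he1 (by positivity)
  have hs1r : s1 ^ r = e := by
    rw [hs1, ← Real.rpow_natCast, ← Real.rpow_mul he0.le]
    rw [one_div, inv_mul_cancel₀ hr0.ne', Real.rpow_one]
  have hv1 : (V.card : ℝ) ≤ ((r : ℝ) + 1) * s1 := by
    set t := ⌈(r : ℝ) * s1⌉₊ with ht
    have ht1 : (r : ℝ) * s1 ≤ t := Nat.le_ceil _
    have ht2 : (t : ℝ) ≤ ((r : ℝ) + 1) * s1 := by
      have := (Nat.ceil_lt_add_one (by positivity : (0:ℝ) ≤ (r : ℝ) * s1)).le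
      rw [← ht] at this
      linarith
    have htn : t ≤ n := by
      have h1 : s1 ≤ (n : ℝ) ^ (1 - ε / r) := by
        rw [hs1]
        calc (e : ℝ) ^ (1 / (r : ℝ)) ≤ ((n : ℝ) ^ ((r : ℝ) - ε)) ^ (1 / (r : ℝ)) := by
              apply Real.rpow_le_rpow he0.le hup (by positivity)
          _ = (n : ℝ) ^ (1 - ε / r) := by
              rw [← Real.rpow_mul hn0R.le]
              congr 1
              field_simp
      have h2 : (t : ℝ) ≤ n := by
        calc (t : ℝ) ≤ ((r : ℝ) + 1) * s1 := ht2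
          _ ≤ (n : ℝ) ^ (ε / r) * (n : ℝ) ^ (1 - ε / r) := by gcongr
          _ = n := by rw [← Real.rpow_add hn0R]; simp
      exact_mod_cast h2
    have hrt : r ≤ t := by
      have : (r : ℝ) ≤ t := by
        refine le_trans ?_ ht1
        nlinarith
      exact_mod_cast this
    have hch : e ≤ t.choose r := by
      have h1 : t ^ r ≤ t.choose r * r ^ r := pow_le_choose' hrt
      have h2 : (e : ℝ) * (r : ℝ) ^ r ≤ (t.choose r : ℝ) * (r : ℝ) ^ r := by
        calc (e : ℝ) * (r : ℝ) ^ r = ((r : ℝ) * s1) ^ r := by rw [mul_pow, hs1r]; ring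
          _ ≤ (t : ℝ) ^ r := by gcongr
          _ ≤ _ := by exact_mod_cast h1
      have h3 : (e : ℝ) ≤ (t.choose r : ℝ) := le_of_mul_le_mul_right h2 (by positivity)
      exact_mod_cast h3
    have := hH.clique htn hch
    refine le_trans ?_ ht2
    exact_mod_cast this
  -- v ≤ t' t''
  set E1 : ℝ := e / (n : ℝ) ^ (r - 1) with hE1
  have hE11 : 1 ≤ E1 := by rw [hE1, le_div_iff₀ hnp, one_mul]; exact hlow
  set E2 : ℝ := ((e : ℝ) / n) ^ (1 / ((r : ℝ) - 1)) with hE2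
  have hen1 : 1 ≤ (e : ℝ) / n := by rw [le_div_iff₀ hn0R, one_mul]; exact hne
  have hE21 : 1 ≤ E2 := Real.one_le_rpow hen1 (by positivity)
  have hr1 : ((r - 1 : ℕ) : ℝ) = r - 1 := by
    rw [Nat.cast_sub (by omega)]; simp
  have hE2r : E2 ^ (r - 1) = e / n := by
    rw [hE2, ← Real.rpow_natCast, ← Real.rpow_mul (by positivity), hr1]
    rw [one_div, inv_mul_cancel₀ hrm.ne', Real.rpow_one]
  have hv2 : (V.card : ℝ) ≤ (8 * (2 * (r : ℝ)) ^ r * (r : ℝ) ^ 2) * (E1 * E2) := by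
    set t1 := ⌈(2 * (r : ℝ)) ^ r * E1⌉₊ with ht1
    have h11 : 1 ≤ (2 * (r : ℝ)) ^ r * E1 := by nlinarith
    have ht11 := (ceil_two h11).1
    have ht12 := (ceil_two h11).2
    rw [← ht1] at ht11 ht12
    have hE1n : E1 ≤ (n : ℝ) ^ (1 - ε) := by
      rw [hE1, div_le_iff₀ hnp]
      refine hup.trans (le_of_eq ?_)
      rw [← Real.rpow_natCast, ← Real.rpow_add hn0R, hr1]
      congr 1; ring
    have h2t1 : 2 * t1 ≤ n := by
      have : 2 * (t1 : ℝ) ≤ n := by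
        calc 2 * (t1 : ℝ) ≤ 2 * (2 * ((2 * (r : ℝ)) ^ r * E1)) := by gcongr
          _ = (4 * (2 * (r : ℝ)) ^ r) * E1 := by ring
          _ ≤ (n : ℝ) ^ ε * (n : ℝ) ^ (1 - ε) := by gcongr
          _ = n := by rw [← Real.rpow_add hn0R]; simp
      exact_mod_cast this
    have hst : e ≤ t1 * (n - t1).choose (r - 1) := by
      have h1 : (n - t1) ^ (r - 1) ≤ (n - t1).choose (r - 1) * (r - 1) ^ (r - 1) :=
        pow_le_choose' (by omega)
      have hnt : (n : ℝ) / 2 ≤ ((n - t1 : ℕ) : ℝ) := by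
        rw [Nat.cast_sub (by omega)]
        have : 2 * (t1 : ℝ) ≤ n := by exact_mod_cast h2t1
        linarith
      have h1R : ((n - t1 : ℕ) : ℝ) ^ (r - 1) ≤
          ((n - t1).choose (r - 1) : ℝ) * ((r - 1 : ℕ) : ℝ) ^ (r - 1) := by exact_mod_cast h1
      have hr1pos : (0 : ℝ) < ((r - 1 : ℕ) : ℝ) ^ (r - 1) := by rw [hr1]; positivity
      have h2 : (e : ℝ) * ((r - 1 : ℕ) : ℝ) ^ (r - 1) ≤
          ((t1 : ℝ) * ((n - t1).choose (r - 1) : ℝ)) * ((r - 1 : ℕ) : ℝ) ^ (r - 1) := by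
        have h3 : ((r - 1 : ℕ) : ℝ) ^ (r - 1) ≤ (r : ℝ) ^ r := by
          calc ((r - 1 : ℕ) : ℝ) ^ (r - 1) ≤ (r : ℝ) ^ (r - 1) := by
                gcongr
                omega
            _ ≤ (r : ℝ) ^ r := pow_le_pow_right₀ (by linarith) (by omega)
        have h4 : (2 * (r : ℝ)) ^ r * ((n : ℝ) / 2) ^ (r - 1) * E1 = 2 * (r : ℝ) ^ r * e := by
          rw [hE1, mul_pow, div_pow]
          have h5 : (2 : ℝ) ^ r = 2 * 2 ^ (r - 1) := by
            rw [← pow_succ']; congr 1; omega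
          rw [h5]
          field_simp
        calc (e : ℝ) * ((r - 1 : ℕ) : ℝ) ^ (r - 1) ≤ e * (r : ℝ) ^ r := by gcongr
          _ ≤ 2 * (r : ℝ) ^ r * e := by
              have : 0 ≤ (r : ℝ) ^ r * e := by positivity
              linarith
          _ = ((2 * (r : ℝ)) ^ r * E1) * ((n : ℝ) / 2) ^ (r - 1) := by rw [← h4]; ring
          _ ≤ (t1 : ℝ) * ((n - t1 : ℕ) : ℝ) ^ (r - 1) := by gcongr
          _ ≤ (t1 : ℝ) * (((n - t1).choose (r - 1) : ℝ) * ((r - 1 : ℕ) : ℝ) ^ (r - 1)) := by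
              gcongr
          _ = _ := by ring
      have h3 := le_of_mul_le_mul_right h2 hr1pos
      exact_mod_cast h3
    obtain ⟨S, hS, hcov⟩ := hH.star (by omega) (by omega) hst
    set t2 := ⌈2 * (r : ℝ) ^ 2 * E2⌉₊ with ht2
    have hr2 : (4 : ℝ) ≤ (r : ℝ) ^ 2 := by nlinarith
    have h21 : 1 ≤ 2 * (r : ℝ) ^ 2 * E2 := by nlinarith
    have ht21 := (ceil_two h21).1
    have ht22 := (ceil_two h21).2
    rw [← ht2] at ht21 ht22
    have hE2n : E2 ≤ (n : ℝ) ^ (1 - ε / ((r : ℝ) - 1)) := by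
      have h1 : (e : ℝ) / n ≤ (n : ℝ) ^ ((r : ℝ) - 1 - ε) := by
        rw [div_le_iff₀ hn0R]
        refine hup.trans (le_of_eq ?_)
        nth_rewrite 3 [← Real.rpow_one (n : ℝ)]
        rw [← Real.rpow_add hn0R]
        congr 1; ring
      calc E2 ≤ ((n : ℝ) ^ ((r : ℝ) - 1 - ε)) ^ (1 / ((r : ℝ) - 1)) := by
            rw [hE2]
            apply Real.rpow_le_rpow (by positivity) h1 (by positivity)
        _ = (n : ℝ) ^ (1 - ε / ((r : ℝ) - 1)) := by
            rw [← Real.rpow_mul hn0R.le]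
            congr 1
            field_simp
    have h2t2 : 2 * t2 ≤ n := by
      have : 2 * (t2 : ℝ) ≤ n := by
        calc 2 * (t2 : ℝ) ≤ 2 * (2 * (2 * (r : ℝ) ^ 2 * E2)) := by gcongr
          _ = (8 * (r : ℝ) ^ 2) * E2 := by ring
          _ ≤ (n : ℝ) ^ (ε / ((r : ℝ) - 1)) * (n : ℝ) ^ (1 - ε / ((r : ℝ) - 1)) := by gcongr
          _ = n := by rw [← Real.rpow_add hn0R]; simp
      exact_mod_cast this
    have ht2r : r ≤ t2 := by
      have : (r : ℝ) ≤ t2 := by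
        refine le_trans ?_ ht21
        nlinarith
      exact_mod_cast this
    have ht20 : 0 < t2 := by omega
    have hcl : e ≤ (n / t2) * t2.choose r := by
      have h1 : t2 ^ r ≤ t2.choose r * r ^ r := pow_le_choose' ht2r
      have h1R : (t2 : ℝ) ^ r ≤ (t2.choose r : ℝ) * (r : ℝ) ^ r := by exact_mod_cast h1
      have h2 : n ≤ 2 * ((n / t2) * t2) := by
        have h3 := Nat.div_add_mod n t2
        have h4 := Nat.mod_lt n ht20
        have h5 : t2 * (n / t2) = (n / t2) * t2 := by ring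
        omega
      have h2R : (n : ℝ) ≤ 2 * (((n / t2 : ℕ) : ℝ) * t2) := by exact_mod_cast h2
      have h3 : (e : ℝ) * (2 * (r : ℝ) ^ r) ≤
          (((n / t2 : ℕ) : ℝ) * (t2.choose r : ℝ)) * (2 * (r : ℝ) ^ r) := by
        have h4 : (2 : ℝ) * (r : ℝ) ^ r ≤ (2 * (r : ℝ) ^ 2) ^ (r - 1) := by
          rw [mul_pow, ← pow_mul]
          have h5 : (2 : ℝ) ≤ 2 ^ (r - 1) := by
            calc (2 : ℝ) = 2 ^ 1 := by norm_num
              _ ≤ 2 ^ (r - 1) := pow_le_pow_right₀ (by norm_num) (by omega)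
          have h6 : (r : ℝ) ^ r ≤ (r : ℝ) ^ (2 * (r - 1)) :=
            pow_le_pow_right₀ (by linarith) (by omega)
          gcongr
        calc (e : ℝ) * (2 * (r : ℝ) ^ r) ≤ e * (2 * (r : ℝ) ^ 2) ^ (r - 1) := by gcongr
          _ = n * ((2 * (r : ℝ) ^ 2 * E2) ^ (r - 1)) := by
              rw [mul_pow _ E2, hE2r]; field_simp
          _ ≤ n * (t2 : ℝ) ^ (r - 1) := by gcongr
          _ ≤ (2 * (((n / t2 : ℕ) : ℝ) * t2)) * (t2 : ℝ) ^ (r - 1) := by gcongr
          _ = 2 * ((n / t2 : ℕ) : ℝ) * (t2 : ℝ) ^ (r - 1 + 1) := by rw [pow_succ]; ring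
          _ = 2 * ((n / t2 : ℕ) : ℝ) * (t2 : ℝ) ^ r := by
              rw [show r - 1 + 1 = r by omega]
          _ ≤ 2 * ((n / t2 : ℕ) : ℝ) * ((t2.choose r : ℝ) * (r : ℝ) ^ r) := by gcongr
          _ = _ := by ring
      have h4 := le_of_mul_le_mul_right h3 (by positivity)
      exact_mod_cast h4
    have hfin := hH.cliques (by omega) ht20 hcl S hS hcov
    calc (V.card : ℝ) ≤ (t1 : ℝ) * t2 := by exact_mod_cast hfin
      _ ≤ (2 * ((2 * (r : ℝ)) ^ r * E1)) * (2 * (2 * (r : ℝ) ^ 2 * E2)) := by gcongr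
      _ = _ := by ring
  -- g ≤ (2/ε) v
  have hg : (H.card : ℝ) ≤ (2 / ε) * V.card := by
    have hch : n ^ r ≤ n.choose r * r ^ r := pow_le_choose' (by omega)
    have hchR : (n : ℝ) ^ r ≤ (n.choose r : ℝ) * (r : ℝ) ^ r := by exact_mod_cast hch
    have hB : (e : ℝ) * (n : ℝ) ^ (ε / 2) ≤ (n.choose r : ℝ) := by
      have h1 : ((e : ℝ) * (n : ℝ) ^ (ε / 2)) * (r : ℝ) ^ r ≤
          (n.choose r : ℝ) * (r : ℝ) ^ r := by
        calc ((e : ℝ) * (n : ℝ) ^ (ε / 2)) * (r : ℝ) ^ r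
            ≤ ((n : ℝ) ^ ((r : ℝ) - ε) * (n : ℝ) ^ (ε / 2)) * (n : ℝ) ^ (ε / 2) := by gcongr
          _ = (n : ℝ) ^ r := by
              rw [← Real.rpow_add hn0R, ← Real.rpow_add hn0R, ← Real.rpow_natCast]
              congr 1; ring
          _ ≤ _ := hchR
      exact le_of_mul_le_mul_right h1 (by positivity)
    have hnε : 1 ≤ (n : ℝ) ^ (ε / 2) := Real.one_le_rpow hn1R (by positivity)
    have heB : e ≤ n.choose r := by
      have : (e : ℝ) ≤ (n.choose r : ℝ) := by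
        refine le_trans ?_ hB
        nlinarith
      exact_mod_cast this
    have hc := hH.count heB
    have hcR : (n.choose r : ℝ) ^ H.card ≤ (n : ℝ) ^ V.card * (e : ℝ) ^ H.card := by
      exact_mod_cast hc
    have h1 : ((n : ℝ) ^ (ε / 2)) ^ H.card ≤ (n : ℝ) ^ V.card := by
      have h2 : ((n : ℝ) ^ (ε / 2)) ^ H.card * (e : ℝ) ^ H.card ≤
          (n : ℝ) ^ V.card * (e : ℝ) ^ H.card := by
        calc ((n : ℝ) ^ (ε / 2)) ^ H.card * (e : ℝ) ^ H.card
            = ((e : ℝ) * (n : ℝ) ^ (ε / 2)) ^ H.card := by rw [mul_pow]; ring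
          _ ≤ (n.choose r : ℝ) ^ H.card := by gcongr
          _ ≤ _ := hcR
      exact le_of_mul_le_mul_right h2 (by positivity)
    rw [← Real.rpow_natCast, ← Real.rpow_natCast, ← Real.rpow_mul hn0R.le,
      Real.rpow_le_rpow_left_iff hn1R'] at h1
    rw [div_mul_eq_mul_div, le_div_iff₀ hε]
    linarith
  -- conclusion
  have hE12 : E1 * E2 = (e : ℝ) ^ ((r : ℝ) / ((r : ℝ) - 1)) /
      (n : ℝ) ^ ((r : ℝ) - 1 + 1 / ((r : ℝ) - 1)) := by
    set le := Real.log e with hle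
    set l := Real.log n with hl
    have e1 : (e : ℝ) = Real.exp le := (Real.exp_log he0).symm
    have e2 : (n : ℝ) = Real.exp l := (Real.exp_log hn0R).symm
    rw [hE1, hE2, e1, e2, ← Real.exp_nat_mul, ← Real.exp_mul, ← Real.exp_mul, ← Real.exp_sub,
      ← Real.exp_sub, ← Real.exp_sub, ← Real.exp_mul, ← Real.exp_add, hr1]
    congr 1
    field_simp
    ring
  rw [← hE12]
  have hmin : (V.card : ℝ) ≤ C' * min (E1 * E2) s1 := by
    have hm0 : 0 ≤ min (E1 * E2) s1 := le_min (by positivity) (by positivity)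
    rcases le_total (E1 * E2) s1 with h | h
    · rw [min_eq_left h]
      refine hv2.trans ?_
      apply mul_le_mul_of_nonneg_right _ (by positivity)
      rw [hC']; linarith
    · rw [min_eq_right h]
      refine hv1.trans ?_
      apply mul_le_mul_of_nonneg_right _ (by positivity)
      rw [hC']
      have : 0 ≤ 8 * (2 * (r : ℝ)) ^ r * (r : ℝ) ^ 2 := by positivity
      linarith
  calc (H.card : ℝ) ≤ (2 / ε) * V.card := hg
    _ ≤ (2 / ε) * (C' * min (E1 * E2) s1) := by gcongr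
    _ = _ := by ring

end Pool.Agent.H20
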